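import Mathlib

/-!
Games on trees, positions written with the latest move first.
-/

namespace Pool.Agent.Lib.P43c499

universe u

/-- The first `n` moves of `x`, latest first. -/
def ini {A : Type u} (x : ℕ → A) : ℕ → List A
  | 0 => []
  | n + 1 => x n :: ini x n

@[simp] theorem ini_zero {A : Type u} (x : ℕ → A) : ini x 0 = [] := rfl

theorem ini_succ {A : Type u} (x : ℕ → A) (n : ℕ) : ini x (n + 1) = x n :: ini x n := rfl

@[simp] theorem ini_length {A : Type u} (x : ℕ → A) (n : ℕ) : (ini x n).length = n := by
  induction n with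
  | zero => rfl
  | succ n ih => simp [ini, ih]

theorem ini_map {A B : Type u} (f : B → A) (y : ℕ → B) (n : ℕ) :
    (ini y n).map f = ini (fun n => f (y n)) n := by
  induction n with
  | zero => rfl
  | succ n ih => simp [ini, ih]

theorem ini_congr {A : Type u} {x y : ℕ → A} {n : ℕ} (h : ∀ m < n, x m = y m) :
    ini x n = ini y n := by
  induction n with
  | zero => rfl
  | succ n ih =>
    simp only [ini]
    rw [h n (Nat.lt_succ_self n), ih (fun m hm => h m (Nat.lt_succ_of_lt hm))]

theorem ini_inj {A : Type u} {x y : ℕ → A} {n : ℕ} (h : ini x n = ini y n) :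
    ∀ m < n, x m = y m := by
  induction n with
  | zero => intro m hm; exact absurd hm (Nat.not_lt_zero m)
  | succ n ih =>
    simp only [ini, List.cons.injEq] at h
    intro m hm
    rcases Nat.lt_succ_iff_lt_or_eq.mp hm with h' | h'
    · exact ih h.2 m h'
    · rw [h']; exact h.1

/-- The earlier position of length `m`. -/
def anc {A : Type u} (m : ℕ) : List A → List A
  | [] => []
  | a :: l => if m ≤ l.length then anc m l else a :: l

@[simp] theorem anc_nil {A : Type u} (m : ℕ) : anc m ([] : List A) = [] := rfl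

theorem anc_cons_of_le {A : Type u} {m : ℕ} {a : A} {l : List A} (h : m ≤ l.length) :
    anc m (a :: l) = anc m l := by simp [anc, h]

theorem anc_of_le {A : Type u} {m : ℕ} {l : List A} (h : l.length ≤ m) : anc m l = l := by
  cases l with
  | nil => rfl
  | cons a l =>
    have : ¬ m ≤ l.length := by simp only [List.length_cons] at h; omega
    simp [anc, this]

theorem anc_length {A : Type u} {m : ℕ} {l : List A} (h : m ≤ l.length) :
    (anc m l).length = m := by
  induction l with
  | nil => simp at h; simp [h]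
  | cons a l ih =>
    by_cases h' : m ≤ l.length
    · rw [anc_cons_of_le h']; exact ih h'
    · have : m = (a :: l).length := by simp only [List.length_cons] at h ⊢; omega
      rw [anc_of_le (le_of_eq this.symm)]; exact this.symm

theorem anc_suffix {A : Type u} (m : ℕ) (l : List A) : anc m l <:+ l := by
  induction l with
  | nil => exact List.suffix_rfl
  | cons a l ih =>
    by_cases h' : m ≤ l.length
    · rw [anc_cons_of_le h']; exact ih.trans (List.suffix_cons a l)
    · rw [anc_of_le (by simp only [List.length_cons]; omega)]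

theorem eq_anc_of_suffix {A : Type u} {l' l : List A} (h : l' <:+ l) : l' = anc l'.length l := by
  induction l with
  | nil => simpa using h
  | cons a l ih =>
    rcases List.suffix_cons_iff.mp h with h1 | h1
    · subst h1; exact (anc_of_le le_rfl).symm
    · have h2 := h1.length_le
      rw [anc_cons_of_le h2]; exact ih h1

theorem anc_anc {A : Type u} {m n : ℕ} (h : m ≤ n) (l : List A) : anc m (anc n l) = anc m l := by
  induction l with
  | nil => rfl
  | cons a l ih =>
    by_cases h' : n ≤ l.length
    · rw [anc_cons_of_le h', anc_cons_of_le (h.trans h')]; exact ih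
    · rw [anc_of_le (l := a :: l) (m := n) (by simp only [List.length_cons]; omega)]

theorem anc_ini {A : Type u} (x : ℕ → A) {m n : ℕ} (h : m ≤ n) : anc m (ini x n) = ini x m := by
  induction n with
  | zero => have : m = 0 := by omega
            subst this; rfl
  | succ n ih =>
    by_cases h' : m ≤ n
    · rw [ini_succ, anc_cons_of_le (by simpa using h')]; exact ih h'
    · have : m = n + 1 := by omega
      subst this
      exact anc_of_le (by simp)

theorem ini_suffix {A : Type u} (x : ℕ → A) {m n : ℕ} (h : m ≤ n) : ini x m <:+ ini x n := by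
  rw [← anc_ini x h]; exact anc_suffix _ _

theorem eq_ini_of_suffix {A : Type u} {x : ℕ → A} {n : ℕ} {l : List A} (h : l <:+ ini x n) :
    l = ini x l.length := by
  have h1 := eq_anc_of_suffix h
  have h2 : l.length ≤ n := by simpa using h.length_le
  rw [anc_ini x h2] at h1
  exact h1

theorem anc_map {A B : Type u} (f : B → A) (m : ℕ) (l : List B) :
    (anc m l).map f = anc m (l.map f) := by
  induction l with
  | nil => rfl
  | cons a l ih =>
    by_cases h' : m ≤ l.length
    · rw [anc_cons_of_le h', List.map_cons, anc_cons_of_le (by simpa using h')]; exact ih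
    · rw [anc_of_le (by simp only [List.length_cons]; omega),
        anc_of_le (by simp only [List.length_map, List.length_cons]; omega)]

/-- A game tree: a nonempty set of positions closed under going back, with no end. -/
structure GT (A : Type u) where
  S : Set (List A)
  nil : [] ∈ S
  tl : ∀ a l, a :: l ∈ S → l ∈ S
  ext : ∀ l ∈ S, ∃ a, a :: l ∈ S

variable {A B C : Type u}

theorem GT.suffix (T : GT A) {l l' : List A} (h : l' <:+ l) (hl : l ∈ T.S) : l' ∈ T.S := by
  induction l with
  | nil => have : l' = [] := by simpa using h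
           rw [this]; exact hl
  | cons a l ih =>
    rcases List.suffix_cons_iff.mp h with h1 | h1
    · rw [h1]; exact hl
    · exact ih h1 (T.tl a l hl)

theorem GT.anc (T : GT A) {l : List A} (m : ℕ) (hl : l ∈ T.S) : anc m l ∈ T.S :=
  T.suffix (anc_suffix m l) hl

/-- Infinite plays of the tree. -/
def GT.Br (T : GT A) (x : ℕ → A) : Prop := ∀ n, ini x n ∈ T.S

/-- Total legal strategies. -/
def GT.St (T : GT A) (s : List A → A) : Prop := ∀ l ∈ T.S, s l :: l ∈ T.S

/-- The play `x` is consistent with `s` at the moves of player `b`. -/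
def Con (b : ℕ) (s : List A → A) (x : ℕ → A) : Prop := ∀ n, n % 2 = b → x n = s (ini x n)

theorem GT.nonempty (T : GT A) : Nonempty A := by
  obtain ⟨a, _⟩ := T.ext [] T.nil
  exact ⟨a⟩

/-- Some legal child. -/
noncomputable def GT.child (T : GT A) (l : List A) : A :=
  haveI := T.nonempty
  Classical.epsilon (fun a => a :: l ∈ T.S)

theorem GT.child_mem (T : GT A) {l : List A} (hl : l ∈ T.S) : T.child l :: l ∈ T.S := by
  have := T.nonempty
  exact Classical.epsilon_spec (T.ext l hl)

theorem GT.St_child (T : GT A) : T.St T.child := fun _ hl => T.child_mem hl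

/-- Coverings of game trees, unchanged up to positions of length `k`. -/
structure Cov (T : GT A) (T' : GT B) (k : ℕ) where
  f : B → A
  mem : ∀ l ∈ T'.S, l.map f ∈ T.S
  φ : ℕ → (List B → B) → (List A → A)
  st : ∀ b s, T'.St s → T.St (φ b s)
  loc : ∀ b n s s', (∀ l ∈ T'.S, l.length ≤ n → s l = s' l) →
    ∀ l ∈ T.S, l.length ≤ n → φ b s l = φ b s' l
  lift : ∀ b, b < 2 → ∀ s, T'.St s → ∀ x, T.Br x → Con b (φ b s) x →
    ∃ y, T'.Br y ∧ Con b s y ∧ ∀ n, f (y n) = x n
  uniq : ∀ l ∈ T'.S, ∀ l' ∈ T'.S, l.length ≤ k → l.map f = l'.map f → l = l'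
  surj : ∀ l ∈ T.S, l.length ≤ k → ∃ l' ∈ T'.S, l'.map f = l
  stab : ∀ b s, T'.St s → ∀ l ∈ T'.S, l.length < k → φ b s (l.map f) = f (s l)

/-- Identity covering. -/
def Cov.refl (T : GT A) (k : ℕ) : Cov T T k where
  f := id
  mem := by intro l hl; simpa using hl
  φ := fun _ s => s
  st := fun _ _ h => h
  loc := fun _ _ _ _ h => h
  lift := fun _ _ _ _ x hx hc => ⟨x, hx, hc, fun _ => rfl⟩
  uniq := by intro l _ l' _ _ h; simpa using h
  surj := by intro l hl _; exact ⟨l, hl, by simp⟩
  stab := by intro b s _ l _ _; simp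

/-- Composition of coverings. -/
def Cov.comp {T : GT A} {T' : GT B} {T'' : GT C} {k : ℕ} (c : Cov T T' k) (d : Cov T' T'' k) :
    Cov T T'' k where
  f := fun z => c.f (d.f z)
  mem := by
    intro l hl
    have h1 := c.mem _ (d.mem l hl)
    simpa [List.map_map, Function.comp_def] using h1
  φ := fun b s => c.φ b (d.φ b s)
  st := fun b s h => c.st b _ (d.st b s h)
  loc := fun b n s s' h => c.loc b n _ _ (d.loc b n s s' h)
  lift := by
    intro b hb s hs x hx hc
    obtain ⟨y, hy, hcy, hyx⟩ := c.lift b hb _ (d.st b s hs) x hx hc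
    obtain ⟨z, hz, hcz, hzy⟩ := d.lift b hb s hs y hy hcy
    exact ⟨z, hz, hcz, fun n => by rw [hzy, hyx]⟩
  uniq := by
    intro l hl l' hl' hk h
    apply d.uniq l hl l' hl' hk
    apply c.uniq _ (d.mem l hl) _ (d.mem l' hl') (by simpa using hk)
    simpa [List.map_map, Function.comp_def] using h
  surj := by
    intro l hl hk
    obtain ⟨l', hl', h'⟩ := c.surj l hl hk
    obtain ⟨l'', hl'', h''⟩ := d.surj l' hl' (by rw [← h'] at hk; simpa using hk)
    refine ⟨l'', hl'', ?_⟩
    rw [← h', ← h'']; simp [List.map_map, Function.comp_def]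
  stab := by
    intro b s hs l hl hk
    have h1 := d.stab b s hs l hl hk
    have h2 := c.stab b (d.φ b s) (d.st b s hs) (l.map d.f) (d.mem l hl) (by simpa using hk)
    rw [h1] at h2
    rw [← h2]; simp [List.map_map, Function.comp_def]

/-- Weakening the stability level. -/
def Cov.weaken {T : GT A} {T' : GT B} {k k' : ℕ} (c : Cov T T' k) (h : k' ≤ k) : Cov T T' k' where
  f := c.f
  mem := c.mem
  φ := c.φ
  st := c.st
  loc := c.loc
  lift := c.lift
  uniq := fun l hl l' hl' hk => c.uniq l hl l' hl' (hk.trans h)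
  surj := fun l hl hk => c.surj l hl (hk.trans h)
  stab := fun b s hs l hl hk => c.stab b s hs l hl (lt_of_lt_of_le hk h)

theorem Cov.br {T : GT A} {T' : GT B} {k : ℕ} (c : Cov T T' k) {y : ℕ → B} (hy : T'.Br y) :
    T.Br (fun n => c.f (y n)) := by
  intro n
  rw [← ini_map]
  exact c.mem _ (hy n)

/-- Open sets of plays of `T`. -/
def Opn (T : GT A) (U : Set (ℕ → A)) : Prop :=
  ∃ O : Set (List A), ∀ x, T.Br x → (x ∈ U ↔ ∃ n, ini x n ∈ O)

/-- Clopen sets of plays. -/
def Clop (T : GT A) (U : Set (ℕ → A)) : Prop := Opn T U ∧ Opn T Uᶜ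

theorem Opn.pull {T : GT A} {T' : GT B} {f : B → A} (hf : ∀ y, T'.Br y → T.Br (fun n => f (y n)))
    {U : Set (ℕ → A)} (h : Opn T U) : Opn T' {y | (fun n => f (y n)) ∈ U} := by
  obtain ⟨O, hO⟩ := h
  refine ⟨{l | l.map f ∈ O}, fun y hy => ?_⟩
  simp only [Set.mem_ofPred_eq]
  rw [hO _ (hf y hy)]
  simp only [ini_map]

theorem Clop.pull {T : GT A} {T' : GT B} {f : B → A} (hf : ∀ y, T'.Br y → T.Br (fun n => f (y n)))
    {U : Set (ℕ → A)} (h : Clop T U) : Clop T' {y | (fun n => f (y n)) ∈ U} :=
  ⟨h.1.pull hf, h.2.pull hf⟩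

theorem Clop.compl {T : GT A} {U : Set (ℕ → A)} (h : Clop T U) : Clop T Uᶜ :=
  ⟨h.2, by rw [compl_compl]; exact h.1⟩

theorem Opn.congr {T : GT A} {U V : Set (ℕ → A)} (h : Opn T U)
    (hUV : ∀ x, T.Br x → (x ∈ U ↔ x ∈ V)) : Opn T V := by
  obtain ⟨O, hO⟩ := h
  exact ⟨O, fun x hx => by rw [← hUV x hx]; exact hO x hx⟩

theorem Clop.congr {T : GT A} {U V : Set (ℕ → A)} (h : Clop T U)
    (hUV : ∀ x, T.Br x → (x ∈ U ↔ x ∈ V)) : Clop T V :=
  ⟨h.1.congr hUV, h.2.congr (fun x hx => by
    simp only [Set.mem_compl_iff]; rw [hUV x hx])⟩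

theorem Opn.iUnion {T : GT A} {U : ℕ → Set (ℕ → A)} (h : ∀ i, Opn T (U i)) :
    Opn T (⋃ i, U i) := by
  choose O hO using h
  refine ⟨⋃ i, O i, fun x hx => ?_⟩
  simp only [Set.mem_iUnion]
  constructor
  · rintro ⟨i, hi⟩
    obtain ⟨n, hn⟩ := (hO i x hx).mp hi
    exact ⟨n, i, hn⟩
  · rintro ⟨n, i, hn⟩
    exact ⟨i, (hO i x hx).mpr ⟨n, hn⟩⟩

/-- Winning positions: player `b` can force, inside `S`, a visit to `V`. -/
inductive Wn (b : ℕ) (S V : Set (List A)) : List A → Prop
  | base (l : List A) : l ∈ V → Wn b S V l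
  | own (l : List A) (a : A) : l.length % 2 = b → a :: l ∈ S → Wn b S V (a :: l) → Wn b S V l
  | opp (l : List A) : l.length % 2 ≠ b → (∀ a, a :: l ∈ S → Wn b S V (a :: l)) → Wn b S V l

theorem Wn.force [Nonempty A] {b : ℕ} {S V : Set (List A)} {w : List A} (h : Wn b S V w) :
    w ∈ S → ∃ t : List A → A, ∀ x : ℕ → A, ini x w.length = w →
      (∀ n, w.length ≤ n → (∀ m, w.length ≤ m → m ≤ n → ini x m ∉ V) → ini x n ∈ S →
        n % 2 ≠ b → ini x (n + 1) ∈ S) →
      (∀ n, w.length ≤ n → (∀ m, w.length ≤ m → m ≤ n → ini x m ∉ V) → ini x n ∈ S →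
        n % 2 = b → t (ini x n) :: ini x n ∈ S → x n = t (ini x n)) →
      ∃ n, w.length ≤ n ∧ ini x n ∈ V ∧ ∀ m, w.length ≤ m → m ≤ n → ini x m ∈ S := by
  classical
  induction h with
  | base l hl =>
    intro hw
    refine ⟨fun _ => Classical.arbitrary A, fun x hx _ _ => ⟨l.length, le_rfl, by rw [hx]; exact hl, ?_⟩⟩
    intro m h1 h2
    have : m = l.length := le_antisymm h2 h1
    rw [this, hx]; exact hw
  | own l a hb ha _ ih =>
    intro hw
    obtain ⟨t, ht⟩ := ih ha
    by_cases hV : l ∈ V
    · refine ⟨fun _ => Classical.arbitrary A, fun x hx _ _ => ⟨l.length, le_rfl, by rw [hx]; exact hV, ?_⟩⟩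
      intro m h1 h2
      have : m = l.length := le_antisymm h2 h1
      rw [this, hx]; exact hw
    refine ⟨Function.update t l a, fun x hx h1 h2 => ?_⟩
    have hxa : x l.length = a := by
      have := h2 l.length le_rfl (by
        intro m hm hm'
        have : m = l.length := le_antisymm hm' hm
        rw [this, hx]; exact hV) (by rw [hx]; exact hw) hb (by rw [hx]; simpa using ha)
      rw [this, hx]; simp
    have hx' : ini x (a :: l).length = a :: l := by
      simp only [List.length_cons, ini_succ]; rw [hxa, hx]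
    obtain ⟨n, hn, hnV, hnS⟩ := ht x hx' (by
      intro n hn hm hnS hnb
      apply h1 n (by simp only [List.length_cons] at hn; omega) _ hnS hnb
      intro m hm1 hm2
      rcases Nat.lt_or_ge l.length m with h' | h'
      · exact hm m h' hm2
      · have : m = l.length := le_antisymm h' hm1
        rw [this, hx]; exact hV) (by
      intro n hn hm hnS hnb hnt
      have hne : ini x n ≠ l := by
        intro h'
        have := congrArg List.length h'
        simp only [ini_length, List.length_cons] at this hn
        omega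
      have := h2 n (by simp only [List.length_cons] at hn; omega) (by
        intro m hm1 hm2
        rcases Nat.lt_or_ge l.length m with h' | h'
        · exact hm m h' hm2
        · have : m = l.length := le_antisymm h' hm1
          rw [this, hx]; exact hV) hnS hnb (by
          rw [Function.update_of_ne hne]; exact hnt)
      rw [Function.update_of_ne hne] at this
      exact this)
    refine ⟨n, by simp only [List.length_cons] at hn; omega, hnV, ?_⟩
    intro m hm1 hm2
    rcases Nat.lt_or_ge l.length m with h' | h'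
    · exact hnS m h' hm2
    · have : m = l.length := le_antisymm h' hm1
      rw [this, hx]; exact hw
  | opp l hb _ ih =>
    intro hw
    by_cases hV : l ∈ V
    · refine ⟨fun _ => Classical.arbitrary A, fun x hx _ _ => ⟨l.length, le_rfl, by rw [hx]; exact hV, ?_⟩⟩
      intro m h1 h2
      have : m = l.length := le_antisymm h2 h1
      rw [this, hx]; exact hw
    have ih' : ∀ a, ∃ t : List A → A, a :: l ∈ S → ∀ x : ℕ → A, ini x (a :: l).length = a :: l →
      (∀ n, (a :: l).length ≤ n → (∀ m, (a :: l).length ≤ m → m ≤ n → ini x m ∉ V) → ini x n ∈ S →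
        n % 2 ≠ b → ini x (n + 1) ∈ S) →
      (∀ n, (a :: l).length ≤ n → (∀ m, (a :: l).length ≤ m → m ≤ n → ini x m ∉ V) → ini x n ∈ S →
        n % 2 = b → t (ini x n) :: ini x n ∈ S → x n = t (ini x n)) →
      ∃ n, (a :: l).length ≤ n ∧ ini x n ∈ V ∧ ∀ m, (a :: l).length ≤ m → m ≤ n → ini x m ∈ S := by
      intro a
      by_cases ha : a :: l ∈ S
      · obtain ⟨t, ht⟩ := ih a ha ha
        exact ⟨t, fun _ => ht⟩
      · exact ⟨fun _ => Classical.arbitrary A, fun h => absurd h ha⟩
    choose t ht using ih'
    refine ⟨fun l' => if h : ∃ a, (a :: l) <:+ l' then t h.choose l' else Classical.arbitrary A,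
      fun x hx h1 h2 => ?_⟩
    have hS : ini x (l.length + 1) ∈ S := h1 l.length le_rfl (by
        intro m hm hm'
        have : m = l.length := le_antisymm hm' hm
        rw [this, hx]; exact hV) (by rw [hx]; exact hw) hb
    have hx' : ini x ((x l.length) :: l).length = (x l.length) :: l := by
      simp only [List.length_cons, ini_succ]; rw [hx]
    have hS' : (x l.length) :: l ∈ S := by
      rw [ini_succ, hx] at hS; exact hS
    have htt : ∀ n, l.length + 1 ≤ n → (if h : ∃ a, (a :: l) <:+ ini x n then t h.choose (ini x n)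
        else Classical.arbitrary A) = t (x l.length) (ini x n) := by
      intro n hn
      have hex : ∃ a, (a :: l) <:+ ini x n := ⟨x l.length, by
        have := ini_suffix x hn
        rw [ini_succ, hx] at this; exact this⟩
      rw [dif_pos hex]
      have h3 := eq_ini_of_suffix hex.choose_spec
      simp only [List.length_cons, ini_succ] at h3
      have h4 := (List.cons.inj h3).1
      rw [h4]
    obtain ⟨n, hn, hnV, hnS⟩ := ht (x l.length) hS' x hx' (by
      intro n hn hm hnS hnb
      apply h1 n (by simp only [List.length_cons] at hn; omega) _ hnS hnb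
      intro m hm1 hm2
      rcases Nat.lt_or_ge l.length m with h' | h'
      · exact hm m h' hm2
      · have : m = l.length := le_antisymm h' hm1
        rw [this, hx]; exact hV) (by
      intro n hn hm hnS hnb hnt
      have := h2 n (by simp only [List.length_cons] at hn; omega) (by
        intro m hm1 hm2
        rcases Nat.lt_or_ge l.length m with h' | h'
        · exact hm m h' hm2
        · have : m = l.length := le_antisymm h' hm1
          rw [this, hx]; exact hV) hnS hnb (by
          beta_reduce
          rw [htt n (by simpa using hn)]; exact hnt)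
      beta_reduce at this
      rw [htt n (by simpa using hn)] at this
      exact this)
    refine ⟨n, by simp only [List.length_cons] at hn; omega, hnV, ?_⟩
    intro m hm1 hm2
    rcases Nat.lt_or_ge l.length m with h' | h'
    · exact hnS m h' hm2
    · have : m = l.length := le_antisymm h' hm1
      rw [this, hx]; exact hw

end Pool.Agent.Lib.P43c499
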