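import Pool.Agent.Lib.P43c499.Basic

/-!
Combining strategies: follow one strategy until a winning position appears, then force a
target, then follow the strategy attached to the target.
-/

namespace Pool.Agent.Lib.P43c499

universe u

variable {A : Type u}

open Classical in
/-- A strategy forcing a visit of `V` from `w`. -/
noncomputable def frc [Nonempty A] (b : ℕ) (S V : Set (List A)) (w : List A) : List A → A :=
  if h : Wn b S V w ∧ w ∈ S then (h.1.force h.2).choose else fun _ => Classical.arbitrary A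

theorem frc_spec [Nonempty A] {b : ℕ} {S V : Set (List A)} {w : List A} (h : Wn b S V w)
    (hw : w ∈ S) : ∀ x : ℕ → A, ini x w.length = w →
      (∀ n, w.length ≤ n → (∀ m, w.length ≤ m → m ≤ n → ini x m ∉ V) → ini x n ∈ S →
        n % 2 ≠ b → ini x (n + 1) ∈ S) →
      (∀ n, w.length ≤ n → (∀ m, w.length ≤ m → m ≤ n → ini x m ∉ V) → ini x n ∈ S →
        n % 2 = b → frc b S V w (ini x n) :: ini x n ∈ S → x n = frc b S V w (ini x n)) →
      ∃ n, w.length ≤ n ∧ ini x n ∈ V ∧ ∀ m, w.length ≤ m → m ≤ n → ini x m ∈ S := by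
  have h' : Wn b S V w ∧ w ∈ S := ⟨h, hw⟩
  unfold frc
  rw [dif_pos h']
  exact (h'.1.force h'.2).choose_spec

open Classical in
/-- The combined move at `l`. -/
noncomputable def comb [Nonempty A] (b : ℕ) (S V : Set (List A)) (k : ℕ) (l : List A)
    (p : List A → A) (q : A) : A :=
  if h : ∃ m, k ≤ m ∧ m ≤ l.length ∧ anc m l ∈ V then p (anc (Nat.find h) l)
  else if h : ∃ m, k ≤ m ∧ m ≤ l.length ∧ anc m l ∈ S ∧ Wn b S V (anc m l) then
    frc b S V (anc (Nat.find h) l) l
  else q

theorem comb_spec [Nonempty A] {b : ℕ} {S V : Set (List A)} {w : List A} (x : ℕ → A)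
    (τ : List A → List A → A) (τc : List A → A) (hx : ini x w.length = w) (hw : w ∈ S)
    (opp : ∀ n, w.length ≤ n → n % 2 ≠ b → ini x n ∈ S → ini x (n + 1) ∈ S)
    (L : Set (List A)) (hL : S ⊆ L)
    (own : ∀ n, w.length ≤ n → n % 2 = b →
      comb b S V w.length (ini x n) (fun u => τ u (ini x n)) (τc (ini x n)) :: ini x n ∈ L →
      x n = comb b S V w.length (ini x n) (fun u => τ u (ini x n)) (τc (ini x n)))
    (Z : Set (List A))
    (hZ : ¬ Wn b S V w → w ∈ Z ∧ (∀ l ∈ Z, l.length % 2 = b → τc l :: l ∈ Z) ∧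
      (∀ l ∈ Z, l.length % 2 ≠ b → ∀ a, a :: l ∈ S → ¬ Wn b S V (a :: l) → a :: l ∈ Z) ∧
      Z ⊆ S) :
    (∃ n, w.length ≤ n ∧ ini x n ∈ V ∧ ∀ m, n ≤ m → m % 2 = b →
      τ (ini x n) (ini x m) :: ini x m ∈ L → x m = τ (ini x n) (ini x m)) ∨
    (¬ Wn b S V w ∧ ∀ m, w.length ≤ m → ini x m ∈ Z ∧ (m % 2 = b → x m = τc (ini x m))) := by
  classical
  by_cases h1 : ∃ n, w.length ≤ n ∧ ini x n ∈ V
  · left
    obtain ⟨hn1, hn2⟩ := Nat.find_spec h1
    set n := Nat.find h1 with hn
    refine ⟨n, hn1, hn2, fun m hm hmb hL' => ?_⟩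
    have hcomb : comb b S V w.length (ini x m) (fun u => τ u (ini x m)) (τc (ini x m)) =
        τ (ini x n) (ini x m) := by
      have hex : ∃ m', w.length ≤ m' ∧ m' ≤ (ini x m).length ∧ anc m' (ini x m) ∈ V :=
        ⟨n, hn1, by simpa using hm, by rw [anc_ini x hm]; exact hn2⟩
      unfold comb
      rw [dif_pos hex]
      have : Nat.find hex = n := by
        apply le_antisymm
        · exact Nat.find_min' hex ⟨hn1, by simpa using hm, by rw [anc_ini x hm]; exact hn2⟩
        · rw [hn]
          apply Nat.find_min' h1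
          obtain ⟨h3, h4, h5⟩ := Nat.find_spec hex
          refine ⟨h3, ?_⟩
          rw [anc_ini x (by simpa using h4)] at h5
          exact h5
      rw [this, anc_ini x hm]
    have := own m (hn1.trans hm) hmb (by rw [hcomb]; exact hL')
    rw [this, hcomb]
  · right
    have hno : ∀ n, w.length ≤ n → ini x n ∉ V := fun n hn hV => h1 ⟨n, hn, hV⟩
    have h2 : ¬ ∃ n, w.length ≤ n ∧ ini x n ∈ S ∧ Wn b S V (ini x n) := by
      intro h2
      obtain ⟨hn1, hn2, hn3⟩ := Nat.find_spec h2
      set n := Nat.find h2 with hn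
      have hcomb : ∀ m, n ≤ m →
          comb b S V w.length (ini x m) (fun u => τ u (ini x m)) (τc (ini x m)) =
          frc b S V (ini x n) (ini x m) := by
        intro m hm
        have hex1 : ¬ ∃ m', w.length ≤ m' ∧ m' ≤ (ini x m).length ∧ anc m' (ini x m) ∈ V := by
          rintro ⟨m', hm1, hm2, hm3⟩
          rw [anc_ini x (by simpa using hm2)] at hm3
          exact hno m' hm1 hm3
        have hex : ∃ m', w.length ≤ m' ∧ m' ≤ (ini x m).length ∧ anc m' (ini x m) ∈ S ∧
            Wn b S V (anc m' (ini x m)) :=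
          ⟨n, hn1, by simpa using hm, by rw [anc_ini x hm]; exact ⟨hn2, hn3⟩⟩
        unfold comb
        rw [dif_neg hex1, dif_pos hex]
        have : Nat.find hex = n := by
          apply le_antisymm
          · exact Nat.find_min' hex
              ⟨hn1, by simpa using hm, by rw [anc_ini x hm]; exact ⟨hn2, hn3⟩⟩
          · rw [hn]
            apply Nat.find_min' h2
            obtain ⟨h3, h4, h5⟩ := Nat.find_spec hex
            refine ⟨h3, ?_⟩
            rw [anc_ini x (by simpa using h4)] at h5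
            exact h5
        rw [this, anc_ini x hm]
      obtain ⟨n', hn', hV, _⟩ := frc_spec hn3 hn2 x (by simp)
        (fun m hm _ hmS hmb => opp m (by simp only [ini_length] at hm; omega) hmb hmS)
        (fun m hm _ hmS hmb hmt => by
          simp only [ini_length] at hm
          have := own m (hn1.trans hm) hmb (by rw [hcomb m hm]; exact hL hmt)
          rw [this, hcomb m hm])
      exact hno n' (by simp only [ini_length] at hn'; omega) hV
    have hnw : ¬ Wn b S V w := fun h => h2 ⟨w.length, le_rfl, by rw [hx]; exact ⟨hw, h⟩⟩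
    refine ⟨hnw, ?_⟩
    obtain ⟨hZ1, hZ2, hZ3, hZ4⟩ := hZ hnw
    have hcomb : ∀ m, comb b S V w.length (ini x m) (fun u => τ u (ini x m)) (τc (ini x m)) =
        τc (ini x m) := by
      intro m
      have hex1 : ¬ ∃ m', w.length ≤ m' ∧ m' ≤ (ini x m).length ∧ anc m' (ini x m) ∈ V := by
        rintro ⟨m', hm1, hm2, hm3⟩
        rw [anc_ini x (by simpa using hm2)] at hm3
        exact hno m' hm1 hm3
      have hex : ¬ ∃ m', w.length ≤ m' ∧ m' ≤ (ini x m).length ∧ anc m' (ini x m) ∈ S ∧
          Wn b S V (anc m' (ini x m)) := by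
        rintro ⟨m', hm1, hm2, hm3⟩
        rw [anc_ini x (by simpa using hm2)] at hm3
        exact h2 ⟨m', hm1, hm3⟩
      unfold comb
      rw [dif_neg hex1, dif_neg hex]
    have key : ∀ m, w.length ≤ m → ini x m ∈ Z → m % 2 = b → x m = τc (ini x m) := by
      intro m hm hmZ hmb
      have h3 := hZ2 (ini x m) hmZ (by simpa using hmb)
      have := own m hm hmb (by rw [hcomb m]; exact hL (hZ4 h3))
      rw [this, hcomb m]
    have key2 : ∀ m, w.length ≤ m → ini x m ∈ Z := by
      intro m hm
      induction m, hm using Nat.le_induction with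
      | base => rw [hx]; exact hZ1
      | succ m hm ih =>
        by_cases hmb : m % 2 = b
        · have h3 := hZ2 (ini x m) ih (by simpa using hmb)
          rw [ini_succ, key m hm ih hmb]; exact h3
        · have h3 := opp m hm hmb (hZ4 ih)
          apply hZ3 (ini x m) ih (by simpa using hmb) (x m) h3
          intro h4
          exact h2 ⟨m + 1, by omega, h3, h4⟩
    exact fun m hm => ⟨key2 m hm, key m hm (key2 m hm)⟩

/-- Quasi-strategies. -/
structure QS (b : ℕ) (S : Set (List A)) (w : List A) (Q : Set (List A)) : Prop where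
  sub : Q ⊆ S
  root : w ∈ Q
  above : ∀ l ∈ Q, w <:+ l
  tl : ∀ a l, a :: l ∈ Q → w.length ≤ l.length → l ∈ Q
  own : ∀ l ∈ Q, l.length % 2 = b → ∃ a, a :: l ∈ Q
  opp : ∀ l ∈ Q, l.length % 2 ≠ b → ∀ a, a :: l ∈ S → a :: l ∈ Q

theorem QS.suffix {b : ℕ} {S : Set (List A)} {w : List A} {Q : Set (List A)} (h : QS b S w Q)
    {l l' : List A} (h1 : l ∈ Q) (h2 : l' <:+ l) (h3 : w.length ≤ l'.length) : l' ∈ Q := by
  induction l with
  | nil => have : l' = [] := by simpa using h2
           rw [this]; exact h1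
  | cons a l ih =>
    rcases List.suffix_cons_iff.mp h2 with h4 | h4
    · rw [h4]; exact h1
    · exact ih (h.tl a l h1 (h3.trans h4.length_le)) h4

/-- Positions of `S` above `w` where player `b` has not won on the way. -/
def Wc (b : ℕ) (S V : Set (List A)) (w : List A) : Set (List A) :=
  {l | l ∈ S ∧ w <:+ l ∧ ∀ m, w.length ≤ m → m ≤ l.length → ¬ Wn b S V (anc m l)}

theorem Wc_self {b : ℕ} {S V : Set (List A)} {w l : List A} (h : l ∈ Wc b S V w) :
    ¬ Wn b S V l := by
  have := h.2.2 l.length h.2.1.length_le le_rfl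
  rwa [anc_of_le le_rfl] at this

theorem Wc_cons {b : ℕ} {S V : Set (List A)} {w l : List A} (h : l ∈ Wc b S V w) {a : A}
    (ha : a :: l ∈ S) (hn : ¬ Wn b S V (a :: l)) : a :: l ∈ Wc b S V w := by
  refine ⟨ha, h.2.1.trans (List.suffix_cons a l), fun m h1 h2 => ?_⟩
  by_cases h3 : m ≤ l.length
  · rw [anc_cons_of_le h3]; exact h.2.2 m h1 h3
  · rw [anc_of_le (by simp only [List.length_cons]; omega)]; exact hn

theorem Wc_QS {b : ℕ} (hb : b < 2) {S V : Set (List A)} {w : List A} (hw : w ∈ S)
    (hS : ∀ a l, a :: l ∈ S → w.length ≤ l.length → l ∈ S)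
    (hn : ¬ Wn b S V w) : QS (1 - b) S w (Wc b S V w) where
  sub := fun l hl => hl.1
  root := ⟨hw, List.suffix_rfl, fun m h1 h2 => by rw [anc_of_le h1]; exact hn⟩
  above := fun l hl => hl.2.1
  tl := by
    intro a l h h1
    refine ⟨hS a l h.1 h1, ?_, fun m h2 h3 => ?_⟩
    · rcases List.suffix_cons_iff.mp h.2.1 with h4 | h4
      · rw [h4] at h1; simp at h1
      · exact h4
    · have := h.2.2 m h2 (by simp only [List.length_cons]; omega)
      rwa [anc_cons_of_le h3] at this
  own := by
    intro l hl h1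
    by_contra h2
    push Not at h2
    apply Wc_self hl
    apply Wn.opp l (by omega)
    intro a ha
    by_contra h3
    exact h2 a (Wc_cons hl ha h3)
  opp := by
    intro l hl h1 a ha
    apply Wc_cons hl ha
    intro h3
    exact Wc_self hl (Wn.own l a (by omega) ha h3)

theorem Wc_disj {b : ℕ} {S V : Set (List A)} {w l : List A} (h : l ∈ Wc b S V w) : l ∉ V :=
  fun h1 => Wc_self h (Wn.base l h1)

/-- From a winning position a target above can be found in `S`. -/
theorem Wn.exists_mem {b : ℕ} {S V : Set (List A)} {w : List A} (h : Wn b S V w)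
    (hw : w ∈ S) (hext : ∀ l ∈ S, ∃ a, a :: l ∈ S) : ∃ l ∈ S, l ∈ V ∧ w <:+ l := by
  induction h with
  | base l hl => exact ⟨l, hw, hl, List.suffix_rfl⟩
  | own l a _ ha _ ih =>
    obtain ⟨l', h1, h2, h3⟩ := ih ha
    exact ⟨l', h1, h2, (List.suffix_cons a l).trans h3⟩
  | opp l _ _ ih =>
    obtain ⟨a, ha⟩ := hext l hw
    obtain ⟨l', h1, h2, h3⟩ := ih a ha ha
    exact ⟨l', h1, h2, (List.suffix_cons a l).trans h3⟩

end Pool.Agent.Lib.P43c499
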