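import Pool.Agent.Lib.P43c499.Dst2

/-!
The final game and the contradiction.
-/

namespace Pool.Agent.Lib.P43c499

open NoHom

theorem anc_of_suffix {A : Type} {l l' : List A} (h : l <:+ l') {n : ℕ} (hn : n ≤ l.length) :
    anc n l = anc n l' := by
  have h1 := eq_anc_of_suffix ((anc_suffix n l).trans h)
  rwa [anc_length hn] at h1

theorem exists_union {A : Type} (h : ℕ → List A) (hs : ∀ m, h m <:+ h (m + 1))
    (hl : ∀ m, (h m).length < (h (m + 1)).length) :
    ∃ y : ℕ → A, ∀ m, ini y (h m).length = h m := by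
  have hlen : ∀ m, m ≤ (h m).length := by
    intro m
    induction m with
    | zero => exact Nat.zero_le _
    | succ m ih => have := hl m; omega
  have hmono : ∀ m m', m ≤ m' → h m <:+ h m' := by
    intro m m' hm
    induction m', hm using Nat.le_induction with
    | base => exact List.suffix_rfl
    | succ m' _ ih => exact ih.trans (hs m')
  obtain ⟨y, hy⟩ := exists_ini (fun n => anc n (h n)) (by
    have : (anc 0 (h 0)).length = 0 := anc_length (Nat.zero_le _)
    exact List.length_eq_zero_iff.mp this) (by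
    intro n
    have h1 : (anc (n + 1) (h (n + 1))).length = n + 1 := anc_length (hlen _)
    cases h2 : anc (n + 1) (h (n + 1)) with
    | nil => rw [h2] at h1; simp at h1
    | cons a l =>
      refine ⟨a, ?_⟩
      have h3 : anc n (h n) = anc n (h (n + 1)) := anc_of_suffix (hs n) (hlen n)
      have h4 : anc n (h (n + 1)) = l := by
        rw [← anc_anc (Nat.le_succ n), Nat.succ_eq_add_one, h2]
        rw [h2] at h1
        simp only [List.length_cons] at h1
        rw [anc_cons_of_le (by omega), anc_of_le (by omega)]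
      rw [h3, h4])
  refine ⟨y, fun m => ?_⟩
  rw [hy]
  exact (eq_anc_of_suffix (hmono m _ (hlen m))).symm

variable {σ : ℕ → Pos → List Pos → Pos}

theorem record_play {r : ℝ} {x : ℕ → DS} (hv : ∀ n, (x n).Va σ) (hx : ∀ n, Ls r (x n) (x (n + 1)))
    {n0 : ℕ} {a : Rec} (ha : a ∈ (x n0).rs) :
    ∃ z : ℕ → Pos, (JT a.p).Br z ∧ Con 0 (σ a.k a.p) z ∧
      (∀ n, ∃ m, Pos.Le (Pos.tr a.f (z n)) (x m).q) ∧
      (∀ n, ∃ m, Pos.Le (x n).q (Pos.tr a.f (z m))) := by
  have hstep : ∀ m, ∀ a : {a // a ∈ (x (n0 + m)).rs}, ∃ a' : {a // a ∈ (x (n0 + (m + 1))).rs},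
      Ex a.1 a'.1 ∧ a.1.h.length < a'.1.h.length ∧ Pos.Le (x (n0 + m)).q a'.1.cur := by
    rintro m ⟨a, ha⟩
    obtain ⟨a', h1, h2⟩ := (hx (n0 + m)).rs a ha
    exact ⟨⟨a', h1⟩, h2⟩
  choose nx hnx using hstep
  obtain ⟨b, hb, hb0⟩ : ∃ b : ∀ m, {a // a ∈ (x (n0 + m)).rs},
      (∀ m, Ex (b m).1 (b (m + 1)).1 ∧ (b m).1.h.length < (b (m + 1)).1.h.length ∧
      Pos.Le (x (n0 + m)).q (b (m + 1)).1.cur) ∧ (b 0).1 = a :=
    ⟨fun m => Nat.rec ⟨a, ha⟩ (fun m a => nx m a) m, fun m => hnx m _, rfl⟩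
  have hEx : ∀ m, Ex a (b m).1 := by
    intro m
    induction m with
    | zero => rw [hb0]; exact Ex.refl a
    | succ m ih => exact ih.trans (hb m).1
  obtain ⟨z, hz⟩ := exists_union (fun m => (b m).1.h) (fun m => (hb m).1.h) (fun m => (hb m).2.1)
  have hlen : ∀ m, m < (b m).1.h.length := by
    intro m
    induction m with
    | zero =>
      have := ((hv _).ok _ (b 0).2).odd
      omega
    | succ m ih => have := (hb m).2.1; omega
  have hok : ∀ m, (b m).1.Ok σ (x (n0 + m)).q := fun m => (hv _).ok _ (b m).2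
  have hcur : ∀ m, (b m).1.cur = Pos.tr a.f (z ((b m).1.h.length - 1)) := by
    intro m
    unfold Rec.cur
    rw [(hEx m).f]
    congr 1
    have h1 := hz m
    obtain ⟨L, hL⟩ : ∃ L, (b m).1.h.length = L + 1 :=
      ⟨(b m).1.h.length - 1, by have := hlen m; omega⟩
    rw [hL] at h1 ⊢
    rw [← h1]
    rfl
  have hBr : (JT a.p).Br z := by
    intro n
    have h1 : ini z n <:+ (b n).1.h := by
      rw [← hz n]; exact ini_suffix z (hlen n).le
    have h2 := (hok n).leg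
    rw [(hEx n).p] at h2
    exact (JT a.p).suffix h1 h2
  have hInc := JT_inc hBr
  refine ⟨z, hBr, ?_, ?_, ?_⟩
  · intro n hn
    have h1 : ini z (n + 1) <:+ (b (n + 1)).1.h := by
      rw [← hz (n + 1)]; exact ini_suffix z (hlen (n + 1)).le
    have h2 := (hok (n + 1)).con (ini z n) (z n) h1 (by simpa using hn)
    rw [(hEx (n + 1)).k, (hEx (n + 1)).p] at h2
    exact h2
  · intro n
    refine ⟨n0 + (n + 1), ?_⟩
    have h1 := (hok (n + 1)).le
    rw [hcur] at h1
    exact ((hInc.le (show n ≤ (b (n + 1)).1.h.length - 1 by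
      have := hlen (n + 1); omega)).tr a.f).trans h1
  · intro n
    refine ⟨(b (n + 1)).1.h.length - 1, ?_⟩
    have h1 := (hb n).2.2
    rw [hcur] at h1
    have h2 : Inc (fun n => (x n).q) := fun n => (hx n).le
    exact (h2.le (show n ≤ n0 + n by omega)).trans h1

theorem chain_full {r : ℝ} {x : ℕ → DS} (hv : ∀ n, (x n).Va σ)
    (hx : ∀ n, Ls r (x n) (x (n + 1))) : Full (fun n => (x n).q) := by
  obtain ⟨a, ha, -⟩ := (hx 0).kk 0 (Nat.zero_le _)
  obtain ⟨z, hz1, hz2, hz3, hz4⟩ := record_play hv hx ha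
  have hF := JT_full ((hv _).ok a ha).gd.1 hz1
  refine ⟨fun n => (hx n).le, fun g => ?_, fun m => ?_⟩
  · obtain ⟨n, hn⟩ := hF.all (a.f⁻¹ * g)
    obtain ⟨m, hm⟩ := hz3 n
    exact ⟨m, hm.C hn⟩
  · obtain ⟨n, hn⟩ := hF.unb m
    obtain ⟨m', hm'⟩ := hz3 n
    exact ⟨m', lt_of_lt_of_le hn hm'.L⟩

variable {f : (Gam → ℕ → ℕ) → ℝ} {c : ℝ → (Gam → ℕ → ℕ) → Fin 3}

/-- A winning family of strategies. -/
structure Win (f : (Gam → ℕ → ℕ) → ℝ) (c : ℝ → (Gam → ℕ → ℕ) → Fin 3) (b : ℕ → Bool)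
    (σ : ℕ → Pos → List Pos → Pos) : Prop where
  st : ∀ k p, Gd p → (JT p).St (σ k p)
  win : ∀ k p, Gd p → ∀ x, (JT p).Br x → Con 0 (σ k p) x → WW f c k (b k) (limu x) (limR x)

theorem chain_win {b : ℕ → Bool} (hw : Win f c b σ) {r : ℝ} {x : ℕ → DS}
    (hv : ∀ n, (x n).Va σ) (hx : ∀ n, Ls r (x n) (x (n + 1))) {n0 : ℕ} {a : Rec}
    (ha : a ∈ (x n0).rs) :
    WW f c a.k (b a.k) (shift a.f⁻¹ (limu (fun n => (x n).q))) (limR (fun n => (x n).q)) := by
  obtain ⟨z, hz1, hz2, hz3, hz4⟩ := record_play hv hx ha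
  have hGd := ((hv _).ok a ha).gd
  have hF := JT_full hGd.1 hz1
  have h1 := hw.win a.k a.p hGd z hz1 hz2
  rw [limu_tr (chain_full hv hx) hF a.f hz3, limR_tr a.f hz3 hz4] at h1
  exact h1

/-- The colours along `KK` in the limit. -/
theorem chain_col (H : Hyp f c) {b : ℕ → Bool} (hw : Win f c b σ) {r : ℝ}
    (hr : ∀ r', (∀ k, bit k r' = b k) → r' = r) {x : ℕ → DS}
    (hv : ∀ n, (x n).Va σ) (hx : ∀ n, Ls r (x n) (x (n + 1))) {g : Gam} (hg : g ∈ KK) :
    ∃ j, j ≠ 2 ∧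
      col f c (shift g⁻¹ (limu (fun n => (x n).q))) (limR (fun n => (x n).q)) = some j := by
  have hF := chain_full hv hx
  set u := limu (fun n => (x n).q) with hu
  set R := limR (fun n => (x n).q) with hR
  have hinv : ∀ g, f (shift g u) = f u := fun g => H.inv_all hF.EZ g
  have hfR : f u ∈ R := by
    by_contra hcon
    have h1 : ∀ k, bit k (f u) = b k := by
      intro k
      obtain ⟨n, hn⟩ := hF.unb k
      obtain ⟨a, ha, hak⟩ := (hx n).kk k hn.le
      have h2 := chain_win hw hv hx ha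
      rw [hak] at h2
      rcases h2 with ⟨j, -, h3⟩ | ⟨-, h3⟩
      · exfalso
        unfold col at h3
        rw [hinv, if_neg hcon] at h3
        simp at h3
      · rw [hinv] at h3; exact h3
    apply hcon
    rw [hr _ h1]
    exact Set.mem_iUnion.mpr ⟨1, (hx 0).re⟩
  obtain ⟨n, hn⟩ := hF.all g
  obtain ⟨a, ha, hag⟩ := (hv n).all g hg hn
  have h2 := chain_win hw hv hx ha
  rw [hag] at h2
  rcases h2 with h3 | ⟨h3, -⟩
  · exact h3
  · exfalso
    unfold col at h3
    rw [hinv, if_pos hfR] at h3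
    simp at h3

theorem chain_flip (H : Hyp f c) {b : ℕ → Bool} (hw : Win f c b σ) {r : ℝ}
    (hr : ∀ r', (∀ k, bit k r' = b k) → r' = r) {x : ℕ → DS}
    (hv : ∀ n, (x n).Va σ) (hx : ∀ n, Ls r (x n) (x (n + 1))) (n : ℕ) :
    col f c (shift (tt n)⁻¹ (limu (fun n => (x n).q))) (limR (fun n => (x n).q)) = some 0 ↔
    ¬ col f c (limu (fun n => (x n).q)) (limR (fun n => (x n).q)) = some 0 := by
  have hF := chain_full hv hx
  set u := limu (fun n => (x n).q) with hu
  set R := limR (fun n => (x n).q) with hR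
  have hinv : ∀ g, f (shift g u) = f u := fun g => H.inv_all hF.EZ g
  have key := flip_tt (φ := fun g => col f c (shift g⁻¹ u) R = some 0) (by
    intro g hg i hi
    obtain ⟨j1, h1, h2⟩ := chain_col H hw hr hv hx hg
    obtain ⟨j2, h3, h4⟩ := chain_col H hw hr hv hx (KK.mul_mem hg (gen_mem_KK hi))
    rw [← hu, ← hR] at h2 h4
    have h5 : j1 ≠ j2 := by
      unfold col at h2 h4
      rw [hinv] at h2 h4
      split_ifs at h2 h4 with h6
      simp only [Option.some.injEq] at h2 h4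
      have h7 := H.pro (shift g⁻¹ u) (EZ_shift hF.EZ _) i
      rw [hinv, ← shift_mul] at h7
      rw [← h2, ← h4, mul_inv_rev, gen_inv]
      exact h7
    rw [h2, h4]
    simp only [Option.some.injEq]
    clear h2 h4
    revert h1 h3 h5
    revert j1 j2
    decide) n
  rw [inv_one, shift_one] at key
  exact key

instance : Inhabited Pos := ⟨DS.emp.q⟩

/-- Valid states. -/
def VS (σ : ℕ → Pos → List Pos → Pos) : Type := {S : DS // S.Va σ}

/-- The relation of the last game. -/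
def rB (σ : ℕ → Pos → List Pos → Pos) (r : ℝ) (_ : ℕ) (S S' : VS σ) : Prop := Ls r S.1 S'.1

theorem rB_ex (hσ : ∀ k p, Gd p → (JT p).St (σ k p)) (r : ℝ) :
    ∀ b S, ∃ S', rB σ r b S S' := by
  rintro b ⟨S, hS⟩
  obtain ⟨S', h1, h2⟩ := exists_succ hσ r hS
  exact ⟨⟨S', h1⟩, h2⟩

/-- Adding a first element to a sequence. -/
def consSeq {A : Type} (a : A) (x : ℕ → A) : ℕ → A
  | 0 => a
  | n + 1 => x n

theorem ini_consSeq {A : Type} (a : A) (x : ℕ → A) (n : ℕ) :
    ini (consSeq a x) (n + 1) = ini x n ++ [a] := by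
  induction n with
  | zero => rfl
  | succ n ih => rw [ini_succ, ih]; rfl

theorem chn_append {A : Type} {r : ℕ → A → A → Prop} (hr : ∀ b b' a a', r b a a' → r b' a a')
    {a0 a : A} {l : List A} (h0 : r 0 a0 a) (h : chn r a l) : chn r a0 (l ++ [a]) := by
  induction l with
  | nil => exact ⟨h0, trivial⟩
  | cons y l ih =>
    refine ⟨?_, ih h.2⟩
    have h1 : lastp a0 (l ++ [a]) = lastp a l := by
      cases l with
      | nil => rfl
      | cons z l => rfl
    change r ((l ++ [a]).length % 2) (lastp a0 (l ++ [a])) y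
    rw [h1]
    exact hr _ _ _ _ h.1

/-- The second player can decide the colour from a suitable state. -/
theorem exists_decide (H : Hyp f c) {b : ℕ → Bool} (hw : Win f c b σ) (r : ℝ) :
    ∃ (S : VS σ) (τ : List (VS σ) → VS σ) (P : Prop),
      (CT (rB σ r) (rB_ex hw.st r) S).St τ ∧
      ∀ x, (CT (rB σ r) (rB_ex hw.st r) S).Br x → Con 1 τ x →
        (col f c (limu (fun n => (x n).1.q)) (limR (fun n => (x n).1.q)) = some 0 ↔ P) := by
  have hQ : QB {x : ℕ → VS σ | (fun n => (x n).1.q) ∈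
      {x : ℕ → Pos | col f c (limu x) (limR x) = some 0}} :=
    QB.comap (fun S : VS σ => S.1.q) (col_meas H.hf H.hc 0)
  set S0 : VS σ := ⟨DS.emp, DS.emp_va⟩ with hS0
  rcases hQ.det (CT (rB σ r) (rB_ex hw.st r) S0) with ⟨s, hs, h1⟩ | ⟨s, hs, h1⟩
  · have hleg : [s []] ∈ (CT (rB σ r) (rB_ex hw.st r) S0).S := hs [] (GT.nil _)
    have hr0 : rB σ r 0 S0 (s []) := hleg.1
    have hsuf : ∀ l ∈ (CT (rB σ r) (rB_ex hw.st r) (s [])).S,
        l ++ [s []] ∈ (CT (rB σ r) (rB_ex hw.st r) S0).S := by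
      intro l hl
      exact chn_append (fun _ _ _ _ h => h) hr0 hl
    refine ⟨s [], fun l => s (l ++ [s []]), True, ?_, ?_⟩
    · intro l hl
      refine ⟨?_, hl⟩
      have h2 := hs _ (hsuf l hl)
      have h3 := h2.1
      have h4 : lastp S0 (l ++ [s []]) = lastp (s []) l := by
        cases l with
        | nil => rfl
        | cons z l => rfl
      rw [h4] at h3
      exact h3
    · intro x hx hc
      have h2 := h1 (consSeq (s []) x) (by
        intro n
        cases n with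
        | zero => trivial
        | succ n =>
          rw [ini_consSeq]
          exact hsuf _ (hx n)) (by
        intro n hn
        cases n with
        | zero => rfl
        | succ n =>
          rw [ini_consSeq]
          exact hc n (by omega))
      rw [Set.mem_ofPred_eq, Set.mem_ofPred_eq] at h2
      have hv : ∀ n, (x n).1.Va σ := fun n => (x n).2
      have hxs : ∀ n, Ls r (x n).1 (x (n + 1)).1 := fun n => CT_br_succ hx n
      have hv' : ∀ n, (consSeq (s []) x n).1.Va σ := fun n => (consSeq (s []) x n).2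
      have hxs' : ∀ n, Ls r (consSeq (s []) x n).1 (consSeq (s []) x (n + 1)).1 := by
        intro n
        cases n with
        | zero => exact CT_br_zero hx
        | succ n => exact hxs n
      have hF := chain_full hv hxs
      have hF' := chain_full (x := fun n => (consSeq (s []) x n).1) hv' hxs'
      have h3 : ∀ n, ∃ m, Pos.Le (Pos.tr 1 (x n).1.q) (consSeq (s []) x m).1.q := by
        intro n
        refine ⟨n + 1, ?_⟩
        rw [Pos.tr_one]
        exact Pos.Le.refl _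
      have h4 : ∀ n, ∃ m, Pos.Le (consSeq (s []) x n).1.q (Pos.tr 1 (x m).1.q) := by
        intro n
        refine ⟨n, ?_⟩
        rw [Pos.tr_one]
        exact (hxs' n).le
      have h5 := limu_tr hF' hF 1 h3
      have h6 := limR_tr (x := fun n => (consSeq (s []) x n).1.q)
        (y := fun n => (x n).1.q) 1 h3 h4
      rw [inv_one, shift_one] at h5
      rw [h5, h6]
      simp only [iff_true]
      exact h2
  · refine ⟨S0, s, False, hs, fun x hx hc => ?_⟩
    simp only [iff_false]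
    exact h1 x hx hc

/-- Translation of valid states. -/
def VS.tr (g : Gam) (hg : g ∈ KK) (S : VS σ) : VS σ := ⟨S.1.tr g, S.2.tr hg⟩

theorem core_false (H : Hyp f c) : False := by
  choose b hb using two_root H
  choose! σ hσ1 hσ2 using hb
  have hw : Win f c b σ := ⟨hσ1, hσ2⟩
  obtain ⟨r, hr⟩ : ∃ r : ℝ, ∀ r', (∀ k, bit k r' = b k) → r' = r := by
    by_cases h : ∃ r : ℝ, ∀ k, bit k r = b k
    · obtain ⟨r, h1⟩ := h
      exact ⟨r, fun r' h2 => bit_ext (fun k => by rw [h1, h2])⟩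
    · exact ⟨0, fun r' h1 => absurd ⟨r', h1⟩ h⟩
  obtain ⟨S, τ, P, hτ, hP⟩ := exists_decide H hw r
  -- a disjoint translate
  have hE : ({g | ∃ a ∈ S.1.q.C, ∃ b ∈ S.1.q.C, g = a * b⁻¹} : Set Gam).Finite := by
    have h1 : ({g | ∃ a ∈ S.1.q.C, ∃ b ∈ S.1.q.C, g = a * b⁻¹} : Set Gam) =
        Set.image2 (fun a b => a * b⁻¹) S.1.q.C S.1.q.C := by
      ext g
      simp only [Set.mem_ofPred_eq, Set.mem_image2, eq_comm]
    rw [h1]
    exact Set.Finite.image2 _ S.1.q.fin S.1.q.fin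
  obtain ⟨n, hn⟩ := exists_tt_notMem hE
  set g := tt n with hg
  have hgK : g ∈ KK := tt_mem n
  have hd : ∀ x ∈ S.1.q.C, x ∉ (S.1.tr g).q.C := by
    intro x hx hx'
    apply hn
    refine ⟨x, hx, g⁻¹ * x, hx', ?_⟩
    rw [mul_inv_rev, inv_inv, mul_inv_cancel_left]
  obtain ⟨M0, hM0, hM1, hM2⟩ := exists_merge S.2 (S.2.tr hgK) hd
  obtain ⟨M, hM3, hM4⟩ := exists_succ hw.st r hM0
  have htt : ∀ a : VS σ, VS.tr g hgK (VS.tr g⁻¹ (KK.inv_mem hgK) a) = a := by
    intro a
    apply Subtype.ext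
    change DS.tr g (DS.tr g⁻¹ a.1) = a.1
    rw [DS.tr_tr, mul_inv_cancel, DS.tr_one]
  have htt' : ∀ a : VS σ, VS.tr g⁻¹ (KK.inv_mem hgK) (VS.tr g hgK a) = a := by
    intro a
    apply Subtype.ext
    change DS.tr g⁻¹ (DS.tr g a.1) = a.1
    rw [DS.tr_tr, inv_mul_cancel, DS.tr_one]
  obtain ⟨Z, hZ1, hZ2, hZ3, hZ4⟩ := interleave (r := rB σ r) (hr := rB_ex hw.st r)
    (a0 := S) (a0' := S) (M := ⟨M, hM3⟩) (VS.tr g hgK) (VS.tr g⁻¹ (KK.inv_mem hgK)) htt htt'
    (fun a a' h => Ls.tr h g⁻¹) (fun a a' h => Ls.tr h g)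
    (hM1.trans_ls hM4) (by
      intro y hy
      have h1 : Ls r (S.1.tr g) y.1 := hM2.trans (hM4.lw) |>.trans_ls hy
      have h2 := h1.tr g⁻¹
      rw [DS.tr_tr, inv_mul_cancel, DS.tr_one] at h2
      exact h2) hτ hτ
  have hv : ∀ n, (Z n).1.Va σ := fun n => (Z n).2
  have hxs : ∀ n, Ls r (Z n).1 (Z (n + 1)).1 := fun n => CT_br_succ hZ1 n
  have hF := chain_full hv hxs
  have hv' : ∀ n, (VS.tr g⁻¹ (KK.inv_mem hgK) (Z (n + 1))).1.Va σ := fun n => Subtype.property _
  have hxs' : ∀ n, Ls r (VS.tr g⁻¹ (KK.inv_mem hgK) (Z (n + 1))).1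
      (VS.tr g⁻¹ (KK.inv_mem hgK) (Z (n + 1 + 1))).1 := fun n => CT_br_succ hZ3 n
  have hF' := chain_full hv' hxs'
  have h3 : ∀ n, ∃ m, Pos.Le (Pos.tr g (VS.tr g⁻¹ (KK.inv_mem hgK) (Z (n + 1))).1.q) (Z m).1.q := by
    intro n
    refine ⟨n + 1, ?_⟩
    change Pos.Le (Pos.tr g (Pos.tr g⁻¹ (Z (n + 1)).1.q)) _
    rw [Pos.tr_tr_inv]
    exact Pos.Le.refl _
  have h4 : ∀ n, ∃ m, Pos.Le (Z n).1.q (Pos.tr g (VS.tr g⁻¹ (KK.inv_mem hgK) (Z (m + 1))).1.q) := by
    intro n
    refine ⟨n, ?_⟩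
    change Pos.Le _ (Pos.tr g (Pos.tr g⁻¹ (Z (n + 1)).1.q))
    rw [Pos.tr_tr_inv]
    exact (hxs n).le
  have h5 := limu_tr hF hF' g h3
  have h6 := limR_tr (x := fun n => (Z n).1.q)
    (y := fun n => (VS.tr g⁻¹ (KK.inv_mem hgK) (Z (n + 1))).1.q) g h3 h4
  have h7 := hP Z hZ1 hZ2
  have h8 := hP _ hZ3 hZ4
  rw [h5, h6] at h8
  have h9 := chain_flip H hw hr hv hxs n
  rw [← hg] at h9
  rw [h8, h7] at h9
  tauto

end Pool.Agent.Lib.P43c499
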