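import Pool.Agent.Lib.P43c499.Basic

/-!
Gluing coverings of the subtrees above the positions of length `K`.
-/

namespace Pool.Agent.Lib.P43c499

universe u

variable {B : Type u}

/-- The subtree of positions comparable with `p`. -/
def RT (T : GT B) (p : List B) (hp : p ∈ T.S) : GT B where
  S := {l | l ∈ T.S ∧ (l <:+ p ∨ p <:+ l)}
  nil := ⟨T.nil, Or.inl List.nil_suffix⟩
  tl := by
    rintro a l ⟨h1, h2⟩
    refine ⟨T.tl a l h1, ?_⟩
    rcases h2 with h2 | h2
    · left; exact (List.suffix_cons a l).trans h2
    · rcases List.suffix_cons_iff.mp h2 with h3 | h3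
      · left; rw [h3]; exact List.suffix_cons a l
      · right; exact h3
  ext := by
    rintro l ⟨h1, h2⟩
    by_cases h3 : p <:+ l
    · obtain ⟨a, ha⟩ := T.ext l h1
      exact ⟨a, ha, Or.inr (h3.trans (List.suffix_cons a l))⟩
    · have h4 := h2.resolve_right h3
      have h5 : l.length < p.length := by
        rcases Nat.lt_or_ge l.length p.length with h6 | h6
        · exact h6
        · exfalso; apply h3; rw [h4.eq_of_length_le h6]
      have h6 : (anc (l.length + 1) p).length = l.length + 1 := anc_length (by omega)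
      cases h7 : anc (l.length + 1) p with
      | nil => rw [h7] at h6; simp at h6
      | cons a l' =>
        have h8 : l' = l := by
          have h9 := eq_anc_of_suffix h4
          rw [h7] at h6
          simp only [List.length_cons] at h6
          rw [← anc_anc (Nat.le_succ l.length) p, Nat.succ_eq_add_one, h7,
            anc_cons_of_le (by omega), anc_of_le (by omega)] at h9
          exact h9.symm
        subst h8
        refine ⟨a, ?_, Or.inl ?_⟩
        · rw [← h7]; exact T.anc _ hp
        · rw [← h7]; exact anc_suffix _ _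

/-- Index type. -/
@[ext] structure Idx (T : GT B) (K : ℕ) : Type u where
  val : List B
  mem : val ∈ T.S
  len : val.length = K

variable {T : GT B} {K : ℕ} {C : Idx T K → Type u} {T' : ∀ p, GT (C p)}
  (c : ∀ p : Idx T K, Cov (RT T p.val p.mem) (T' p) K)

/-- Moves of the glued tree. -/
def GM (_ : ∀ p : Idx T K, Cov (RT T p.val p.mem) (T' p) K) : Type u :=
  B ⊕ (Σ p : Idx T K, C p)

/-- Projection of moves. -/
def gf (m : GM c) : B := match m with
  | Sum.inl b => b
  | Sum.inr q => (c q.1).f q.2

/-- Plain moves. -/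
def gl (b : B) : GM c := Sum.inl b

/-- New moves. -/
def gr (p : Idx T K) (a : C p) : GM c := Sum.inr ⟨p, a⟩

@[simp] theorem gf_gl (b : B) : gf c (gl c b) = b := rfl

@[simp] theorem gf_gr (p : Idx T K) (a : C p) : gf c (gr c p a) = (c p).f a := rfl

theorem gf_gl_map (l : List B) : (l.map (gl c)).map (gf c) = l := by
  rw [List.map_map]
  have : (gf c ∘ gl c) = id := rfl
  rw [this, List.map_id]

theorem gr_inj {p : Idx T K} {a a' : C p} (h : gr c p a = gr c p a') : a = a' := by
  have h1 := Sum.inr.inj h
  exact eq_of_heq (Sigma.mk.inj_iff.mp h1).2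

theorem gl_inj {b b' : B} (h : gl c b = gl c b') : b = b' := by
  have := congrArg (gf c) h
  simpa using this

/-- Embedding of the positions of `T' p`. -/
def emb (p : Idx T K) : List (C p) → List (GM c)
  | [] => []
  | a :: z => (if z.length < K then gl c ((c p).f a) else gr c p a) :: emb p z

@[simp] theorem emb_nil (p : Idx T K) : emb c p [] = [] := rfl

theorem emb_cons (p : Idx T K) (a : C p) (z : List (C p)) :
    emb c p (a :: z) = (if z.length < K then gl c ((c p).f a) else gr c p a) :: emb c p z := rfl

@[simp] theorem emb_length (p : Idx T K) (z : List (C p)) : (emb c p z).length = z.length := by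
  induction z with
  | nil => rfl
  | cons a z ih => simp [emb_cons, ih]

@[simp] theorem emb_map (p : Idx T K) (z : List (C p)) :
    (emb c p z).map (gf c) = z.map (c p).f := by
  induction z with
  | nil => rfl
  | cons a z ih =>
    rw [emb_cons, List.map_cons, ih, List.map_cons]
    split_ifs <;> rfl

theorem emb_anc (p : Idx T K) (m : ℕ) (z : List (C p)) :
    emb c p (anc m z) = anc m (emb c p z) := by
  induction z with
  | nil => rfl
  | cons a z ih =>
    by_cases h : m ≤ z.length
    · rw [anc_cons_of_le h, emb_cons, anc_cons_of_le (by simpa using h), ih]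
    · rw [anc_of_le (by simp only [List.length_cons]; omega),
        anc_of_le (by simp only [emb_length, List.length_cons]; omega)]

theorem emb_short (p : Idx T K) {z : List (C p)} (h : z.length ≤ K) :
    emb c p z = (z.map (c p).f).map (gl c) := by
  induction z with
  | nil => rfl
  | cons a z ih =>
    simp only [List.length_cons] at h
    rw [emb_cons, if_pos (by omega), ih (by omega)]
    rfl

theorem emb_inj (p : Idx T K) {z z' : List (C p)} (hz : z ∈ (T' p).S) (hz' : z' ∈ (T' p).S)
    (h : emb c p z = emb c p z') : z = z' := by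
  induction z generalizing z' with
  | nil =>
    have := congrArg List.length h
    simp only [emb_length, List.length_nil] at this
    exact (List.length_eq_zero_iff.mp this.symm).symm
  | cons a z ih =>
    cases z' with
    | nil => simp [emb_cons] at h
    | cons a' z' =>
      have h0 := h
      rw [emb_cons, emb_cons, List.cons.injEq] at h
      have h1 := ih ((T' p).tl _ _ hz) ((T' p).tl _ _ hz') h.2
      subst h1
      by_cases h2 : z.length < K
      · apply (c p).uniq _ hz _ hz' (by simp only [List.length_cons]; omega)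
        rw [← emb_map, ← emb_map, h0]
      · rw [if_neg h2, if_neg h2] at h
        rw [gr_inj c h.1]

theorem anc_of_mem (p : Idx T K) {z : List (C p)} (hz : z ∈ (T' p).S) (h : K ≤ z.length) :
    anc K (z.map (c p).f) = p.val := by
  have hpl := p.len
  have h1 : p.val <:+ z.map (c p).f := by
    rcases ((c p).mem z hz).2 with h2 | h2
    · have h3 : z.map (c p).f = p.val := h2.eq_of_length_le (by
        rw [List.length_map]; omega)
      rw [h3]
    · exact h2
  have key : ∀ n, p.val.length = n → p.val = anc n (z.map (c p).f) := by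
    intro n hn; subst hn; exact eq_anc_of_suffix h1
  exact (key K hpl).symm

/-- The glued tree. -/
def GlT : GT (GM c) where
  S := {w | (∃ l ∈ T.S, l.length ≤ K ∧ w = l.map (gl c)) ∨
    (∃ p, ∃ z ∈ (T' p).S, K ≤ z.length ∧ w = emb c p z)}
  nil := Or.inl ⟨[], T.nil, Nat.zero_le _, rfl⟩
  tl := by
    rintro a w (⟨l, h1, h2, h3⟩ | ⟨p, z, h1, h2, h3⟩)
    · left
      cases l with
      | nil => simp at h3
      | cons b l =>
        simp only [List.map_cons, List.cons.injEq] at h3
        simp only [List.length_cons] at h2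
        exact ⟨l, T.tl _ _ h1, by omega, h3.2⟩
    · cases z with
      | nil => simp at h3
      | cons b z =>
        simp only [emb_cons, List.cons.injEq] at h3
        simp only [List.length_cons] at h2
        by_cases h4 : K ≤ z.length
        · right; exact ⟨p, z, (T' p).tl _ _ h1, h4, h3.2⟩
        · left
          refine ⟨z.map (c p).f, ((c p).mem z ((T' p).tl _ _ h1)).1, ?_, ?_⟩
          · simp only [List.length_map]; omega
          · rw [h3.2, emb_short c p (by omega)]
  ext := by
    have key : ∀ p : Idx T K, ∀ z ∈ (T' p).S, K ≤ z.length → ∃ a,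
        (∃ l ∈ T.S, l.length ≤ K ∧ a :: emb c p z = l.map (gl c)) ∨
        (∃ q, ∃ z' ∈ (T' q).S, K ≤ z'.length ∧ a :: emb c p z = emb c q z') := by
      intro p z hz hK
      obtain ⟨a, ha⟩ := (T' p).ext z hz
      exact ⟨_, Or.inr ⟨p, a :: z, ha, by simp only [List.length_cons]; omega,
        (emb_cons c p a z).symm⟩⟩
    rintro w (⟨l, h1, h2, rfl⟩ | ⟨p, z, h1, h2, rfl⟩)
    · by_cases h3 : l.length = K
      · obtain ⟨z, hz1, hz2⟩ := (c ⟨l, h1, h3⟩).surj l ⟨h1, Or.inl List.suffix_rfl⟩ h2
        have hz3 : z.length = K := by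
          have := congrArg List.length hz2
          rw [List.length_map, h3] at this
          exact this
        have h4 := key ⟨l, h1, h3⟩ z hz1 hz3.ge
        rw [emb_short c _ hz3.le, hz2] at h4
        exact h4
      · obtain ⟨a, ha⟩ := T.ext l h1
        exact ⟨gl c a, Or.inl ⟨a :: l, ha, by simp only [List.length_cons]; omega, rfl⟩⟩
    · exact key p z h1 h2

theorem GlT_map {w : List (GM c)} (h : w ∈ (GlT c).S) : w.map (gf c) ∈ T.S := by
  rcases h with ⟨l, h1, h2, rfl⟩ | ⟨p, z, h1, h2, rfl⟩
  · rw [gf_gl_map]; exact h1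
  · rw [emb_map]; exact ((c p).mem z h1).1

theorem GlT_short {w : List (GM c)} (h : w ∈ (GlT c).S) (hK : w.length ≤ K) :
    w = (w.map (gf c)).map (gl c) := by
  rcases h with ⟨l, h1, h2, rfl⟩ | ⟨p, z, h1, h2, rfl⟩
  · rw [gf_gl_map]
  · rw [emb_map]; exact emb_short c p (by simpa using hK)

theorem GlT_long {w : List (GM c)} (h : w ∈ (GlT c).S) (hK : K ≤ w.length) :
    ∃ p : Idx T K, p.val = anc K (w.map (gf c)) ∧ ∃ z ∈ (T' p).S, w = emb c p z := by
  rcases h with ⟨l, h1, h2, rfl⟩ | ⟨p, z, h1, h2, rfl⟩
  · have h3 : l.length = K := le_antisymm h2 (by simpa using hK)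
    obtain ⟨z, hz1, hz2⟩ := (c ⟨l, h1, h3⟩).surj l ⟨h1, Or.inl List.suffix_rfl⟩ h2
    have hz3 : z.length = K := by
      have := congrArg List.length hz2
      rw [List.length_map, h3] at this
      exact this
    refine ⟨⟨l, h1, h3⟩, ?_, z, hz1, ?_⟩
    · rw [gf_gl_map, anc_of_le h3.le]
    · rw [emb_short c _ hz3.le, hz2]
  · refine ⟨p, ?_, z, h1, rfl⟩
    rw [emb_map, anc_of_mem c p h1 h2]

theorem GlT_emb (p : Idx T K) {z : List (C p)} (hz : z ∈ (T' p).S) (h : K ≤ z.length) :
    emb c p z ∈ (GlT c).S := Or.inr ⟨p, z, hz, h, rfl⟩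

theorem GlT_inl {l : List B} (hl : l ∈ T.S) (h : l.length ≤ K) :
    l.map (gl c) ∈ (GlT c).S := Or.inl ⟨l, hl, h, rfl⟩

/-- Legal answers at long positions. -/
theorem GlT_ans {s : List (GM c) → GM c} (hs : (GlT c).St s) (p : Idx T K) {z : List (C p)}
    (hz : z ∈ (T' p).S) (h : K ≤ z.length) :
    ∃ a, s (emb c p z) = gr c p a ∧ a :: z ∈ (T' p).S := by
  have h1 := hs _ (GlT_emb c p hz h)
  obtain ⟨q, h2, z', h3, h4⟩ := GlT_long c h1 (by simp only [List.length_cons, emb_length]; omega)
  rw [List.map_cons, anc_cons_of_le (by simpa using h), emb_map, anc_of_mem c p hz h] at h2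
  have h5 : q = p := Idx.ext h2
  subst h5
  cases z' with
  | nil => simp at h4
  | cons a z' =>
    rw [emb_cons, List.cons.injEq] at h4
    have h6 := emb_inj c q hz ((T' q).tl _ _ h3) h4.2
    subst h6
    rw [if_neg (by omega)] at h4
    exact ⟨a, h4.1, h3⟩

open Classical in
/-- Strategy in `T' p`. -/
noncomputable def sps (s : List (GM c) → GM c) (p : Idx T K) (z : List (C p)) : C p :=
  if h : ∃ a, s (emb c p z) = gr c p a ∧ K ≤ z.length then h.choose else (T' p).child z

theorem sps_eq {s : List (GM c) → GM c} (p : Idx T K) {z : List (C p)} {a : C p}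
    (h : s (emb c p z) = gr c p a) (hK : K ≤ z.length) : sps c s p z = a := by
  have h' : ∃ a, s (emb c p z) = gr c p a ∧ K ≤ z.length := ⟨a, h, hK⟩
  unfold sps
  rw [dif_pos h']
  exact gr_inj c (h'.choose_spec.1.symm.trans h)

theorem sps_congr {s s' : List (GM c) → GM c} (p : Idx T K) (z : List (C p))
    (h : K ≤ z.length → s (emb c p z) = s' (emb c p z)) : sps c s p z = sps c s' p z := by
  by_cases hK : K ≤ z.length
  · unfold sps
    rw [h hK]
  · unfold sps
    rw [dif_neg (fun h => hK h.choose_spec.2), dif_neg (fun h => hK h.choose_spec.2)]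

theorem sps_St {s : List (GM c) → GM c} (hs : (GlT c).St s) (p : Idx T K) :
    (T' p).St (sps c s p) := by
  intro z hz
  by_cases hK : K ≤ z.length
  · obtain ⟨a, h1, h2⟩ := GlT_ans c hs p hz hK
    rw [sps_eq c p h1 hK]; exact h2
  · unfold sps
    rw [dif_neg (fun h => hK h.choose_spec.2)]
    exact (T' p).child_mem hz

/-- Auxiliary strategy. -/
noncomputable def aux (b : ℕ) (s : List (GM c) → GM c) (l : List B) (p : Idx T K) : B :=
  (c p).φ b (sps c s p) l

open Classical in
/-- Translated strategy. -/
noncomputable def gphi (b : ℕ) (s : List (GM c) → GM c) (l : List B) : B :=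
  if h : anc K l ∈ T.S ∧ (anc K l).length = K then aux c b s l ⟨anc K l, h.1, h.2⟩
  else gf c (s (l.map (gl c)))

theorem gphi_long {l : List B} (hl : l ∈ T.S) (hK : K ≤ l.length) (b : ℕ)
    (s : List (GM c) → GM c) (p : Idx T K) (hp : p.val = anc K l) :
    gphi c b s l = (c p).φ b (sps c s p) l := by
  have h : anc K l ∈ T.S ∧ (anc K l).length = K := ⟨T.anc K hl, anc_length hK⟩
  unfold gphi
  rw [dif_pos h]
  have h1 : (⟨anc K l, h.1, h.2⟩ : Idx T K) = p := Idx.ext hp.symm
  rw [h1]
  rfl

theorem gphi_short {l : List B} (hK : l.length < K) (b : ℕ)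
    (s : List (GM c) → GM c) : gphi c b s l = gf c (s (l.map (gl c))) := by
  unfold gphi
  rw [dif_neg]
  rintro ⟨_, h⟩
  rw [anc_of_le hK.le] at h
  omega

/-- A sequence of positions growing by one move is a play. -/
theorem exists_ini {A : Type u} (Z : ℕ → List A) (h0 : Z 0 = [])
    (h : ∀ n, ∃ a, Z (n + 1) = a :: Z n) : ∃ y, ∀ n, ini y n = Z n := by
  choose y hy using h
  refine ⟨y, fun n => ?_⟩
  induction n with
  | zero => rw [h0]; rfl
  | succ n ih => rw [ini_succ, hy n, ih]

theorem GlT_br {w : ℕ → GM c} (hw : (GlT c).Br w) (p : Idx T K)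
    (hp : p.val = ini (fun n => gf c (w n)) K) :
    ∃ y, (T' p).Br y ∧ ∀ n, ini w n = emb c p (ini y n) := by
  have h1 : ∀ n, ∃ z ∈ (T' p).S, ini w (n + K) = emb c p z := by
    intro n
    obtain ⟨q, h2, z, h3, h4⟩ := GlT_long c (hw (n + K)) (by simp)
    rw [ini_map, anc_ini _ (by omega)] at h2
    have h5 : q = p := Idx.ext (h2.trans hp.symm)
    subst h5
    exact ⟨z, h3, h4⟩
  choose z hz1 hz2 using h1
  have hlen : ∀ n, (z n).length = n + K := by
    intro n
    have := congrArg List.length (hz2 n)
    simpa using this.symm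
  have hZ : ∀ n, emb c p (anc n (z n)) = ini w n := by
    intro n
    rw [emb_anc, ← hz2, anc_ini _ (by omega)]
  obtain ⟨y, hy⟩ := exists_ini (fun n => anc n (z n)) (by
    have : (anc 0 (z 0)).length = 0 := anc_length (Nat.zero_le _)
    exact List.length_eq_zero_iff.mp this) (by
    intro n
    have h2 : (anc (n + 1) (z (n + 1))).length = n + 1 := anc_length (by rw [hlen]; omega)
    cases h3 : anc (n + 1) (z (n + 1)) with
    | nil => rw [h3] at h2; simp at h2
    | cons a z' =>
      refine ⟨a, ?_⟩
      have h4 := hZ (n + 1)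
      rw [h3, emb_cons, ini_succ, List.cons.injEq] at h4
      have h5 : a :: z' ∈ (T' p).S := by rw [← h3]; exact (T' p).anc _ (hz1 _)
      have h6 : z' = anc n (z n) := emb_inj c p ((T' p).tl _ _ h5) ((T' p).anc _ (hz1 n))
        (by rw [h4.2, hZ n])
      rw [h6])
  refine ⟨y, fun n => ?_, fun n => ?_⟩
  · rw [hy n]; exact (T' p).anc _ (hz1 n)
  · rw [hy n, hZ n]

/-- The glued covering. -/
noncomputable def GC : Cov T (GlT c) K where
  f := gf c
  mem := fun _ h => GlT_map c h
  φ := gphi c
  st := by
    intro b s hs l hl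
    by_cases hK : K ≤ l.length
    · let p : Idx T K := ⟨anc K l, T.anc K hl, anc_length hK⟩
      rw [gphi_long c hl hK b s p rfl]
      exact ((c p).st b _ (sps_St c hs _) l ⟨hl, Or.inr (anc_suffix K l)⟩).1
    · rw [gphi_short c (by omega)]
      have h1 := GlT_map c (hs _ (GlT_inl c hl (by omega)))
      rw [List.map_cons, gf_gl_map] at h1
      exact h1
  loc := by
    intro b n s s' h l hl hn
    by_cases hK : K ≤ l.length
    · let p : Idx T K := ⟨anc K l, T.anc K hl, anc_length hK⟩
      rw [gphi_long c hl hK b s p rfl, gphi_long c hl hK b s' p rfl]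
      apply (c p).loc b n _ _ _ l ⟨hl, Or.inr (anc_suffix K l)⟩ hn
      intro z hz hzn
      exact sps_congr c p z (fun hK' => h _ (GlT_emb c _ hz hK') (by
        rw [emb_length]; exact hzn))
    · rw [gphi_short c (by omega), gphi_short c (by omega),
        h _ (GlT_inl c hl (by omega)) (by simpa using hn)]
  lift := by
    intro b hb s hs x hx hc
    let p : Idx T K := ⟨ini x K, hx K, by simp⟩
    have hpdef : p.val = ini x K := rfl
    have hxp : (RT T p.val p.mem).Br x := by
      intro n
      refine ⟨hx n, ?_⟩
      rcases Nat.le_total n K with h | h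
      · left; exact ini_suffix x h
      · right; exact ini_suffix x h
    obtain ⟨y, hy1, hy2, hy3⟩ := (c p).lift b hb (sps c s p) (sps_St c hs p) x hxp (by
      intro n hn
      rcases Nat.lt_or_ge n K with h | h
      · have h1 := (c p).st b (sps c s p) (sps_St c hs p) _ (hxp n)
        have h2 : (c p).φ b (sps c s p) (ini x n) :: ini x n <:+ ini x K := by
          rcases h1.2 with h3 | h3
          · exact h3
          · have h4 : ini x K = (c p).φ b (sps c s p) (ini x n) :: ini x n := by
              apply h3.eq_of_length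
              have := h3.length_le
              simp only [List.length_cons, ini_length, hpdef] at this ⊢
              omega
            rw [← h4]
        have h3 := eq_ini_of_suffix h2
        simp only [List.length_cons, ini_length, ini_succ, List.cons.injEq, and_true] at h3
        exact h3.symm
      · rw [hc n hn]
        exact gphi_long c (hx n) (by simpa using h) b s p (by rw [anc_ini x h]))
    let w : ℕ → GM c := fun n => if n < K then gl c ((c p).f (y n)) else gr c p (y n)
    have hw : ∀ n, ini w n = emb c p (ini y n) := by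
      intro n
      induction n with
      | zero => rfl
      | succ n ih => rw [ini_succ, ini_succ, emb_cons, ih, ini_length]
    have hyx : ∀ n, (ini y n).map (c p).f = ini x n := by
      intro n; rw [ini_map]; exact ini_congr (fun m _ => hy3 m)
    have hwS : (GlT c).Br w := by
      intro n
      rw [hw]
      rcases Nat.le_total n K with h | h
      · rw [emb_short c p (by simpa using h), hyx]
        exact GlT_inl c (hx n) (by simpa using h)
      · exact GlT_emb c p (hy1 n) (by simpa using h)
    refine ⟨w, hwS, ?_, ?_⟩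
    · intro n hn
      rcases Nat.lt_or_ge n K with h | h
      · have h1 := hs _ (hwS n)
        have h2 := GlT_short c h1 (by simp only [List.length_cons, ini_length]; omega)
        rw [List.map_cons, List.map_cons, List.cons.injEq] at h2
        rw [h2.1]
        have h3 := hc n hn
        rw [gphi_short c (by simpa using h)] at h3
        have h4 : ini w n = (ini x n).map (gl c) := by
          rw [hw, emb_short c p (by simpa using h.le), hyx]
        rw [h4, ← h3]
        change (if n < K then gl c ((c p).f (y n)) else gr c p (y n)) = _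
        rw [if_pos h, hy3]
      · obtain ⟨a, h1, h2⟩ := GlT_ans c hs p (hy1 n) (by simpa using h)
        have h3 := sps_eq c p h1 (by simpa using h)
        rw [hw, h1, ← h3, ← hy2 n hn]
        change (if n < K then gl c ((c p).f (y n)) else gr c p (y n)) = _
        rw [if_neg (by omega)]
    · intro n
      change gf c (if n < K then gl c ((c p).f (y n)) else gr c p (y n)) = _
      split_ifs
      · exact hy3 n
      · exact hy3 n
  uniq := by
    intro w hw w' hw' hK h
    have h1 : w'.length = w.length := by
      have := congrArg List.length h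
      simpa using this.symm
    rw [GlT_short c hw hK, GlT_short c hw' (by omega), h]
  surj := by
    intro l hl hK
    exact ⟨l.map (gl c), GlT_inl c hl hK, gf_gl_map c l⟩
  stab := by
    intro b s hs w hw hK
    rw [gphi_short c (by simpa using hK), ← GlT_short c hw hK.le]

theorem GC_f : (GC c).f = gf c := rfl

theorem GlT_opn {V : Idx T K → Set (ℕ → B)} {W : Set (ℕ → B)}
    (hV : ∀ p, Opn (T' p) {y | (fun n => (c p).f (y n)) ∈ V p})
    (hW : ∀ x, T.Br x → ∀ p : Idx T K, p.val = ini x K → (x ∈ W ↔ x ∈ V p)) :
    Opn (GlT c) {w | (fun n => gf c (w n)) ∈ W} := by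
  choose O hO using hV
  refine ⟨{w | ∃ p, ∃ z ∈ (T' p).S, K ≤ z.length ∧ w = emb c p z ∧
    ∃ m ≤ z.length, anc m z ∈ O p}, fun w hw => ?_⟩
  have hx : T.Br (fun n => gf c (w n)) := by
    intro n; rw [← ini_map]; exact GlT_map c (hw n)
  let p : Idx T K := ⟨ini (fun n => gf c (w n)) K, hx K, by simp⟩
  obtain ⟨y, hy1, hy2⟩ := GlT_br c hw p rfl
  have hfy : (fun n => (c p).f (y n)) = (fun n => gf c (w n)) := by
    funext n
    have h1 := congrArg (List.map (gf c)) (hy2 (n + 1))
    rw [emb_map, ini_map, ini_map] at h1
    exact (ini_inj h1 n (Nat.lt_succ_self n)).symm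
  rw [Set.mem_ofPred_eq, hW _ hx p rfl, ← hfy]
  have h2 := hO p y hy1
  rw [Set.mem_ofPred_eq] at h2
  rw [h2]
  constructor
  · rintro ⟨m, hm⟩
    refine ⟨max m K, p, ini y (max m K), hy1 _, by simp, hy2 _, m, by simp, ?_⟩
    rw [anc_ini y (le_max_left m K)]; exact hm
  · rintro ⟨n, q, z, h3, h4, h5, m, h6, h7⟩
    have hn : n = z.length := by
      have := congrArg List.length h5
      simpa using this
    have hq : q = p := by
      apply Idx.ext
      rw [← anc_of_mem c q h3 h4, ← emb_map, ← h5, ini_map, anc_ini _ (by omega)]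
    subst hq
    have hz : z = ini y n := by
      apply emb_inj c p h3 (hy1 n)
      rw [← h5, hy2]
    subst hz
    refine ⟨m, ?_⟩
    rw [anc_ini y (by simpa using h6)] at h7
    exact h7

end Pool.Agent.Lib.P43c499
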