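import Pool.Agent.Lib.P43c499.Lim
import Pool.Agent.Lib.P43c499.Glue

/-!
Determinacy of quasi-Borel games.
-/

namespace Pool.Agent.Lib.P43c499

universe u

variable {A : Type u}

/-- Quasi-Borel sets of plays. -/
inductive QB {A : Type u} : Set (ℕ → A) → Prop
  | basic (n : ℕ) (D : Set (List A)) : QB {x | ini x n ∈ D}
  | compl (U : Set (ℕ → A)) : QB U → QB Uᶜ
  | iUnion (U : ℕ → Set (ℕ → A)) : (∀ i, QB (U i)) → QB (⋃ i, U i)
  | sep (n : ℕ) (U : List A → Set (ℕ → A)) : (∀ p, QB (U p)) → QB {x | x ∈ U (ini x n)}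

/-- Sets that can be unraveled. -/
def Good (U : Set (ℕ → A)) : Prop :=
  ∀ (B : Type u) (T : GT B) (g : B → A) (k : ℕ),
    ∃ (C : Type u) (T' : GT C) (c : Cov T T' k), Clop T' {y | (fun n => g (c.f (y n))) ∈ U}

theorem Good.basic (n : ℕ) (D : Set (List A)) : Good {x | ini x n ∈ D} := by
  intro B T g k
  refine ⟨B, T, Cov.refl T k, ?_, ?_⟩
  · refine ⟨{l | l.length = n ∧ l.map g ∈ D}, fun x hx => ?_⟩
    simp only [Set.mem_ofPred_eq, Cov.refl, id]
    rw [← ini_map]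
    constructor
    · intro h; exact ⟨n, by simp, h⟩
    · rintro ⟨m, h1, h2⟩
      simp only [ini_length] at h1
      subst h1; exact h2
  · refine ⟨{l | l.length = n ∧ l.map g ∉ D}, fun x hx => ?_⟩
    simp only [Set.mem_compl_iff, Set.mem_ofPred_eq, Cov.refl, id]
    rw [← ini_map]
    constructor
    · intro h; exact ⟨n, by simp, h⟩
    · rintro ⟨m, h1, h2⟩
      simp only [ini_length] at h1
      subst h1; exact h2

theorem Good.compl {U : Set (ℕ → A)} (h : Good U) : Good Uᶜ := by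
  intro B T g k
  obtain ⟨C, T', c, hc⟩ := h B T g k
  exact ⟨C, T', c, hc.compl⟩

theorem Good.iUnion {U : ℕ → Set (ℕ → A)} (h : ∀ i, Good (U i)) : Good (⋃ i, U i) := by
  intro B T g k
  choose C T' c hc using fun (i : ℕ) (s : Σ B : Type u, GT B × (B → A)) =>
    h i s.1 s.2.1 s.2.2 (k + i)
  let X : ℕ → Σ B : Type u, GT B × (B → A) := fun i =>
    Nat.rec ⟨B, T, g⟩ (fun i s => ⟨C i s, T' i s, fun z => s.2.2 ((c i s).f z)⟩) i
  let cc : ∀ i, Cov (X i).2.1 (X (i + 1)).2.1 (k + i) := fun i => c i (X i)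
  have hg : ∀ i, ∀ t : Thr cc, (X i).2.2 (cor cc i t) = g (cor cc 0 t) := by
    intro i t
    induction i with
    | zero => rfl
    | succ i ih =>
      rw [← ih, ← cor_step cc i t]
  have h1 : ∀ i, Opn (LT cc) {y | (fun n => g (cor cc 0 (y n))) ∈ U i} := by
    intro i
    have h2 : Clop (X (i + 1)).2.1 {y | (fun n => (X (i + 1)).2.2 (y n)) ∈ U i} := hc i (X i)
    have h3 := h2.1.pull (T' := LT cc) (f := cor cc (i + 1)) (fun y hy => (LC cc (i + 1)).br hy)
    refine h3.congr (fun y _ => ?_)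
    simp only [Set.mem_ofPred_eq, hg]
  have h4 : Opn (LT cc) {y | (fun n => g (cor cc 0 (y n))) ∈ ⋃ i, U i} := by
    refine (Opn.iUnion h1).congr (fun y _ => ?_)
    simp only [Set.mem_iUnion, Set.mem_ofPred_eq]
  obtain ⟨O, hO⟩ := h4
  have : Nonempty (Thr cc) := (LT cc).nonempty
  have hK : (2 * k) % 2 = 0 := by omega
  refine ⟨_, OT (LT cc) O (2 * k) hK,
    Cov.comp ((LC cc 0).weaken (by omega)) ((OC (LT cc) O (2 * k) hK).weaken (by omega)), ?_⟩
  exact OT_clop hO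

theorem Good.sep (n : ℕ) {U : List A → Set (ℕ → A)} (h : ∀ p, Good (U p)) :
    Good {x | x ∈ U (ini x n)} := by
  intro B T g k
  choose C T' c hc using fun (p : Idx T (max k n)) =>
    h ((anc n p.val).map g) B (RT T p.val p.mem) g (max k n)
  refine ⟨_, GlT c, (GC c).weaken (le_max_left k n), ?_, ?_⟩
  · apply GlT_opn c (V := fun p => {x | (fun n => g (x n)) ∈ U ((anc n p.val).map g)})
      (W := {x | (fun n => g (x n)) ∈ {x | x ∈ U (ini x n)}})
    · intro p; exact (hc p).1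
    · intro x hx p hp
      simp only [Set.mem_ofPred_eq]
      rw [hp, anc_ini x (le_max_right k n), ini_map]
  · apply GlT_opn c (V := fun p => {x | (fun n => g (x n)) ∈ U ((anc n p.val).map g)}ᶜ)
      (W := {x | (fun n => g (x n)) ∈ {x | x ∈ U (ini x n)}}ᶜ)
    · intro p; exact (hc p).2
    · intro x hx p hp
      simp only [Set.mem_compl_iff, Set.mem_ofPred_eq]
      rw [hp, anc_ini x (le_max_right k n), ini_map]

theorem QB.good {U : Set (ℕ → A)} (h : QB U) : Good U := by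
  induction h with
  | basic n D => exact Good.basic n D
  | compl U _ ih => exact ih.compl
  | iUnion U _ ih => exact Good.iUnion ih
  | sep n U _ ih => exact Good.sep n ih

/-- Determinacy of open games. -/
theorem open_det (T : GT A) {U : Set (ℕ → A)} (hU : Opn T U) :
    (∃ s, T.St s ∧ ∀ x, T.Br x → Con 0 s x → x ∈ U) ∨
    (∃ s, T.St s ∧ ∀ x, T.Br x → Con 1 s x → x ∉ U) := by
  classical
  have := T.nonempty
  obtain ⟨O, hO⟩ := hU
  by_cases h : Wn 0 T.S O []
  · left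
    refine ⟨fun l => gd T l (frc 0 T.S O [] l), fun l hl => gd_mem hl _, fun x hx hc => ?_⟩
    obtain ⟨n, _, h2, _⟩ := frc_spec h T.nil x rfl (fun n _ _ _ _ => hx (n + 1))
      (fun n _ _ _ hn hm => by
        rw [hc n hn]
        exact gd_of_mem hm)
    exact (hO x hx).mpr ⟨n, h2⟩
  · right
    have hQ := Wc_QS (b := 0) (by norm_num) T.nil (fun a l h1 _ => T.tl a l h1) h
    have hs : ∀ l, ∃ a, (l ∈ T.S → a :: l ∈ T.S) ∧
        (l ∈ Wc 0 T.S O [] → l.length % 2 = 1 → a :: l ∈ Wc 0 T.S O []) := by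
      intro l
      by_cases h1 : l ∈ Wc 0 T.S O [] ∧ l.length % 2 = 1
      · obtain ⟨a, ha⟩ := hQ.own l h1.1 h1.2
        exact ⟨a, fun _ => ha.1, fun _ _ => ha⟩
      · by_cases h2 : l ∈ T.S
        · obtain ⟨a, ha⟩ := T.ext l h2
          exact ⟨a, fun _ => ha, fun h3 h4 => absurd ⟨h3, h4⟩ h1⟩
        · exact ⟨Classical.arbitrary A, fun h3 => absurd h3 h2, fun h3 h4 => absurd ⟨h3, h4⟩ h1⟩
    choose s hs1 hs2 using hs
    refine ⟨s, hs1, fun x hx hc hxU => ?_⟩
    have hW : ∀ n, ini x n ∈ Wc 0 T.S O [] := by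
      intro n
      induction n with
      | zero => exact hQ.root
      | succ n ih =>
        by_cases hn : n % 2 = 1
        · rw [ini_succ, hc n hn]
          exact hs2 _ ih (by simpa using hn)
        · exact hQ.opp _ ih (by simpa using hn) (x n) (hx (n + 1))
    obtain ⟨n, hn⟩ := (hO x hx).mp hxU
    exact Wc_disj (hW n) hn

/-- Quasi-Borel determinacy. -/
theorem QB.det {U : Set (ℕ → A)} (h : QB U) (T : GT A) :
    (∃ s, T.St s ∧ ∀ x, T.Br x → Con 0 s x → x ∈ U) ∨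
    (∃ s, T.St s ∧ ∀ x, T.Br x → Con 1 s x → x ∉ U) := by
  obtain ⟨C, T', c, hc⟩ := h.good A T id 0
  rcases open_det T' hc.1 with ⟨s, hs, h1⟩ | ⟨s, hs, h1⟩
  · left
    refine ⟨c.φ 0 s, c.st 0 s hs, fun x hx hcx => ?_⟩
    obtain ⟨y, hy1, hy2, hy3⟩ := c.lift 0 (by norm_num) s hs x hx hcx
    have h2 := h1 y hy1 hy2
    simp only [Set.mem_ofPred_eq, id, hy3] at h2
    exact h2
  · right
    refine ⟨c.φ 1 s, c.st 1 s hs, fun x hx hcx => ?_⟩
    obtain ⟨y, hy1, hy2, hy3⟩ := c.lift 1 (by norm_num) s hs x hx hcx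
    have h2 := h1 y hy1 hy2
    simp only [Set.mem_ofPred_eq, id, hy3] at h2
    exact h2

end Pool.Agent.Lib.P43c499
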