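import Pool.Agent.Lib.P43c499.Two

/-!
States carrying many running games along the subgroup `KK`.
-/

namespace Pool.Agent.Lib.P43c499

open NoHom

/-- A running game. -/
structure Rec where
  f : Gam
  k : ℕ
  p : Pos
  h : List Pos

/-- The last position of a running game, in global coordinates. -/
def Rec.cur (a : Rec) : Pos := Pos.tr a.f (lastp a.p a.h)

variable (σ : ℕ → Pos → List Pos → Pos)

/-- Correct records. -/
structure Rec.Ok (a : Rec) (q : Pos) : Prop where
  root : a.f ∈ KK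
  memf : a.f ∈ q.C
  gd : Gd a.p
  leg : a.h ∈ (JT a.p).S
  odd : a.h.length % 2 = 1
  con : ∀ l y, y :: l <:+ a.h → l.length % 2 = 0 → y = σ a.k a.p l
  le : Pos.Le a.cur q
  out : ∀ g ∈ q.C, a.f⁻¹ * g ∈ B2 → g ∈ a.cur.C

/-- States. -/
structure DS where
  q : Pos
  rs : List Rec

/-- Valid states. -/
structure DS.Va (S : DS) : Prop where
  pc : ∀ g ∈ S.q.C, ∀ f ∈ KK, f⁻¹ * g ∈ B2 → f ∈ S.q.C
  ok : ∀ a ∈ S.rs, a.Ok σ S.q
  all : ∀ f ∈ KK, f ∈ S.q.C → ∃ a ∈ S.rs, a.f = f
  dis : S.rs.Pairwise (fun a b => a.f ≠ b.f)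
  ord : S.rs.Pairwise (fun a b => ∀ g ∈ a.cur.C, ∀ j, b.f⁻¹ * (g * gen j) ∈ B2 →
    g * gen j ∈ S.q.C)

/-- The record `a` continues as `a'`. -/
structure Ex (a a' : Rec) : Prop where
  f : a'.f = a.f
  k : a'.k = a.k
  p : a'.p = a.p
  h : a.h <:+ a'.h

theorem Ex.refl (a : Rec) : Ex a a := ⟨rfl, rfl, rfl, List.suffix_rfl⟩

theorem Ex.trans {a b c : Rec} (h : Ex a b) (h' : Ex b c) : Ex a c :=
  ⟨h'.f.trans h.f, h'.k.trans h.k, h'.p.trans h.p, h.h.trans h'.h⟩

/-- Weak extension of states. -/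
structure Lw (S S' : DS) : Prop where
  le : Pos.Le S.q S'.q
  rs : ∀ a ∈ S.rs, ∃ a' ∈ S'.rs, Ex a a'

theorem Lw.refl (S : DS) : Lw S S := ⟨Pos.Le.refl _, fun a ha => ⟨a, ha, Ex.refl a⟩⟩

theorem Lw.trans {S S' S'' : DS} (h : Lw S S') (h' : Lw S' S'') : Lw S S'' := by
  refine ⟨h.le.trans h'.le, fun a ha => ?_⟩
  obtain ⟨a', h1, h2⟩ := h.rs a ha
  obtain ⟨a'', h3, h4⟩ := h'.rs a' h1
  exact ⟨a'', h3, h2.trans h4⟩

/-- Strong extension of states. -/
structure Ls (r : ℝ) (S S' : DS) : Prop where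
  le : Pos.Le S.q S'.q
  rs : ∀ a ∈ S.rs, ∃ a' ∈ S'.rs, Ex a a' ∧ a.h.length < a'.h.length ∧ Pos.Le S.q a'.cur
  re : r ∈ S'.q.R
  kk : ∀ k ≤ S.q.L, ∃ a ∈ S'.rs, a.k = k

theorem Ls.lw {r : ℝ} {S S' : DS} (h : Ls r S S') : Lw S S' := by
  refine ⟨h.le, fun a ha => ?_⟩
  obtain ⟨a', h1, h2, -⟩ := h.rs a ha
  exact ⟨a', h1, h2⟩

theorem Lw.trans_ls {r : ℝ} {S S' S'' : DS} (h : Lw S S') (h' : Ls r S' S'') : Ls r S S'' := by
  refine ⟨h.le.trans h'.le, fun a ha => ?_, h'.re, fun k hk => h'.kk k (hk.trans h.le.L)⟩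
  obtain ⟨a', h1, h2⟩ := h.rs a ha
  obtain ⟨a'', h3, h4, h5, h6⟩ := h'.rs a' h1
  exact ⟨a'', h3, h2.trans h4, lt_of_le_of_lt h2.h.length_le h5, h.le.trans h6⟩

variable {σ}

theorem side_eq {f f' g : Gam} (hf : f ∈ KK) (hf' : f' ∈ KK) (h : f⁻¹ * g ∈ B2)
    (h' : f'⁻¹ * g ∈ B2) : f = f' := by
  have h1 : f⁻¹ * f' ∈ KK := KK.mul_mem (KK.inv_mem hf) hf'
  have h2 : (f⁻¹ * f') * (f'⁻¹ * g) ∈ B2 := by
    rw [mul_assoc, mul_inv_cancel_left]; exact h
  have h3 := side_disj h1 h' h2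
  exact inv_mul_eq_one.mp h3

theorem KK_side {f f' : Gam} (hf : f ∈ KK) (hf' : f' ∈ KK) : f⁻¹ * f' ∉ B2 :=
  KK_notMem_B2 (KK.mul_mem (KK.inv_mem hf) hf')

theorem step_global {f : Gam} {q y : Pos} (h : Pos.Step B2 (Pos.tr f⁻¹ q) y) :
    Pos.Step {g | f⁻¹ * g ∈ B2} q (Pos.tr f y) := by
  have := h.tr f
  rwa [Pos.tr_tr_inv] at this

theorem mem_add {q : Pos} {E : Set Gam} {hE : E.Finite} {R' : Set ℝ} {hR' : R'.Countable}
    {g : Gam} : g ∈ (q.add E hE R' hR').C ↔ g ∈ q.C ∨ g ∈ E := Iff.rfl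

/-- Adding a vertex of `KK` together with its game. -/
theorem addV (hσ : ∀ k p, Gd p → (JT p).St (σ k p)) (r : ℝ) {S : DS} (hS : S.Va σ) {f : Gam}
    (hf : f ∈ KK) (hfC : f ∉ S.q.C) (k : ℕ) :
    ∃ S' : DS, S'.Va σ ∧ Lw S S' ∧ f ∈ S'.q.C ∧ r ∈ S'.q.R ∧ ∃ c : Rec, c.k = k ∧
      S'.rs = S.rs ++ [c] := by
  set q0 := S.q.add {f} (Set.finite_singleton f) {r} (Set.countable_singleton r) with hq0
  have hle0 : Pos.Le S.q q0 := Pos.le_add _ _ _ _ _
  have hm0 : ∀ g, g ∈ q0.C ↔ g ∈ S.q.C ∨ g = f := fun g => Iff.rfl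
  set p := Pos.tr f⁻¹ q0 with hp
  have hGd : Gd p := by
    refine ⟨?_, ?_⟩
    · rw [hp, Pos.mem_tr, inv_inv, mul_one, hm0]; right; rfl
    · intro g hg hB
      rw [hp, Pos.mem_tr, inv_inv, hm0] at hg
      rcases hg with hg | hg
      · apply hfC
        apply hS.pc _ hg f hf
        rw [inv_mul_cancel_left]; exact hB
      · have : g = 1 := by simpa using hg
        rw [this] at hB
        exact one_notMem_B2 hB
  set y := σ k p [] with hy
  have hleg : [y] ∈ (JT p).S := hσ k p hGd [] (JT p).nil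
  have hstep : Pos.Step B2 p y := hleg.1
  have hst := step_global hstep
  set q1 := Pos.tr f y with hq1
  set c : Rec := ⟨f, k, p, [y]⟩ with hc
  have hcur : c.cur = q1 := rfl
  have hle1 : Pos.Le S.q q1 := hle0.trans hst.le
  have hfq1 : f ∈ q1.C := hst.le.C ((hm0 f).mpr (Or.inr rfl))
  -- elements of the new position
  have hcase : ∀ g ∈ q1.C, g ∈ S.q.C ∨ g = f ∨ f⁻¹ * g ∈ B2 := by
    intro g hg
    by_cases h1 : g ∈ q0.C
    · rcases (hm0 g).mp h1 with h2 | h2
      · left; exact h2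
      · right; left; exact h2
    · right; right; exact hst.new g hg h1
  have hne : ∀ a ∈ S.rs, a.f ≠ f := by
    intro a ha h1
    apply hfC
    rw [← h1]
    exact (hS.ok a ha).memf
  refine ⟨⟨q1, S.rs ++ [c]⟩, ?_, ?_, hfq1, ?_, c, rfl, rfl⟩
  · refine ⟨?_, ?_, ?_, ?_, ?_⟩
    · intro g hg f' hf' hB
      rcases hcase g hg with h1 | h1 | h1
      · exact hle1.C (hS.pc g h1 f' hf' hB)
      · rw [h1] at hB; exact absurd hB (KK_side hf' hf)
      · rw [side_eq hf' hf hB h1]; exact hfq1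
    · intro a ha
      rcases List.mem_append.mp ha with ha | ha
      · have h0 := hS.ok a ha
        refine ⟨h0.root, hle1.C h0.memf, h0.gd, h0.leg, h0.odd, h0.con, h0.le.trans hle1, ?_⟩
        intro g hg hB
        rcases hcase g hg with h1 | h1 | h1
        · exact h0.out g h1 hB
        · rw [h1] at hB; exact absurd hB (KK_side h0.root hf)
        · exact absurd (side_eq h0.root hf hB h1) (hne a ha)
      · rw [List.mem_singleton] at ha
        subst ha
        refine ⟨hf, hfq1, hGd, hleg, rfl, ?_, Pos.Le.refl _, fun g hg _ => hg⟩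
        intro l z hl _
        rcases List.suffix_cons_iff.mp hl with h1 | h1
        · rw [List.cons.injEq] at h1
          rw [h1.1, h1.2]
        · simp at h1
    · intro f' hf' hf'C
      rcases hcase f' hf'C with h1 | h1 | h1
      · obtain ⟨a, ha, h2⟩ := hS.all f' hf' h1
        exact ⟨a, List.mem_append_left _ ha, h2⟩
      · exact ⟨c, List.mem_append_right _ (List.mem_singleton.mpr rfl), h1.symm⟩
      · exact absurd h1 (KK_side hf hf')
    · rw [List.pairwise_append]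
      refine ⟨hS.dis, List.pairwise_singleton _ _, ?_⟩
      intro a ha b hb
      rw [List.mem_singleton] at hb
      subst hb
      exact hne a ha
    · rw [List.pairwise_append]
      refine ⟨hS.ord.imp (fun h g hg j hB => hle1.C (h g hg j hB)), List.pairwise_singleton _ _, ?_⟩
      intro a ha b hb g hg j hB
      rw [List.mem_singleton] at hb
      subst hb
      exact hst.cov g (hle0.C ((hS.ok a ha).le.C hg)) j hB
  · exact ⟨hle1, fun a ha => ⟨a, List.mem_append_left _ ha, Ex.refl a⟩⟩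
  · exact hst.le.R (Or.inr rfl)

/-- Moving in the first game of the list, which then goes to the end. -/
theorem rot (hσ : ∀ k p, Gd p → (JT p).St (σ k p)) {q : Pos} {a : Rec} {t : List Rec}
    (hS : DS.Va σ ⟨q, a :: t⟩)
    (hK : ∀ g ∈ a.cur.C, ∀ j, g * gen j ∈ KK → g * gen j ∈ q.C) :
    ∃ (q' : Pos) (a' : Rec), DS.Va σ ⟨q', t ++ [a']⟩ ∧ Pos.Le q q' ∧ Ex a a' ∧
      a.h.length < a'.h.length ∧ Pos.Le q a'.cur := by
  have ha : a.Ok σ q := hS.ok a List.mem_cons_self
  set q0 := q.add ∅ Set.finite_empty ∅ Set.countable_empty with hq0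
  have hle0 : Pos.Le q q0 := Pos.le_add _ _ _ _ _
  have hm0 : ∀ g, g ∈ q0.C ↔ g ∈ q.C := by
    intro g
    have : g ∈ q0.C ↔ g ∈ q.C ∨ g ∈ (∅ : Set Gam) := Iff.rfl
    rw [this]; simp
  have hL0 : q.L < q0.L := by
    have : q0.L = q.L + 1 := rfl
    omega
  set y1 := Pos.tr a.f⁻¹ q0 with hy1
  have hdis : ∀ b ∈ t, a.f ≠ b.f := (List.pairwise_cons.mp hS.dis).1
  have hord : ∀ b ∈ t, ∀ g ∈ a.cur.C, ∀ j, b.f⁻¹ * (g * gen j) ∈ B2 → g * gen j ∈ q.C :=
    (List.pairwise_cons.mp hS.ord).1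
  -- the move of the second player
  have hst1 : Pos.Step B2ᶜ (lastp a.p a.h) y1 := by
    have h1 : Pos.Le (lastp a.p a.h) y1 := by
      have := (ha.le.trans hle0).tr a.f⁻¹
      unfold Rec.cur at this
      rwa [Pos.tr_inv_tr] at this
    refine ⟨h1, ?_, ?_, ?_⟩
    · have h2 : (lastp a.p a.h).L ≤ q.L := ha.le.L
      have h3 : y1.L = q0.L := rfl
      omega
    · intro g hg hg' hB
      apply hg'
      rw [hy1, Pos.mem_tr, inv_inv, hm0] at hg
      have h2 := ha.out _ hg (by rw [inv_mul_cancel_left]; exact hB)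
      unfold Rec.cur at h2
      rw [Pos.mem_tr, inv_mul_cancel_left] at h2
      exact h2
    · intro g hg j hj
      rw [hy1, Pos.mem_tr, inv_inv, hm0]
      have hx : a.f * g ∈ a.cur.C := by
        unfold Rec.cur
        rw [Pos.mem_tr, inv_mul_cancel_left]; exact hg
      have hxq : a.f * g ∈ q.C := ha.le.C hx
      rw [← mul_assoc]
      rcases exists_side (a.f * g * gen j) with h2 | ⟨f, hf, h2⟩
      · exact hK _ hx j h2
      · have h3 : f ∈ q.C := by
          by_cases h4 : f⁻¹ * (a.f * g) ∈ B2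
          · exact hS.pc _ hxq f hf h4
          · have h5 : f⁻¹ * (a.f * g) * gen j ∈ B2 := by
              rw [mul_assoc]; exact h2
            have h6 := (cross_out h4 h5).1
            rw [inv_mul_eq_one] at h6
            rw [h6]; exact hxq
        obtain ⟨b, hb, h4⟩ := hS.all f hf h3
        rcases List.mem_cons.mp hb with h5 | h5
        · exfalso
          apply hj
          rw [← h4, h5, mul_assoc, inv_mul_cancel_left] at h2
          exact h2
        · apply hord b h5 _ hx j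
          rw [h4]; exact h2
  have hleg1 : y1 :: a.h ∈ (JT a.p).S := by
    refine ⟨?_, ha.leg⟩
    rw [ha.odd]
    have : rJ 1 (lastp a.p a.h) y1 =
      Pos.Step (if 1 = 0 then B2 else B2ᶜ) (lastp a.p a.h) y1 := rfl
    rw [this, if_neg (by norm_num)]
    exact hst1
  set y2 := σ a.k a.p (y1 :: a.h) with hy2
  have hleg2 : y2 :: y1 :: a.h ∈ (JT a.p).S := hσ a.k a.p ha.gd _ hleg1
  have hst2 : Pos.Step B2 y1 y2 := by
    have h1 := hleg2.1
    have h2 : (y1 :: a.h).length % 2 = 0 := by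
      have := ha.odd
      simp only [List.length_cons]; omega
    rw [h2] at h1
    exact h1
  have hst := step_global hst2
  set q' := Pos.tr a.f y2 with hq'
  set a' : Rec := ⟨a.f, a.k, a.p, y2 :: y1 :: a.h⟩ with ha'
  have hle1 : Pos.Le q q' := hle0.trans hst.le
  have hcase : ∀ g ∈ q'.C, g ∈ q.C ∨ a.f⁻¹ * g ∈ B2 := by
    intro g hg
    by_cases h1 : g ∈ q0.C
    · left; exact (hm0 g).mp h1
    · right; exact hst.new g hg h1
  refine ⟨q', a', ⟨?_, ?_, ?_, ?_, ?_⟩, hle1, ⟨rfl, rfl, rfl, ?_⟩, ?_, hle1⟩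
  · intro g hg f hf hB
    rcases hcase g hg with h1 | h1
    · exact hle1.C (hS.pc g h1 f hf hB)
    · rw [side_eq hf ha.root hB h1]; exact hle1.C ha.memf
  · intro b hb
    rcases List.mem_append.mp hb with hb | hb
    · have h0 := hS.ok b (List.mem_cons_of_mem _ hb)
      refine ⟨h0.root, hle1.C h0.memf, h0.gd, h0.leg, h0.odd, h0.con, h0.le.trans hle1, ?_⟩
      intro g hg hB
      rcases hcase g hg with h1 | h1
      · exact h0.out g h1 hB
      · exact absurd (side_eq ha.root h0.root h1 hB) (hdis b hb)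
    · rw [List.mem_singleton] at hb
      subst hb
      refine ⟨ha.root, hle1.C ha.memf, ha.gd, hleg2, ?_, ?_, Pos.Le.refl _, fun g hg _ => hg⟩
      · have := ha.odd
        simp only [ha', List.length_cons]; omega
      · intro l z hl hlen
        rcases List.suffix_cons_iff.mp hl with h1 | h1
        · rw [List.cons.injEq] at h1
          rw [h1.1, h1.2]
        · rcases List.suffix_cons_iff.mp h1 with h2 | h2
          · exfalso
            rw [List.cons.injEq] at h2
            rw [h2.2] at hlen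
            have := ha.odd
            omega
          · exact ha.con l z h2 hlen
  · intro f hf hfC
    rcases hcase f hfC with h1 | h1
    · obtain ⟨b, hb, h2⟩ := hS.all f hf h1
      rcases List.mem_cons.mp hb with h3 | h3
      · exact ⟨a', List.mem_append_right _ (List.mem_singleton.mpr rfl), by rw [← h2, h3]⟩
      · exact ⟨b, List.mem_append_left _ h3, h2⟩
    · exact absurd h1 (KK_side ha.root hf)
  · rw [List.pairwise_append]
    refine ⟨(List.pairwise_cons.mp hS.dis).2, List.pairwise_singleton _ _, ?_⟩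
    intro b hb b' hb'
    rw [List.mem_singleton] at hb'
    subst hb'
    exact (hdis b hb).symm
  · rw [List.pairwise_append]
    refine ⟨(List.pairwise_cons.mp hS.ord).2.imp (fun h g hg j hB => hle1.C (h g hg j hB)),
      List.pairwise_singleton _ _, ?_⟩
    intro b hb b' hb' g hg j hB
    rw [List.mem_singleton] at hb'
    subst hb'
    exact hst.cov g (hle0.C ((hS.ok b (List.mem_cons_of_mem _ hb)).le.C hg)) j hB
  · exact (List.suffix_cons _ _).trans (List.suffix_cons _ _)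
  · simp only [ha', List.length_cons]; omega

end Pool.Agent.Lib.P43c499
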