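import Pool.Agent.Lib.P43c499.Dst

/-!
Successor states, translations and merges.
-/

namespace Pool.Agent.Lib.P43c499

open NoHom

variable {σ : ℕ → Pos → List Pos → Pos}

/-- Adding a finite set of vertices. -/
theorem addSet (hσ : ∀ k p, Gd p → (JT p).St (σ k p)) (r : ℝ) {S : DS} (hS : S.Va σ)
    {E : Set Gam} (hE : E.Finite) :
    ∃ S' : DS, S'.Va σ ∧ Lw S S' ∧ (∀ g ∈ E, g ∈ KK → g ∈ S'.q.C) ∧
      ∃ t, S'.rs = S.rs ++ t := by
  induction E, hE using Set.Finite.induction_on with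
  | empty => exact ⟨S, hS, Lw.refl S, fun g hg => absurd hg (Set.notMem_empty g), [], by simp⟩
  | @insert e E _ _ ih =>
    obtain ⟨S', h1, h2, h3, t, h4⟩ := ih
    by_cases he : e ∈ KK ∧ e ∉ S'.q.C
    · obtain ⟨S'', h5, h6, h7, -, c, -, h8⟩ := addV hσ r h1 he.1 he.2 0
      refine ⟨S'', h5, h2.trans h6, ?_, t ++ [c], by rw [h8, h4, List.append_assoc]⟩
      intro g hg hgK
      rcases Set.mem_insert_iff.mp hg with h9 | h9
      · rw [h9]; exact h7
      · exact h6.le.C (h3 g h9 hgK)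
    · refine ⟨S', h1, h2, ?_, t, h4⟩
      intro g hg hgK
      rcases Set.mem_insert_iff.mp hg with h9 | h9
      · by_contra h10
        exact he ⟨by rw [← h9]; exact hgK, by rw [← h9]; exact h10⟩
      · exact h3 g h9 hgK

/-- Adding games for the first requirements. -/
theorem addKs (hσ : ∀ k p, Gd p → (JT p).St (σ k p)) (r : ℝ) {S : DS} (hS : S.Va σ) (n : ℕ) :
    ∃ S' : DS, S'.Va σ ∧ Lw S S' ∧ (∀ k < n, ∃ a ∈ S'.rs, a.k = k) ∧ (0 < n → r ∈ S'.q.R) ∧
      ∃ t, S'.rs = S.rs ++ t := by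
  induction n with
  | zero => exact ⟨S, hS, Lw.refl S, fun k hk => by omega, fun h => by omega, [], by simp⟩
  | succ n ih =>
    obtain ⟨S', h1, h2, h3, h4, t, h5⟩ := ih
    obtain ⟨m, hm⟩ := exists_tt_notMem S'.q.fin
    obtain ⟨S'', h6, h7, -, h8, c, h9, h10⟩ := addV hσ r h1 (tt_mem m) hm n
    refine ⟨S'', h6, h2.trans h7, ?_, fun _ => h8, t ++ [c], by rw [h10, h5, List.append_assoc]⟩
    intro k hk
    rcases Nat.lt_succ_iff_lt_or_eq.mp hk with h11 | h11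
    · obtain ⟨a, ha, h12⟩ := h3 k h11
      exact ⟨a, by rw [h10]; exact List.mem_append_left _ ha, h12⟩
    · exact ⟨c, by rw [h10]; exact List.mem_append_right _ (List.mem_singleton.mpr rfl),
        by rw [h9, h11]⟩

/-- Moving in all the games of an initial part of the list. -/
theorem rots (hσ : ∀ k p, Gd p → (JT p).St (σ k p)) (w : List Rec) :
    ∀ (v : List Rec) (q : Pos), DS.Va σ ⟨q, w ++ v⟩ →
    (∀ a ∈ w, ∀ g ∈ a.cur.C, ∀ j, g * gen j ∈ KK → g * gen j ∈ q.C) →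
    ∃ (q' : Pos) (v' : List Rec), DS.Va σ ⟨q', v ++ v'⟩ ∧ Pos.Le q q' ∧
      ∀ a ∈ w, ∃ a' ∈ v', Ex a a' ∧ a.h.length < a'.h.length ∧ Pos.Le q a'.cur := by
  induction w with
  | nil =>
    intro v q h _
    exact ⟨q, [], by simpa using h, Pos.Le.refl q, fun a ha => by simp at ha⟩
  | cons a w ih =>
    intro v q h hK
    obtain ⟨q1, a1, h1, h2, h3, h4, h5⟩ := rot hσ h (hK a List.mem_cons_self)
    have h1' : DS.Va σ ⟨q1, w ++ (v ++ [a1])⟩ := by
      rw [← List.append_assoc]; exact h1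
    obtain ⟨q', v', h6, h7, h8⟩ := ih (v ++ [a1]) q1 h1'
      (fun b hb g hg j hj => h2.C (hK b (List.mem_cons_of_mem _ hb) g hg j hj))
    refine ⟨q', a1 :: v', ?_, h2.trans h7, ?_⟩
    · have : v ++ a1 :: v' = (v ++ [a1]) ++ v' := by simp
      rw [this]; exact h6
    · intro b hb
      rcases List.mem_cons.mp hb with h9 | h9
      · subst h9
        exact ⟨a1, List.mem_cons_self, h3, h4, h5⟩
      · obtain ⟨b', h10, h11, h12, h13⟩ := h8 b h9
        exact ⟨b', List.mem_cons_of_mem _ h10, h11, h12, h2.trans h13⟩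

/-- Strong successors exist. -/
theorem exists_succ (hσ : ∀ k p, Gd p → (JT p).St (σ k p)) (r : ℝ) {S : DS} (hS : S.Va σ) :
    ∃ S' : DS, S'.Va σ ∧ Ls r S S' := by
  obtain ⟨S1, h1, h2, h3, t1, h4⟩ := addSet hσ r hS (Pos.nb_finite S.q.fin)
  obtain ⟨S2, h5, h6, h7, h8, t2, h9⟩ := addKs hσ r h1 (S.q.L + 1)
  have h10 : S2.rs = S.rs ++ (t1 ++ t2) := by rw [h9, h4, List.append_assoc]
  have h11 : DS.Va σ ⟨S2.q, S.rs ++ (t1 ++ t2)⟩ := by rw [← h10]; exact h5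
  have hle : Pos.Le S.q S2.q := h2.le.trans h6.le
  obtain ⟨q', v', h12, h13, h14⟩ := rots hσ S.rs (t1 ++ t2) S2.q h11 (by
    intro a ha g hg j hj
    exact h6.le.C (h3 _ ⟨g, (hS.ok a ha).le.C hg, j, rfl⟩ hj))
  refine ⟨⟨q', (t1 ++ t2) ++ v'⟩, h12, ⟨hle.trans h13, ?_, ?_, ?_⟩⟩
  · intro a ha
    obtain ⟨a', h15, h16, h17, h18⟩ := h14 a ha
    exact ⟨a', List.mem_append_right _ h15, h16, h17, hle.trans h18⟩
  · exact h13.R (h8 (Nat.succ_pos _))
  · intro k hk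
    obtain ⟨a, ha, hak⟩ := h7 k (Nat.lt_succ_of_le hk)
    rw [h10] at ha
    rcases List.mem_append.mp ha with h19 | h19
    · obtain ⟨a', h15, h16, -⟩ := h14 a h19
      exact ⟨a', List.mem_append_right _ h15, by rw [h16.k, hak]⟩
    · exact ⟨a, List.mem_append_left _ h19, hak⟩

/-! ### Translations -/

/-- Translation of records. -/
def Rec.tr (g : Gam) (a : Rec) : Rec := ⟨g * a.f, a.k, a.p, a.h⟩

theorem Rec.tr_cur (g : Gam) (a : Rec) : (a.tr g).cur = Pos.tr g a.cur := by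
  unfold Rec.cur
  rw [Pos.tr_tr]
  rfl

/-- Translation of states. -/
def DS.tr (g : Gam) (S : DS) : DS := ⟨Pos.tr g S.q, S.rs.map (Rec.tr g)⟩

theorem DS.tr_tr (g h : Gam) (S : DS) : DS.tr g (DS.tr h S) = DS.tr (g * h) S := by
  unfold DS.tr
  simp only [Pos.tr_tr, List.map_map, DS.mk.injEq, true_and]
  apply List.map_congr_left
  intro a _
  simp [Rec.tr, mul_assoc]

theorem DS.tr_one (S : DS) : DS.tr 1 S = S := by
  unfold DS.tr
  rw [Pos.tr_one]
  have : Rec.tr 1 = id := by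
    funext a; simp [Rec.tr]
  rw [this, List.map_id]

theorem DS.Va.tr {S : DS} (hS : S.Va σ) {g : Gam} (hg : g ∈ KK) : (S.tr g).Va σ where
  pc := by
    intro x hx f hf hB
    change g⁻¹ * f ∈ S.q.C
    apply hS.pc (g⁻¹ * x) hx (g⁻¹ * f) (KK.mul_mem (KK.inv_mem hg) hf)
    rw [mul_inv_rev, inv_inv, mul_assoc, mul_inv_cancel_left]
    exact hB
  ok := by
    intro a ha
    obtain ⟨b, hb, rfl⟩ := List.mem_map.mp ha
    have h := hS.ok b hb
    refine ⟨KK.mul_mem hg h.root, ?_, h.gd, h.leg, h.odd, h.con, ?_, ?_⟩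
    · change g⁻¹ * (g * b.f) ∈ S.q.C
      rw [inv_mul_cancel_left]; exact h.memf
    · rw [Rec.tr_cur]; exact h.le.tr g
    · intro x hx hB
      rw [Rec.tr_cur, Pos.mem_tr]
      apply h.out _ hx
      change (g * b.f)⁻¹ * x ∈ B2 at hB
      rw [mul_inv_rev, mul_assoc] at hB
      exact hB
  all := by
    intro f hf hfC
    obtain ⟨a, ha, h⟩ := hS.all (g⁻¹ * f) (KK.mul_mem (KK.inv_mem hg) hf) hfC
    refine ⟨a.tr g, List.mem_map_of_mem ha, ?_⟩
    change g * a.f = f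
    rw [h, mul_inv_cancel_left]
  dis := by
    change (S.rs.map (Rec.tr g)).Pairwise _
    rw [List.pairwise_map]
    exact hS.dis.imp (fun h h' => h (mul_left_cancel h'))
  ord := by
    change (S.rs.map (Rec.tr g)).Pairwise _
    rw [List.pairwise_map]
    refine hS.ord.imp (fun {a b} h x hx j hB => ?_)
    rw [Rec.tr_cur, Pos.mem_tr] at hx
    change g⁻¹ * (x * gen j) ∈ S.q.C
    rw [← mul_assoc]
    apply h _ hx j
    change (g * b.f)⁻¹ * (x * gen j) ∈ B2 at hB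
    rw [mul_inv_rev, mul_assoc] at hB
    rw [mul_assoc]
    exact hB

theorem Lw.tr {S S' : DS} (h : Lw S S') (g : Gam) : Lw (S.tr g) (S'.tr g) := by
  refine ⟨h.le.tr g, fun a ha => ?_⟩
  obtain ⟨b, hb, rfl⟩ := List.mem_map.mp ha
  obtain ⟨b', h1, h2⟩ := h.rs b hb
  exact ⟨b'.tr g, List.mem_map_of_mem h1, ⟨by
    change g * b'.f = g * b.f
    rw [h2.f], h2.k, h2.p, h2.h⟩⟩

theorem Ls.tr {r : ℝ} {S S' : DS} (h : Ls r S S') (g : Gam) : Ls r (S.tr g) (S'.tr g) := by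
  refine ⟨h.le.tr g, fun a ha => ?_, h.re, fun k hk => ?_⟩
  · obtain ⟨b, hb, rfl⟩ := List.mem_map.mp ha
    obtain ⟨b', h1, h2, h3, h4⟩ := h.rs b hb
    refine ⟨b'.tr g, List.mem_map_of_mem h1, ⟨by
      change g * b'.f = g * b.f
      rw [h2.f], h2.k, h2.p, h2.h⟩, h3, ?_⟩
    rw [Rec.tr_cur]
    exact h4.tr g
  · obtain ⟨a, ha, h1⟩ := h.kk k hk
    exact ⟨a.tr g, List.mem_map_of_mem ha, h1⟩

/-! ### Merges -/

theorem exists_merge {S S' : DS} (hS : S.Va σ) (hS' : S'.Va σ)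
    (hd : ∀ g ∈ S.q.C, g ∉ S'.q.C) : ∃ M : DS, M.Va σ ∧ Lw S M ∧ Lw S' M := by
  set q := Pos.mrg S.q S'.q hd with hq
  have h1 : Pos.Le S.q q := Pos.le_mrg_left _ _ _
  have h2 : Pos.Le S'.q q := Pos.le_mrg_right _ _ _
  have hm : ∀ g, g ∈ q.C ↔ g ∈ S.q.C ∨ g ∈ S'.q.C := fun g => Iff.rfl
  refine ⟨⟨q, S.rs ++ S'.rs⟩, ⟨?_, ?_, ?_, ?_, ?_⟩, ?_, ?_⟩
  · intro g hg f hf hB
    rcases (hm g).mp hg with h3 | h3
    · exact (hm f).mpr (Or.inl (hS.pc g h3 f hf hB))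
    · exact (hm f).mpr (Or.inr (hS'.pc g h3 f hf hB))
  · intro a ha
    rcases List.mem_append.mp ha with ha | ha
    · have h0 := hS.ok a ha
      refine ⟨h0.root, h1.C h0.memf, h0.gd, h0.leg, h0.odd, h0.con, h0.le.trans h1, ?_⟩
      intro g hg hB
      rcases (hm g).mp hg with h3 | h3
      · exact h0.out g h3 hB
      · exact absurd (hS'.pc g h3 a.f h0.root hB) (hd _ h0.memf)
    · have h0 := hS'.ok a ha
      refine ⟨h0.root, h2.C h0.memf, h0.gd, h0.leg, h0.odd, h0.con, h0.le.trans h2, ?_⟩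
      intro g hg hB
      rcases (hm g).mp hg with h3 | h3
      · exact absurd h0.memf (hd _ (hS.pc g h3 a.f h0.root hB))
      · exact h0.out g h3 hB
  · intro f hf hfC
    rcases (hm f).mp hfC with h3 | h3
    · obtain ⟨a, ha, h4⟩ := hS.all f hf h3
      exact ⟨a, List.mem_append_left _ ha, h4⟩
    · obtain ⟨a, ha, h4⟩ := hS'.all f hf h3
      exact ⟨a, List.mem_append_right _ ha, h4⟩
  · rw [List.pairwise_append]
    refine ⟨hS.dis, hS'.dis, fun a ha b hb h3 => ?_⟩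
    apply hd _ (hS.ok a ha).memf
    rw [h3]; exact (hS'.ok b hb).memf
  · rw [List.pairwise_append]
    refine ⟨hS.ord.imp (fun h g hg j hB => h1.C (h g hg j hB)),
      hS'.ord.imp (fun h g hg j hB => h2.C (h g hg j hB)), ?_⟩
    intro a ha b hb g hg j hB
    exfalso
    have hgC : g ∈ S.q.C := (hS.ok a ha).le.C hg
    have hb0 := hS'.ok b hb
    by_cases h3 : b.f⁻¹ * g ∈ B2
    · exact hd _ (hS.pc g hgC b.f hb0.root h3) hb0.memf
    · rw [← mul_assoc] at hB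
      have h4 := (cross_out h3 hB).1
      rw [inv_mul_eq_one] at h4
      apply hd _ hgC
      rw [← h4]; exact hb0.memf
  · exact ⟨h1, fun a ha => ⟨a, List.mem_append_left _ ha, Ex.refl a⟩⟩
  · exact ⟨h2, fun a ha => ⟨a, List.mem_append_right _ ha, Ex.refl a⟩⟩

/-- The empty state. -/
def DS.emp : DS := ⟨⟨0, ∅, fun _ _ => 0, ∅, Set.finite_empty, Set.countable_empty,
  fun _ h => absurd h (Set.notMem_empty _)⟩, []⟩

theorem DS.emp_va : DS.emp.Va σ where
  pc := fun g hg => absurd hg (Set.notMem_empty g)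
  ok := fun a ha => by simp [DS.emp] at ha
  all := fun f _ hf => absurd hf (Set.notMem_empty f)
  dis := List.Pairwise.nil
  ord := List.Pairwise.nil

end Pool.Agent.Lib.P43c499
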