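import Mathlib

set_option autoImplicit false
set_option linter.style.haveILetI false

namespace Pool.Agent.Lib.P43c499.NoHom

open Monoid

/-- Free product of three copies of `Z/2`. -/
abbrev Gam := Monoid.CoprodI (fun _ : Fin 3 => Multiplicative (ZMod 2))
/-- The generators. -/
def gen (i : Fin 3) : Gam := Monoid.CoprodI.of (i := i) (Multiplicative.ofAdd (1 : ZMod 2))
/-- Shift action. -/
def shift {β : Type} (γ : Gam) (x : Gam → β) : Gam → β := fun δ => x (γ⁻¹ * δ)
/-- Free points. -/
def IsFree (x : Gam → Bool) : Prop := ∀ γ : Gam, γ ≠ 1 → shift γ x ≠ x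
/-- Injective maps into a single `E₀` class. -/
def EZ (u : Gam → ℕ → ℕ) : Prop := Function.Injective u ∧ ∀ g h, ∃ n, ∀ m, n ≤ m → u g m = u h m

abbrev Mf : Fin 3 → Type := fun _ => Multiplicative (ZMod 2)

/-- The reduced word. -/
def wd (g : Gam) : CoprodI.Word Mf := CoprodI.Word.equiv g

/-- Word length. -/
def len (g : Gam) : ℕ := (wd g).toList.length

/-- First letter. -/
def fst (g : Gam) : Option (Fin 3) := (wd g).fstIdx

theorem wd_mul (h g : Gam) : wd (h * g) = h • wd g := by
  show (h * g) • (CoprodI.Word.empty : CoprodI.Word Mf)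
    = h • (g • (CoprodI.Word.empty : CoprodI.Word Mf))
  exact mul_smul h g _

theorem gen_mul_self (i : Fin 3) : gen i * gen i = 1 := by
  unfold gen
  rw [← map_mul]
  have : (Multiplicative.ofAdd (1 : ZMod 2)) * Multiplicative.ofAdd (1 : ZMod 2) = 1 := by decide
  rw [this, map_one]

theorem gen_inv (i : Fin 3) : (gen i)⁻¹ = gen i := inv_eq_of_mul_eq_one_left (gen_mul_self i)

theorem gen_mul_gen_mul (i : Fin 3) (g : Gam) : gen i * (gen i * g) = g := by
  rw [← mul_assoc, gen_mul_self, one_mul]

theorem fst_ne_case (i : Fin 3) (g : Gam) (h : fst g ≠ some i) :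
    len (gen i * g) = len g + 1 ∧ fst (gen i * g) = some i := by
  have h1 : (Multiplicative.ofAdd (1 : ZMod 2)) ≠ 1 := by decide
  have h2 : wd (gen i * g) = CoprodI.Word.cons (M := Mf) (i := i)
      (Multiplicative.ofAdd (1 : ZMod 2)) (wd g) h h1 := by
    rw [wd_mul, CoprodI.Word.cons_eq_smul]
    rfl
  refine ⟨?_, ?_⟩
  · unfold len
    rw [h2]
    simp [CoprodI.Word.cons]
  · unfold fst
    rw [h2, CoprodI.Word.fstIdx_cons]

theorem fst_eq_case (i : Fin 3) (g : Gam) (h : fst g = some i) :
    len g = len (gen i * g) + 1 ∧ fst (gen i * g) ≠ some i := by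
  have key : fst (gen i * g) ≠ some i := by
    set p := CoprodI.Word.equivPair i (wd g) with hp
    have h1 : CoprodI.Word.rcons p = wd g := by
      rw [← CoprodI.Word.equivPair_symm, hp, Equiv.symm_apply_apply]
    have h2 : p.head ≠ 1 := by
      intro h0
      have h3 : CoprodI.Word.rcons p = p.tail := by
        rw [CoprodI.Word.rcons, dif_pos h0]
      have h4 := p.fstIdx_ne
      rw [← h3, h1] at h4
      exact h4 h
    have h5 : p.head = Multiplicative.ofAdd (1 : ZMod 2) := by
      revert h2
      generalize p.head = m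
      revert m
      show ∀ m : Multiplicative (ZMod 2), m ≠ 1 → m = Multiplicative.ofAdd 1
      decide
    have h6 : wd (gen i * g) = p.tail := by
      rw [wd_mul, ← h1, CoprodI.Word.rcons_eq_smul, h5]
      show gen i • (gen i • p.tail) = p.tail
      rw [smul_smul, gen_mul_self, one_smul]
    unfold fst
    rw [h6]
    exact p.fstIdx_ne
  refine ⟨?_, key⟩
  have := (fst_ne_case i (gen i * g) key).1
  rw [gen_mul_gen_mul] at this
  exact this

instance : Countable Gam := by
  have h1 : Function.Injective (fun g : Gam => (wd g).toList) := by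
    intro g h hgh
    have : wd g = wd h := CoprodI.Word.ext hgh
    exact CoprodI.Word.equiv.injective this
  haveI : Countable (Σ i : Fin 3, Mf i) := inferInstance
  exact h1.countable

instance : Infinite Gam := by
  by_contra hfin
  rw [not_infinite_iff_finite] at hfin
  obtain ⟨g, hg⟩ := Finite.exists_max len
  have : ∃ i : Fin 3, fst g ≠ some i := by
    by_contra hcon
    push Not at hcon
    have h0 := hcon 0
    have h1 := hcon 1
    rw [h0] at h1
    simp at h1
  obtain ⟨i, hi⟩ := this
  have h2 := (fst_ne_case i g hi).1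
  have h3 := hg (gen i * g)
  omega

/-- Parity character. -/
def par : Gam →* Multiplicative (ZMod 2) :=
  CoprodI.lift (fun _ => MonoidHom.id (Multiplicative (ZMod 2)))

theorem par_gen (i : Fin 3) : par (gen i) = Multiplicative.ofAdd (1 : ZMod 2) := by
  unfold par gen
  rw [CoprodI.lift_of]
  rfl

theorem par_gen_mul (i : Fin 3) (g : Gam) : par (gen i * g) = 1 ↔ ¬ par g = 1 := by
  rw [map_mul, par_gen]
  generalize par g = m
  revert m
  decide

/-! ### Total length of a finite set -/

open Pointwise in
/-- The finite set `gen i • S`. -/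
def act (i : Fin 3) (S : Finset Gam) : Finset Gam := S.image (fun g => gen i * g)

theorem act_act (i : Fin 3) (S : Finset Gam) : act i (act i S) = S := by
  unfold act
  rw [Finset.image_image]
  have : (fun g => gen i * g) ∘ (fun g => gen i * g) = id := by
    ext g
    simp only [Function.comp, gen_mul_gen_mul, id]
  rw [this, Finset.image_id]

theorem act_inj (i : Fin 3) : Function.Injective (act i) :=
  Function.LeftInverse.injective (act_act i)

/-- Sum of word lengths. -/
def tl (S : Finset Gam) : ℤ := ∑ g ∈ S, (len g : ℤ)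

/-- Number of elements starting with letter `i`. -/
def ni (i : Fin 3) (S : Finset Gam) : ℕ := (S.filter (fun g => fst g = some i)).card

theorem tl_act (i : Fin 3) (S : Finset Gam) :
    tl (act i S) = tl S + S.card - 2 * ni i S := by
  unfold tl act
  rw [Finset.sum_image (by intro a _ b _ h; exact mul_left_cancel h)]
  have h1 : ∀ g ∈ S, (len (gen i * g) : ℤ) = len g + (1 - 2 * (if fst g = some i then 1 else 0)) := by
    intro g _
    by_cases h : fst g = some i
    · have := (fst_eq_case i g h).1
      rw [if_pos h]; omega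
    · have := (fst_ne_case i g h).1
      rw [if_neg h]; omega
  rw [Finset.sum_congr rfl h1, Finset.sum_add_distrib, Finset.sum_sub_distrib, ← Finset.mul_sum]
  unfold ni
  rw [Finset.card_filter]
  push_cast
  simp
  ring

theorem ni_sum (S : Finset Gam) : ni 0 S + ni 1 S + ni 2 S ≤ S.card := by
  unfold ni
  rw [Finset.card_filter, Finset.card_filter, Finset.card_filter, ← Finset.sum_add_distrib,
    ← Finset.sum_add_distrib, Finset.card_eq_sum_ones]
  apply Finset.sum_le_sum
  intro g _
  rcases hg : fst g with _ | j
  · simp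
  · fin_cases j <;> simp

/-- The weight of a finite set in direction `i`. -/
noncomputable def al (i : Fin 3) (S : Finset Gam) : ℝ :=
  if tl (act i S) < tl S then 3 / 2 else if tl S < tl (act i S) then 2 / 3 else 1

theorem al_pos (i : Fin 3) (S : Finset Gam) : 0 < al i S := by
  unfold al; split_ifs <;> norm_num

theorem al_act (i : Fin 3) (S : Finset Gam) : al i (act i S) = (al i S)⁻¹ := by
  unfold al
  rw [act_act]
  split_ifs with h1 h2 <;> first | (exfalso; omega) | norm_num

theorem al_sum (S : Finset Gam) (hS : S.Nonempty) : al 0 S + al 1 S + al 2 S ≤ 17 / 6 := by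
  have hc : 0 < S.card := hS.card_pos
  have hn := ni_sum S
  have h0 := tl_act 0 S
  have h1 := tl_act 1 S
  have h2 := tl_act 2 S
  unfold al
  split_ifs <;> first | (exfalso; omega) | norm_num

end Pool.Agent.Lib.P43c499.NoHom
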