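import Mathlib
import Pool.Agent.Lib.P43c499.Words

set_option autoImplicit false
set_option linter.style.haveILetI false

namespace Pool.Agent.Lib.P43c499.NoHom

open MeasureTheory Monoid
open scoped ENNReal

/-! ### The coin flipping measure -/

/-- Fair coin. -/
noncomputable def coin : Measure Bool :=
  (2⁻¹ : ℝ≥0∞) • Measure.dirac true + (2⁻¹ : ℝ≥0∞) • Measure.dirac false

instance : IsProbabilityMeasure coin := by
  constructor
  simp [coin, ENNReal.inv_two_add_inv_two]

open Classical in
theorem coin_apply (t : Set Bool) : coin t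
    = 2⁻¹ * (if true ∈ t then 1 else 0) + 2⁻¹ * (if false ∈ t then 1 else 0) := by
  simp only [coin, Measure.add_apply, Measure.smul_apply, smul_eq_mul]
  rw [Measure.dirac_apply' _ (MeasurableSet.of_discrete),
    Measure.dirac_apply' _ (MeasurableSet.of_discrete)]
  simp only [Set.indicator, Pi.one_apply]

theorem coin_not (t : Set Bool) : coin ((fun b => !b) ⁻¹' t) = coin t := by
  classical
  rw [coin_apply, coin_apply, add_comm]
  rfl

/-- The product measure. -/
noncomputable def mu : Measure (Gam → Bool) := Measure.infinitePi (fun _ : Gam => coin)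

instance : IsProbabilityMeasure mu := by unfold mu; infer_instance

/-- Twisted permutation of the coordinates. -/
def tw (σ : Equiv.Perm Gam) (e : Gam → Bool → Bool) (x : Gam → Bool) : Gam → Bool :=
  fun g => e g (x (σ g))

theorem measurable_tw (σ : Equiv.Perm Gam) (e : Gam → Bool → Bool) : Measurable (tw σ e) := by
  rw [measurable_pi_iff]
  intro g
  exact (measurable_of_countable (e g)).comp (measurable_pi_apply (σ g))

theorem map_tw (σ : Equiv.Perm Gam) (e : Gam → Bool → Bool)
    (he : ∀ g, e g = id ∨ e g = fun b => !b) : mu.map (tw σ e) = mu := by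
  classical
  unfold mu
  apply Measure.eq_infinitePi
  intro s t'' ht
  obtain ⟨t, rfl⟩ : ∃ t : Gam → Set Bool, t = t'' := ⟨_, rfl⟩
  rw [Measure.map_apply (measurable_tw σ e) (MeasurableSet.pi s.countable_toSet (fun i _ => ht i))]
  have h1 : tw σ e ⁻¹' (Set.pi (s : Set Gam) t)
      = Set.pi ((s.image σ : Finset Gam) : Set Gam) (fun h => e (σ.symm h) ⁻¹' (t (σ.symm h))) := by
    ext x
    constructor
    · intro hx h hh
      obtain ⟨g, hg, rfl⟩ := Finset.mem_image.1 (Finset.mem_coe.1 hh)
      have := hx g (Finset.mem_coe.2 hg)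
      simpa [tw] using this
    · intro hx g hg
      have := hx (σ g) (Finset.mem_coe.2 (Finset.mem_image_of_mem _ (Finset.mem_coe.1 hg)))
      simpa [tw] using this
  rw [h1, Measure.infinitePi_pi _ (fun i _ => MeasurableSet.of_discrete),
    Finset.prod_image (by intro a _ b _ h; exact σ.injective h)]
  apply Finset.prod_congr rfl
  intro g _
  let t' : Gam → Set Bool := t
  show coin (e (σ.symm (σ g)) ⁻¹' (t' (σ.symm (σ g)))) = coin (t' g)
  rw [Equiv.symm_apply_apply]
  rcases he g with h | h
  · rw [h]; rfl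
  · rw [h]; exact coin_not _

theorem mp_tw (σ : Equiv.Perm Gam) (e : Gam → Bool → Bool)
    (he : ∀ g, e g = id ∨ e g = fun b => !b) : MeasurePreserving (tw σ e) mu mu :=
  ⟨measurable_tw σ e, map_tw σ e he⟩

theorem mp_shift (γ : Gam) : MeasurePreserving (shift (β := Bool) γ) mu mu := by
  have h := mp_tw (Equiv.mulLeft γ⁻¹) (fun _ => id) (fun _ => Or.inl rfl)
  exact h

/-- Flip the coordinate `a`. -/
def flip (a : Gam) (x : Gam → Bool) : Gam → Bool := fun g => if g = a then !(x g) else x g

theorem mp_flip (a : Gam) : MeasurePreserving (flip a) mu mu := by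
  have h := mp_tw (Equiv.refl Gam) (fun g => if g = a then (fun b => !b) else id)
    (fun g => by by_cases hg : g = a <;> simp [hg])
  have h2 : tw (Equiv.refl Gam) (fun g => if g = a then (fun b => !b) else id) = flip a := by
    ext x g
    simp only [tw, flip, Equiv.refl_apply]
    by_cases hg : g = a <;> simp [hg]
  rwa [h2] at h

theorem flip_flip (a : Gam) (x : Gam → Bool) : flip a (flip a x) = x := by
  ext g
  by_cases hg : g = a <;> simp [flip, hg]

/-! ### Almost every point is free -/

theorem free_aux (γ : Gam) (hγ : γ ≠ 1) (n : ℕ) :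
    ∃ s : Finset Gam, ∃ A : Set (Gam → Bool), MeasurableSet A ∧
      (∀ x y : Gam → Bool, (∀ g ∈ s, x g = y g) → (x ∈ A → y ∈ A)) ∧
      {x | shift γ x = x} ⊆ A ∧ mu A ≤ (2⁻¹ : ℝ≥0∞) ^ n := by
  classical
  induction n with
  | zero => exact ⟨∅, Set.univ, MeasurableSet.univ, fun _ _ _ _ => trivial, Set.subset_univ _, by simp⟩
  | succ n ih =>
    obtain ⟨s, A, hA, hs, hsub, hmu⟩ := ih
    obtain ⟨a, ha⟩ := Infinite.exists_notMem_finset s
    set b := γ⁻¹ * a with hb
    have hab : b ≠ a := by
      intro h
      apply hγ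
      have : γ⁻¹ * a = 1 * a := by rw [one_mul]; exact h
      have := mul_right_cancel this
      rwa [inv_eq_one] at this
    set E : Set (Gam → Bool) := {x | x b = x a} with hE
    have hEm : MeasurableSet E := measurableSet_eq_fun (measurable_pi_apply b) (measurable_pi_apply a)
    refine ⟨insert a (insert b s), A ∩ E, hA.inter hEm, ?_, ?_, ?_⟩
    · rintro x y hxy ⟨hxA, hxE⟩
      refine ⟨hs x y (fun g hg => hxy g (by simp [hg])) hxA, ?_⟩
      show y b = y a
      rw [← hxy a (by simp), ← hxy b (by simp)]
      exact hxE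
    · intro x hx
      refine ⟨hsub hx, ?_⟩
      show x b = x a
      exact congrFun (show shift γ x = x from hx) a
    · have h1 : flip a ⁻¹' (A ∩ E) = A \ E := by
        ext x
        have hAf : flip a x ∈ A ↔ x ∈ A := by
          constructor
          · intro h
            refine hs _ _ ?_ h
            intro g hg
            have : g ≠ a := fun h => ha (h ▸ hg)
            simp [flip, this]
          · intro h
            refine hs _ _ ?_ h
            intro g hg
            have : g ≠ a := fun h => ha (h ▸ hg)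
            simp [flip, this]
        have hEf : flip a x ∈ E ↔ x ∉ E := by
          show (flip a x b = flip a x a) ↔ ¬ (x b = x a)
          simp only [flip, hab, if_false, if_true]
          cases x b <;> cases x a <;> simp
        simp only [Set.mem_preimage, Set.mem_inter_iff, Set.mem_sdiff, hAf, hEf]
      have h2 : mu (A \ E) = mu (A ∩ E) := by
        rw [← h1, (mp_flip a).measure_preimage (hA.inter hEm).nullMeasurableSet]
      have h3 : mu (A ∩ E) + mu (A \ E) = mu A := measure_inter_add_sdiff A hEm
      have h4 : 2 * mu (A ∩ E) ≤ (2⁻¹ : ℝ≥0∞) ^ n := by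
        rw [two_mul]
        calc mu (A ∩ E) + mu (A ∩ E) = mu A := by rw [← h3, h2]
          _ ≤ _ := hmu
      calc mu (A ∩ E) = 2⁻¹ * (2 * mu (A ∩ E)) := by
            rw [← mul_assoc, ENNReal.inv_mul_cancel (by norm_num) (by norm_num), one_mul]
        _ ≤ 2⁻¹ * (2⁻¹ : ℝ≥0∞) ^ n := by gcongr
        _ = (2⁻¹ : ℝ≥0∞) ^ (n + 1) := by rw [pow_succ]; ring

theorem ae_free : ∀ᵐ x ∂mu, IsFree x := by
  have h : ∀ γ : Gam, ∀ᵐ x ∂mu, γ ≠ 1 → shift γ x ≠ x := by
    intro γ
    by_cases hγ : γ = 1
    · filter_upwards with x h; exact absurd hγ h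
    · have h0 : mu {x | shift γ x = x} = 0 := by
        apply le_antisymm _ bot_le
        have h1 : ∀ n : ℕ, mu {x | shift γ x = x} ≤ (2⁻¹ : ℝ≥0∞) ^ n := by
          intro n
          obtain ⟨s, A, -, -, hsub, hmu⟩ := free_aux γ hγ n
          exact (measure_mono hsub).trans hmu
        have h2 : Filter.Tendsto (fun n : ℕ => (2⁻¹ : ℝ≥0∞) ^ n) Filter.atTop (nhds 0) :=
          ENNReal.tendsto_pow_atTop_nhds_zero_of_lt_one (by
            rw [ENNReal.inv_lt_one]; norm_num)
        exact ge_of_tendsto' h2 h1
      rw [ae_iff]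
      have h3 : {a : Gam → Bool | ¬(γ ≠ 1 → shift γ a ≠ a)} = {x | shift γ x = x} := by
        ext x; simp [hγ]
      rw [h3, h0]
  have h' := ae_all_iff.2 h
  filter_upwards [h'] with x hx γ hγ
  exact hx γ hγ

/-! ### Walsh functions -/

/-- `±1` version of a bit. -/
def sg (b : Bool) : ℝ := if b then 1 else -1

theorem sg_mul_self (b : Bool) : sg b * sg b = 1 := by cases b <;> simp [sg]

theorem sg_not (b : Bool) : sg (!b) = - sg b := by cases b <;> simp [sg]

/-- Walsh function. -/
def wal (S : Finset Gam) (x : Gam → Bool) : ℝ := ∏ s ∈ S, sg (x s)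

theorem wal_sq (S : Finset Gam) (x : Gam → Bool) : wal S x * wal S x = 1 := by
  unfold wal
  rw [← Finset.prod_mul_distrib]
  exact Finset.prod_eq_one (fun s _ => sg_mul_self _)

theorem wal_mul (S T : Finset Gam) (x : Gam → Bool) :
    wal S x * wal T x = wal (symmDiff S T) x := by
  classical
  have h1 : wal S x = wal (S \ T) x * wal (S ∩ T) x := by
    unfold wal
    rw [mul_comm, Finset.prod_inter_mul_prod_sdiff]
  have h2 : wal T x = wal (T \ S) x * wal (S ∩ T) x := by
    unfold wal
    rw [mul_comm, Finset.inter_comm, Finset.prod_inter_mul_prod_sdiff]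
  have h3 : wal (symmDiff S T) x = wal (S \ T) x * wal (T \ S) x := by
    unfold wal
    rw [symmDiff_def, Finset.sup_eq_union, Finset.prod_union]
    exact disjoint_sdiff_sdiff
  rw [h1, h2, h3]
  have := wal_sq (S ∩ T) x
  linear_combination (wal (S \ T) x * wal (T \ S) x) * this

theorem measurable_wal (S : Finset Gam) : Measurable (wal S) := by
  unfold wal
  apply Finset.measurable_prod
  intro s _
  exact (measurable_of_countable sg).comp (measurable_pi_apply s)

theorem abs_wal (S : Finset Gam) (x : Gam → Bool) : |wal S x| = 1 := by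
  have h := wal_sq S x
  rcases mul_self_eq_one_iff.1 h with h | h <;> rw [h] <;> simp

theorem integrable_wal (S : Finset Gam) : Integrable (wal S) mu := by
  apply Integrable.of_bound (measurable_wal S).aestronglyMeasurable 1
  filter_upwards with x
  rw [Real.norm_eq_abs, abs_wal]

theorem integral_wal (S : Finset Gam) : ∫ x, wal S x ∂mu = if S = ∅ then 1 else 0 := by
  classical
  split_ifs with h
  · subst h
    simp [wal]
  · obtain ⟨a, ha⟩ := Finset.nonempty_iff_ne_empty.2 h
    have h1 : ∀ x, wal S (flip a x) = - wal S x := by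
      intro x
      unfold wal
      rw [← Finset.mul_prod_erase S _ ha, ← Finset.mul_prod_erase S (fun s => sg (x s)) ha]
      have h2 : flip a x a = !(x a) := by simp [flip]
      rw [h2, sg_not]
      have h3 : ∏ s ∈ S.erase a, sg (flip a x s) = ∏ s ∈ S.erase a, sg (x s) := by
        apply Finset.prod_congr rfl
        intro s hs
        have : s ≠ a := (Finset.mem_erase.1 hs).1
        simp [flip, this]
      rw [h3]; ring
    have h2 : ∫ x, wal S (flip a x) ∂mu = ∫ x, wal S x ∂mu := by
      have := (mp_flip a).map_eq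
      conv_rhs => rw [← this]
      rw [integral_map (mp_flip a).measurable.aemeasurable
        (measurable_wal S).aestronglyMeasurable]
    simp only [h1, integral_neg] at h2
    linarith

theorem integral_wal_mul (S T : Finset Gam) :
    ∫ x, wal S x * wal T x ∂mu = if S = T then 1 else 0 := by
  classical
  simp only [wal_mul]
  rw [integral_wal]
  by_cases h : S = T
  · simp [h]
  · rw [if_neg h, if_neg]
    intro h2
    apply h
    rwa [← Finset.bot_eq_empty, symmDiff_eq_bot] at h2

theorem wal_shift (i : Fin 3) (S : Finset Gam) (x : Gam → Bool) :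
    wal S (shift (gen i) x) = wal (act i S) x := by
  unfold wal act
  rw [Finset.prod_image (by intro a _ b _ h; exact mul_left_cancel h)]
  apply Finset.prod_congr rfl
  intro s _
  unfold shift
  rw [gen_inv]

/-- Walsh polynomial with given coefficients. -/
noncomputable def wp (D : Finset (Finset Gam)) (c : Finset Gam → ℝ) (x : Gam → Bool) : ℝ :=
  ∑ S ∈ D, c S * wal S x

theorem integral_wp_mul (D : Finset (Finset Gam)) (c : Finset Gam → ℝ) :
    ∫ x, wp D c x * wp D c x ∂mu = ∑ S ∈ D, c S ^ 2 := by
  classical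
  unfold wp
  simp only [Finset.sum_mul_sum]
  rw [integral_finsetSum]
  · apply Finset.sum_congr rfl
    intro S hS
    rw [integral_finsetSum]
    · have : ∀ T ∈ D, ∫ x, c S * wal S x * (c T * wal T x) ∂mu
          = if S = T then c S * c T else 0 := by
        intro T _
        have h1 : (fun x => c S * wal S x * (c T * wal T x))
            = fun x => (c S * c T) * (wal S x * wal T x) := by
          ext x; ring
        rw [h1, integral_const_mul, integral_wal_mul]
        split_ifs <;> simp
      rw [Finset.sum_congr rfl this, Finset.sum_ite_eq, if_pos hS]; ring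
    · intro T _
      have h1 : (fun x => c S * wal S x * (c T * wal T x))
          = fun x => (c S * c T) * wal (symmDiff S T) x := by
        ext x; rw [← wal_mul]; ring
      rw [h1]
      exact (integrable_wal _).const_mul _
  · intro S _
    apply integrable_finsetSum
    intro T _
    have h1 : (fun x => c S * wal S x * (c T * wal T x))
        = fun x => (c S * c T) * wal (symmDiff S T) x := by
      ext x; rw [← wal_mul]; ring
    rw [h1]
    exact (integrable_wal _).const_mul _

theorem integral_wp_shift (D : Finset (Finset Gam)) (c : Finset Gam → ℝ)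
    (hc : ∀ S, S ∉ D → c S = 0) (i : Fin 3) :
    ∫ x, wp D c (shift (gen i) x) * wp D c x ∂mu = ∑ S ∈ D, c S * c (act i S) := by
  classical
  unfold wp
  simp only [Finset.sum_mul_sum, wal_shift]
  rw [integral_finsetSum]
  · apply Finset.sum_congr rfl
    intro S hS
    rw [integral_finsetSum]
    · have : ∀ T ∈ D, ∫ x, c S * wal (act i S) x * (c T * wal T x) ∂mu
          = if act i S = T then c S * c T else 0 := by
        intro T _
        have h1 : (fun x => c S * wal (act i S) x * (c T * wal T x))
            = fun x => (c S * c T) * (wal (act i S) x * wal T x) := by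
          ext x; ring
        rw [h1, integral_const_mul, integral_wal_mul]
        split_ifs <;> simp
      rw [Finset.sum_congr rfl this, Finset.sum_ite_eq]
      by_cases h : act i S ∈ D
      · rw [if_pos h]
      · rw [if_neg h, hc _ h, mul_zero]
    · intro T _
      have h1 : (fun x => c S * wal (act i S) x * (c T * wal T x))
          = fun x => (c S * c T) * wal (symmDiff (act i S) T) x := by
        ext x; rw [← wal_mul]; ring
      rw [h1]
      exact (integrable_wal _).const_mul _
  · intro S _
    apply integrable_finsetSum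
    intro T _
    have h1 : (fun x => c S * wal (act i S) x * (c T * wal T x))
        = fun x => (c S * c T) * wal (symmDiff (act i S) T) x := by
      ext x; rw [← wal_mul]; ring
    rw [h1]
    exact (integrable_wal _).const_mul _

theorem act_empty (i : Fin 3) : act i ∅ = ∅ := by simp [act]

theorem term_bound (D : Finset (Finset Gam)) (c : Finset Gam → ℝ)
    (hc : ∀ S, S ∉ D → c S = 0) (i : Fin 3) :
    - ∑ S ∈ D.erase ∅, al i S * c S ^ 2 ≤ ∑ S ∈ D, c S * c (act i S) := by
  classical
  have h1 : ∑ S ∈ D.erase ∅, c S * c (act i S) ≤ ∑ S ∈ D, c S * c (act i S) := by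
    by_cases h : ∅ ∈ D
    · rw [← Finset.add_sum_erase D _ h, act_empty]
      nlinarith [mul_self_nonneg (c ∅)]
    · rw [Finset.erase_eq_of_notMem h]
  refine le_trans ?_ h1
  have h2 : ∀ S ∈ D.erase ∅, -(1 / 2) * (al i S * c S ^ 2 + (al i S)⁻¹ * c (act i S) ^ 2)
      ≤ c S * c (act i S) := by
    intro S _
    have ha := al_pos i S
    have hb : 0 < (al i S)⁻¹ := inv_pos.2 ha
    have h3 : al i S * (al i S)⁻¹ = 1 := mul_inv_cancel₀ ha.ne'
    have h4 : 0 ≤ al i S * (c S + (al i S)⁻¹ * c (act i S)) ^ 2 := by positivity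
    have h5 : al i S * (c S + (al i S)⁻¹ * c (act i S)) ^ 2
        = al i S * c S ^ 2 + (al i S)⁻¹ * c (act i S) ^ 2 + 2 * (c S * c (act i S)) := by
      have : al i S * (c S + (al i S)⁻¹ * c (act i S)) ^ 2
        = al i S * c S ^ 2 + (al i S * (al i S)⁻¹) * ((al i S)⁻¹ * c (act i S) ^ 2)
          + 2 * (al i S * (al i S)⁻¹) * (c S * c (act i S)) := by ring
      rw [this, h3]; ring
    rw [h5] at h4
    linarith
  refine le_trans ?_ (Finset.sum_le_sum h2)
  rw [← Finset.mul_sum, Finset.sum_add_distrib]
  have h6 : ∑ S ∈ D.erase ∅, (al i S)⁻¹ * c (act i S) ^ 2 ≤ ∑ S ∈ D.erase ∅, al i S * c S ^ 2 := by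
    set D' := (D.erase ∅).filter (fun S => act i S ∈ D.erase ∅) with hD'
    have h7 : ∑ S ∈ D.erase ∅, (al i S)⁻¹ * c (act i S) ^ 2
        = ∑ S ∈ D', (al i S)⁻¹ * c (act i S) ^ 2 := by
      rw [hD', Finset.sum_filter]
      apply Finset.sum_congr rfl
      intro S hS
      by_cases h : act i S ∈ D.erase ∅
      · rw [if_pos h]
      · rw [if_neg h]
        have hne : act i S ≠ ∅ := by
          intro h0
          have : act i (act i S) = ∅ := by rw [h0, act_empty]
          rw [act_act] at this
          exact (Finset.mem_erase.1 hS).1 this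
        have : c (act i S) = 0 := hc _ (fun hD => h (Finset.mem_erase.2 ⟨hne, hD⟩))
        rw [this]; ring
    have h8 : ∑ S ∈ D', (al i S)⁻¹ * c (act i S) ^ 2 = ∑ S ∈ D', al i S * c S ^ 2 := by
      apply Finset.sum_nbij' (act i) (act i)
      · intro S hS
        rw [hD', Finset.mem_filter] at hS ⊢
        exact ⟨hS.2, by rw [act_act]; exact hS.1⟩
      · intro S hS
        rw [hD', Finset.mem_filter] at hS ⊢
        exact ⟨hS.2, by rw [act_act]; exact hS.1⟩
      · intro S _; exact act_act i S
      · intro S _; exact act_act i S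
      · intro S _
        rw [al_act]
    rw [h7, h8, hD']
    apply Finset.sum_le_sum_of_subset_of_nonneg (Finset.filter_subset _ _)
    intro S _ _
    have := al_pos i S
    positivity
  linarith

theorem spectral_finite (D : Finset (Finset Gam)) (c : Finset Gam → ℝ)
    (hc : ∀ S, S ∉ D → c S = 0) :
    -(17 / 6) * ∑ S ∈ D, c S ^ 2
      ≤ ∑ S ∈ D, c S * c (act 0 S) + ∑ S ∈ D, c S * c (act 1 S) + ∑ S ∈ D, c S * c (act 2 S) := by
  classical
  have h0 := term_bound D c hc 0
  have h1 := term_bound D c hc 1
  have h2 := term_bound D c hc 2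
  have h3 : ∑ S ∈ D.erase ∅, al 0 S * c S ^ 2 + ∑ S ∈ D.erase ∅, al 1 S * c S ^ 2
      + ∑ S ∈ D.erase ∅, al 2 S * c S ^ 2 ≤ (17 / 6) * ∑ S ∈ D.erase ∅, c S ^ 2 := by
    rw [← Finset.sum_add_distrib, ← Finset.sum_add_distrib, Finset.mul_sum]
    apply Finset.sum_le_sum
    intro S hS
    have hne : S.Nonempty := Finset.nonempty_iff_ne_empty.2 (Finset.mem_erase.1 hS).1
    have := al_sum S hne
    nlinarith [sq_nonneg (c S)]
  have h4 : ∑ S ∈ D.erase ∅, c S ^ 2 ≤ ∑ S ∈ D, c S ^ 2 :=
    Finset.sum_le_sum_of_subset_of_nonneg (Finset.erase_subset _ _) (fun _ _ _ => sq_nonneg _)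
  linarith

/-- The space of Walsh polynomials. -/
def WW : Submodule ℝ ((Gam → Bool) → ℝ) := Submodule.span ℝ (Set.range wal)

theorem WW_mul {f g : (Gam → Bool) → ℝ} (hf : f ∈ WW) (hg : g ∈ WW) : f * g ∈ WW := by
  classical
  induction hf using Submodule.span_induction with
  | zero => rw [zero_mul]; exact WW.zero_mem
  | add a b _ _ ha hb => rw [add_mul]; exact WW.add_mem ha hb
  | smul r a _ ha => rw [smul_mul_assoc]; exact WW.smul_mem r ha
  | mem a ha =>
    obtain ⟨S, rfl⟩ := ha
    induction hg using Submodule.span_induction with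
    | zero => rw [mul_zero]; exact WW.zero_mem
    | add a b _ _ ha hb => rw [mul_add]; exact WW.add_mem ha hb
    | smul r a _ ha => rw [mul_smul_comm]; exact WW.smul_mem r ha
    | mem b hb =>
      obtain ⟨T, rfl⟩ := hb
      have : wal S * wal T = wal (symmDiff S T) := by
        ext x; exact wal_mul S T x
      rw [this]
      exact Submodule.subset_span ⟨_, rfl⟩

theorem WW_one : (1 : (Gam → Bool) → ℝ) ∈ WW := by
  have : (1 : (Gam → Bool) → ℝ) = wal ∅ := by ext x; simp [wal]
  rw [this]
  exact Submodule.subset_span ⟨_, rfl⟩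

theorem WW_repr {f : (Gam → Bool) → ℝ} (hf : f ∈ WW) :
    ∃ (D : Finset (Finset Gam)) (c : Finset Gam → ℝ), (∀ S, S ∉ D → c S = 0) ∧ f = wp D c := by
  obtain ⟨c, hc⟩ := Finsupp.mem_span_range_iff_exists_finsupp.1 hf
  refine ⟨c.support, c, fun S hS => by simpa using hS, ?_⟩
  rw [← hc]
  ext x
  simp [Finsupp.sum, wp, Finset.sum_apply]

/-- Disagreement set. -/
def dis (A : Set (Gam → Bool)) (i : Fin 3) : Set (Gam → Bool) :=
  {x | ¬ (x ∈ A ↔ shift (gen i) x ∈ A)}

theorem measurable_dis {A : Set (Gam → Bool)} (hA : MeasurableSet A) (i : Fin 3) :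
    MeasurableSet (dis A i) := by
  have h : dis A i = symmDiff A (shift (gen i) ⁻¹' A) := by
    ext x
    simp only [dis, Set.mem_ofPred_eq, Set.mem_symmDiff, Set.mem_preimage]
    tauto
  rw [h]
  exact hA.symmDiff ((mp_shift (gen i)).measurable hA)

/-- The `±1` function of a set. -/
noncomputable def pm (A : Set (Gam → Bool)) (x : Gam → Bool) : ℝ :=
  1 - 2 * A.indicator (fun _ => (1 : ℝ)) x

theorem integral_pm {A : Set (Gam → Bool)} (hA : MeasurableSet A) (i : Fin 3) :
    ∫ x, pm A (shift (gen i) x) * pm A x ∂mu = 1 - 2 * mu.real (dis A i) := by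
  classical
  have h1 : (fun x => pm A (shift (gen i) x) * pm A x)
      = fun x => 1 - 2 * (dis A i).indicator (fun _ => (1 : ℝ)) x := by
    ext x
    simp only [pm, Set.indicator, dis, Set.mem_ofPred_eq]
    by_cases h1 : x ∈ A <;> by_cases h2 : shift (gen i) x ∈ A <;> simp [h1, h2] <;> norm_num
  rw [h1, integral_sub (integrable_const _)
    (((integrable_const (1 : ℝ)).indicator (measurable_dis hA i)).const_mul 2),
    integral_const_mul, integral_indicator_const _ (measurable_dis hA i)]
  simp

theorem dis_sum_of_WW {B : Set (Gam → Bool)} (hB : MeasurableSet B)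
    (hW : B.indicator (fun _ => (1 : ℝ)) ∈ WW) :
    mu.real (dis B 0) + mu.real (dis B 1) + mu.real (dis B 2) ≤ 35 / 12 := by
  have h1 : pm B ∈ WW := by
    have : pm B = (1 : (Gam → Bool) → ℝ) - (2 : ℝ) • B.indicator (fun _ => (1 : ℝ)) := by
      ext x; simp [pm]
    rw [this]
    exact WW.sub_mem WW_one (WW.smul_mem _ hW)
  obtain ⟨D, c, hc, hrep⟩ := WW_repr h1
  have h2 := spectral_finite D c hc
  have h3 : ∑ S ∈ D, c S ^ 2 = 1 := by
    rw [← integral_wp_mul, ← hrep]
    have : (fun x => pm B x * pm B x) = fun _ => (1 : ℝ) := by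
      ext x
      simp only [pm, Set.indicator]
      split_ifs <;> norm_num
    rw [this]; simp
  rw [← integral_wp_shift D c hc 0, ← integral_wp_shift D c hc 1, ← integral_wp_shift D c hc 2,
    ← hrep, integral_pm hB, integral_pm hB, integral_pm hB, h3] at h2
  linarith

/-- The ring of sets whose indicator is a Walsh polynomial. -/
def CC : Set (Set (Gam → Bool)) :=
  {B | MeasurableSet B ∧ B.indicator (fun _ => (1 : ℝ)) ∈ WW}

theorem coord_mem_CC (g : Gam) (t : Set Bool) : {x : Gam → Bool | x g ∈ t} ∈ CC := by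
  classical
  refine ⟨(measurable_pi_apply g) MeasurableSet.of_discrete, ?_⟩
  have h1 : wal {g} ∈ WW := Submodule.subset_span ⟨_, rfl⟩
  have h2 : ({x : Gam → Bool | x g ∈ t}).indicator (fun _ => (1 : ℝ))
      = (((if true ∈ t then (1 : ℝ) else 0) + (if false ∈ t then 1 else 0)) / 2) •
          (1 : (Gam → Bool) → ℝ)
        + (((if true ∈ t then (1 : ℝ) else 0) - (if false ∈ t then 1 else 0)) / 2) • wal {g} := by
    ext x
    simp only [Set.indicator, Set.mem_ofPred_eq, Pi.add_apply, Pi.smul_apply, Pi.one_apply,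
      smul_eq_mul, wal, Finset.prod_singleton, sg]
    cases hx : x g <;> by_cases h1 : true ∈ t <;> by_cases h2 : false ∈ t <;> simp [h1, h2] <;> norm_num
  rw [h2]
  exact WW.add_mem (WW.smul_mem _ WW_one) (WW.smul_mem _ h1)

theorem isSetRing_CC : IsSetRing CC where
  empty_mem := by
    refine ⟨MeasurableSet.empty, ?_⟩
    rw [Set.indicator_empty]
    exact WW.zero_mem
  union_mem := by
    classical
    rintro A B ⟨hA, hA'⟩ ⟨hB, hB'⟩
    refine ⟨hA.union hB, ?_⟩
    have : (A ∪ B).indicator (fun _ => (1 : ℝ)) = A.indicator (fun _ => (1 : ℝ))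
        + B.indicator (fun _ => (1 : ℝ))
        - A.indicator (fun _ => (1 : ℝ)) * B.indicator (fun _ => (1 : ℝ)) := by
      ext x
      simp only [Set.indicator, Set.mem_union, Pi.add_apply, Pi.sub_apply, Pi.mul_apply]
      by_cases h1 : x ∈ A <;> by_cases h2 : x ∈ B <;> simp [h1, h2]
    rw [this]
    exact WW.sub_mem (WW.add_mem hA' hB') (WW_mul hA' hB')
  sdiff_mem := by
    classical
    rintro A B ⟨hA, hA'⟩ ⟨hB, hB'⟩
    refine ⟨hA.diff hB, ?_⟩
    have : (A \ B).indicator (fun _ => (1 : ℝ)) = A.indicator (fun _ => (1 : ℝ))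
        - A.indicator (fun _ => (1 : ℝ)) * B.indicator (fun _ => (1 : ℝ)) := by
      ext x
      simp only [Set.indicator, Set.mem_sdiff, Pi.sub_apply, Pi.mul_apply]
      by_cases h1 : x ∈ A <;> by_cases h2 : x ∈ B <;> simp [h1, h2]
    rw [this]
    exact WW.sub_mem hA' (WW_mul hA' hB')

theorem generateFrom_CC : (MeasurableSpace.pi : MeasurableSpace (Gam → Bool))
    = MeasurableSpace.generateFrom CC := by
  apply le_antisymm
  · apply iSup_le
    intro g
    rintro _ ⟨t, -, rfl⟩
    exact MeasurableSpace.measurableSet_generateFrom (coord_mem_CC g t)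
  · apply MeasurableSpace.generateFrom_le
    intro B hB
    exact hB.1

theorem univ_mem_CC : (Set.univ : Set (Gam → Bool)) ∈ CC := by
  refine ⟨MeasurableSet.univ, ?_⟩
  rw [Set.indicator_univ]
  exact WW_one

theorem exists_approx {A : Set (Gam → Bool)} (hA : MeasurableSet A) {ε : ℝ≥0∞} (hε : 0 < ε) :
    ∃ B ∈ CC, mu (symmDiff B A) < ε :=
  exists_measure_symmDiff_lt_of_generateFrom_isSetRing isSetRing_CC
    ⟨{Set.univ}, Set.countable_singleton _, by
      intro B hB
      rw [Set.mem_singleton_iff] at hB
      rw [hB]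
      exact univ_mem_CC, by simp⟩ generateFrom_CC hA hε

theorem dis_sum {A : Set (Gam → Bool)} (hA : MeasurableSet A) :
    mu.real (dis A 0) + mu.real (dis A 1) + mu.real (dis A 2) ≤ 35 / 12 := by
  apply le_of_forall_pos_le_add
  intro ε hε
  obtain ⟨B, hB, hBA⟩ := exists_approx hA (ε := ENNReal.ofReal (ε / 6)) (by
    rw [ENNReal.ofReal_pos]; positivity)
  have hreal : mu.real (symmDiff B A) ≤ ε / 6 := by
    rw [Measure.real]
    exact ENNReal.toReal_le_of_le_ofReal (by positivity) hBA.le
  have hm : MeasurableSet (symmDiff B A) := hB.1.symmDiff hA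
  have key : ∀ i : Fin 3, mu.real (dis A i) ≤ mu.real (dis B i) + ε / 3 := by
    intro i
    have h1 : dis A i ⊆ dis B i ∪ (symmDiff B A ∪ shift (gen i) ⁻¹' (symmDiff B A)) := by
      intro x hx
      simp only [dis, Set.mem_ofPred_eq, Set.mem_union, Set.mem_symmDiff, Set.mem_preimage] at hx ⊢
      tauto
    have h2 : mu.real (shift (gen i) ⁻¹' (symmDiff B A)) = mu.real (symmDiff B A) := by
      rw [Measure.real, Measure.real, (mp_shift (gen i)).measure_preimage hm.nullMeasurableSet]
    calc mu.real (dis A i)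
        ≤ mu.real (dis B i ∪ (symmDiff B A ∪ shift (gen i) ⁻¹' (symmDiff B A))) :=
          measureReal_mono h1
      _ ≤ mu.real (dis B i) + mu.real (symmDiff B A ∪ shift (gen i) ⁻¹' (symmDiff B A)) :=
          measureReal_union_le _ _
      _ ≤ mu.real (dis B i) + (mu.real (symmDiff B A)
            + mu.real (shift (gen i) ⁻¹' (symmDiff B A))) := by
          gcongr
          exact measureReal_union_le _ _
      _ ≤ mu.real (dis B i) + ε / 3 := by rw [h2]; linarith
  have h3 := dis_sum_of_WW hB.1 hB.2
  have k0 := key 0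
  have k1 := key 1
  have k2 := key 2
  linarith

/-- A set contained in all three disagreement sets has measure at most `35/36`. -/
theorem good_bound {A G : Set (Gam → Bool)} (hA : MeasurableSet A)
    (h : ∀ i, G ⊆ dis A i) : mu.real G ≤ 35 / 36 := by
  have h0 := measureReal_mono (μ := mu) (h 0)
  have h1 := measureReal_mono (μ := mu) (h 1)
  have h2 := measureReal_mono (μ := mu) (h 2)
  have := dis_sum hA
  linarith

end Pool.Agent.Lib.P43c499.NoHom
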