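import Mathlib
import Pool.Agent.Lib.P43c499.Walsh

set_option autoImplicit false
set_option linter.style.haveILetI false

namespace Pool.Agent.Lib.P43c499.NoHom

open MeasureTheory Monoid
open scoped ENNReal

/-- Elements agreeing with the identity from `n` on. -/
def Cn (n : ℕ) (u : Gam → ℕ → ℕ) : Set Gam := {g | ∀ m, n ≤ m → u g m = u 1 m}

/-- Code of the first `n` values. -/
def code (n : ℕ) (v : ℕ → ℕ) : ℕ := Encodable.encode (fun i : Fin n => v i)

theorem code_inj {n : ℕ} {v w : ℕ → ℕ} (h : code n v = code n w) : ∀ m, m < n → v m = w m := by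
  intro m hm
  have h1 := Encodable.encode_injective h
  exact congrFun h1 ⟨m, hm⟩

/-- The parity of the element with least code is even. -/
def An (n : ℕ) (u : Gam → ℕ → ℕ) : Prop :=
  ∃ g, g ∈ Cn n u ∧ par g = 1 ∧ ∀ h, h ∈ Cn n u → code n (u g) ≤ code n (u h)

theorem shift_apply_gen (j : Fin 3) (u : Gam → ℕ → ℕ) (g : Gam) :
    shift (gen j) u g = u (gen j * g) := by
  unfold shift; rw [gen_inv]

theorem An_shift (n : ℕ) (u : Gam → ℕ → ℕ) (hu : EZ u) (j : Fin 3) (hj : gen j ∈ Cn n u) :
    An n (shift (gen j) u) ↔ ¬ An n u := by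
  have hC : ∀ g, g ∈ Cn n (shift (gen j) u) ↔ gen j * g ∈ Cn n u := by
    intro g
    have h1 : ∀ m, n ≤ m → shift (gen j) u 1 m = u 1 m := by
      intro m hm
      rw [shift_apply_gen, mul_one]
      exact hj m hm
    constructor
    · intro h m hm
      rw [← h1 m hm, ← h m hm, shift_apply_gen]
    · intro h m hm
      rw [h1 m hm, shift_apply_gen]
      exact h m hm
  have h1mem : (1 : Gam) ∈ Cn n u := fun m _ => rfl
  obtain ⟨g0, hg0, hmin'⟩ := (measure (fun g => code n (u g))).wf.has_min (Cn n u) ⟨1, h1mem⟩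
  have hmin : ∀ h, h ∈ Cn n u → code n (u g0) ≤ code n (u h) := by
    intro h hh
    exact not_lt.1 (hmin' h hh)
  have huniq : ∀ g, g ∈ Cn n u → (∀ h, h ∈ Cn n u → code n (u g) ≤ code n (u h)) → g = g0 := by
    intro g hg hgm
    apply hu.1
    have h2 : code n (u g) = code n (u g0) := le_antisymm (hgm g0 hg0) (hmin g hg)
    ext m
    by_cases hm : m < n
    · exact code_inj h2 m hm
    · push Not at hm
      rw [hg m hm, hg0 m hm]
  have hA : An n u ↔ par g0 = 1 := by
    constructor
    · rintro ⟨g, hg, hp, hgm⟩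
      rw [← huniq g hg hgm]; exact hp
    · intro hp
      exact ⟨g0, hg0, hp, hmin⟩
  have hA' : An n (shift (gen j) u) ↔ par (gen j * g0) = 1 := by
    constructor
    · rintro ⟨g, hg, hp, hgm⟩
      have h3 : gen j * g = g0 := by
        apply huniq _ ((hC g).1 hg)
        intro h hh
        have h4 : gen j * h ∈ Cn n (shift (gen j) u) := by
          rw [hC, gen_mul_gen_mul]; exact hh
        have h5 := hgm _ h4
        rw [shift_apply_gen, shift_apply_gen, gen_mul_gen_mul] at h5
        exact h5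
      rw [← h3, gen_mul_gen_mul]; exact hp
    · intro hp
      refine ⟨gen j * g0, ?_, hp, ?_⟩
      · rw [hC, gen_mul_gen_mul]; exact hg0
      · intro h hh
        rw [shift_apply_gen, shift_apply_gen, gen_mul_gen_mul]
        exact hmin _ ((hC h).1 hh)
  rw [hA, hA', par_gen_mul]

theorem measurable_eval2 (g : Gam) (m : ℕ) : Measurable (fun u : Gam → ℕ → ℕ => u g m) :=
  (measurable_pi_apply m).comp (measurable_pi_apply g)

theorem measurableSet_Cn (n : ℕ) (g : Gam) : MeasurableSet {u : Gam → ℕ → ℕ | g ∈ Cn n u} := by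
  have : {u : Gam → ℕ → ℕ | g ∈ Cn n u} = ⋂ m : ℕ, ⋂ _ : n ≤ m, {u | u g m = u 1 m} := by
    ext u; simp [Cn]
  rw [this]
  exact MeasurableSet.iInter (fun m => MeasurableSet.iInter (fun _ =>
    measurableSet_eq_fun (measurable_eval2 g m) (measurable_eval2 1 m)))

theorem measurable_code (n : ℕ) (g : Gam) : Measurable (fun u : Gam → ℕ → ℕ => code n (u g)) := by
  have h1 : Measurable (fun u : Gam → ℕ → ℕ => (fun i : Fin n => u g i)) := by
    rw [measurable_pi_iff]
    intro i
    exact measurable_eval2 g i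
  exact (measurable_of_countable (fun w : Fin n → ℕ => Encodable.encode w)).comp h1

theorem measurableSet_An (n : ℕ) : MeasurableSet {u : Gam → ℕ → ℕ | An n u} := by
  have : {u : Gam → ℕ → ℕ | An n u} = ⋃ g : Gam, ⋃ _ : par g = 1,
      ({u | g ∈ Cn n u} ∩ ⋂ h : Gam, ({u | h ∈ Cn n u}ᶜ ∪ {u | code n (u g) ≤ code n (u h)})) := by
    ext u
    simp only [An, Set.mem_iUnion, Set.mem_inter_iff, Set.mem_iInter, Set.mem_union,
      Set.mem_compl_iff, Set.mem_ofPred_eq]
    constructor
    · rintro ⟨g, hg, hp, hm⟩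
      refine ⟨g, hp, hg, fun h => ?_⟩
      by_cases hh : h ∈ Cn n u
      · exact Or.inr (hm h hh)
      · exact Or.inl hh
    · rintro ⟨g, hp, hg, hm⟩
      refine ⟨g, hg, hp, fun h hh => ?_⟩
      rcases hm h with h1 | h1
      · exact absurd hh h1
      · exact h1
  rw [this]
  refine MeasurableSet.iUnion (fun g => MeasurableSet.iUnion (fun _ => ?_))
  refine (measurableSet_Cn n g).inter (MeasurableSet.iInter (fun h => ?_))
  exact (measurableSet_Cn n h).compl.union
    (measurableSet_le (measurable_code n g) (measurable_code n h))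

/-- There is no measurable map from the shift to `E₀`-type data that sends generators to
generators on the free part. -/
theorem noHom : ¬ ∃ φ : (Gam → Bool) → (Gam → ℕ → ℕ), Measurable φ ∧
    ∀ x, IsFree x → EZ (φ x) ∧ ∀ i, ∃ j, φ (shift (gen i) x) = shift (gen j) (φ x) := by
  rintro ⟨φ, hφ, hall⟩
  let G' : ℕ → Set (Gam → Bool) := fun n => {x | ∀ j, gen j ∈ Cn n (φ x)}
  have hmono : Monotone G' := by
    intro a b hab x hx j m hm
    exact hx j m (hab.trans hm)
  have hunion : ∀ᵐ x ∂mu, x ∈ ⋃ n, G' n := by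
    filter_upwards [ae_free] with x hx
    obtain ⟨⟨-, hE⟩, -⟩ := hall x hx
    choose N hN using fun j : Fin 3 => hE (gen j) 1
    refine Set.mem_iUnion.2 ⟨Finset.univ.sup N, ?_⟩
    intro j m hm
    exact hN j m ((Finset.le_sup (f := N) (Finset.mem_univ j)).trans hm)
  have hmu : mu (⋃ n, G' n) = 1 := by
    rw [← prob_compl_eq_zero_iff₀] 
    · exact hunion
    · exact (MeasurableSet.iUnion (fun n => by
        have : G' n = ⋂ j, φ ⁻¹' {u | gen j ∈ Cn n u} := by
          ext x; simp [G']
        rw [this]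
        exact MeasurableSet.iInter (fun j => hφ (measurableSet_Cn n (gen j))))).nullMeasurableSet
  have htend : Filter.Tendsto (fun n => mu (G' n)) Filter.atTop (nhds (mu (⋃ n, G' n))) :=
    tendsto_measure_iUnion_atTop hmono
  have hle : ∀ n, mu (G' n) ≤ ENNReal.ofReal (35 / 36) := by
    intro n
    set A : Set (Gam → Bool) := φ ⁻¹' {u | An n u} with hA
    have hAm : MeasurableSet A := hφ (measurableSet_An n)
    have h1 : mu.real (G' n ∩ {x | IsFree x}) ≤ 35 / 36 := by
      apply good_bound hAm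
      rintro i x ⟨hx, hfree⟩
      obtain ⟨hEZ, hhom⟩ := hall x hfree
      obtain ⟨j, hj⟩ := hhom i
      show ¬ (An n (φ x) ↔ An n (φ (shift (gen i) x)))
      rw [hj, An_shift n (φ x) hEZ j (hx j)]
      tauto
    have h2 : mu (G' n) = mu (G' n ∩ {x | IsFree x}) := by
      apply measure_congr
      filter_upwards [ae_free] with x hx
      apply propext
      constructor
      · intro h; exact ⟨h, hx⟩
      · intro h; exact h.1
    rw [h2, ← ofReal_measureReal]
    exact ENNReal.ofReal_le_ofReal h1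
  have hfin := le_of_tendsto' htend hle
  rw [hmu] at hfin
  have : ENNReal.ofReal (35 / 36) < 1 := by
    rw [ENNReal.ofReal_lt_one]; norm_num
  exact absurd hfin (not_le.2 this)

end Pool.Agent.Lib.P43c499.NoHom
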