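import Pool.Agent.Lib.P43c499.Red
import Pool.Agent.Lib.P43c499.NoHom

/-!
The graph.
-/

namespace Pool.Agent.Lib.P43c499

open NoHom

theorem shift_free {u : Gam → ℕ → ℕ} (hu : EZ u) {g h : Gam} (e : shift g u = shift h u) :
    g = h := by
  have h1 := congrFun e 1
  simp only [shift_apply, mul_one] at h1
  exact inv_injective (hu.1 h1)

theorem gen_ne_one (i : Fin 3) : gen i ≠ 1 := by
  intro h
  have h1 := fst_gen i
  rw [h, fst_one] at h1
  simp at h1

theorem gen_inj {i j : Fin 3} (h : gen i = gen j) : i = j := by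
  have h1 := fst_gen i
  rw [h, fst_gen] at h1
  simpa using h1.symm

/-- The graph. -/
def GG : SimpleGraph XX where
  Adj u v := ∃ i, v.1 = shift (gen i) u.1
  symm := ⟨fun u v => by
    rintro ⟨i, hi⟩
    refine ⟨i, ?_⟩
    rw [hi, ← shift_mul, gen_mul_self, shift_one]⟩
  loopless := ⟨fun u => by
    rintro ⟨i, hi⟩
    apply gen_ne_one i
    apply shift_free u.2
    rw [← hi, shift_one]⟩

theorem GG_adj {u v : XX} : GG.Adj u v ↔ ∃ i, v.1 = shift (gen i) u.1 := Iff.rfl

theorem GG_meas : MeasurableSet {p : XX × XX | GG.Adj p.1 p.2} := by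
  have h1 : ∀ (g : Gam) (m : ℕ), Measurable (fun u : Gam → ℕ → ℕ => u g m) := fun g m =>
    (measurable_pi_apply m).comp (measurable_pi_apply g)
  have h2 : {p : XX × XX | GG.Adj p.1 p.2} =
      ⋃ i, ⋂ g : Gam, ⋂ m : ℕ, {p : XX × XX | p.2.1 g m = p.1.1 ((gen i)⁻¹ * g) m} := by
    ext p
    simp only [GG_adj, Set.mem_ofPred_eq, Set.mem_iUnion, Set.mem_iInter, funext_iff, shift_apply]
  rw [h2]
  refine MeasurableSet.iUnion fun i => MeasurableSet.iInter fun g => MeasurableSet.iInter fun m => ?_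
  exact measurableSet_eq_fun ((h1 g m).comp (measurable_subtype_coe.comp measurable_snd))
    ((h1 _ m).comp (measurable_subtype_coe.comp measurable_fst))

theorem GG_deg (u : XX) : (GG.neighborSet u).encard = ((3 : ℕ) : ℕ∞) := by
  let nbr : Fin 3 → XX := fun i => ⟨shift (gen i) u.1, EZ_shift u.2 _⟩
  have h1 : GG.neighborSet u = Set.range nbr := by
    ext v
    simp only [SimpleGraph.mem_neighborSet, GG_adj, Set.mem_range]
    constructor
    · rintro ⟨i, hi⟩; exact ⟨i, Subtype.ext hi.symm⟩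
    · rintro ⟨i, hi⟩; exact ⟨i, by rw [← hi]⟩
  have h2 : Function.Injective nbr := by
    intro i j h
    have h3 := congrArg Subtype.val h
    exact gen_inj (shift_free u.2 h3)
  rw [h1, ← Set.image_univ, h2.encard_image, Set.encard_univ]
  simp

theorem GG_acyclic : GG.IsAcyclic := by
  rw [SimpleGraph.isAcyclic_iff_forall_adj_isBridge]
  rintro u v ⟨i, hi⟩
  rw [SimpleGraph.isBridge_iff]
  intro hr
  have key : ∀ y : XX, (GG.deleteEdges {s(u, v)}).Reachable u y →
      ∃ g, y.1 = shift g u.1 ∧ fst g⁻¹ ≠ some i := by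
    intro y hy
    rw [SimpleGraph.reachable_iff_reflTransGen] at hy
    induction hy with
    | refl =>
      refine ⟨1, by rw [shift_one], ?_⟩
      rw [inv_one, fst_one]; simp
    | @tail y z _ hyz ih =>
      obtain ⟨g, hg, hg'⟩ := ih
      rw [SimpleGraph.deleteEdges_adj] at hyz
      obtain ⟨⟨j, hj⟩, hne⟩ := hyz
      refine ⟨gen j * g, by rw [hj, hg, shift_mul], ?_⟩
      rw [mul_inv_rev, gen_inv]
      by_cases h1 : g⁻¹ = 1
      · rw [h1, one_mul, fst_gen]
        intro h2
        simp only [Option.some.injEq] at h2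
        apply hne
        have h3 : g = 1 := inv_eq_one.mp h1
        have h4 : y = u := Subtype.ext (by rw [hg, h3, shift_one])
        have h5 : z = v := Subtype.ext (by rw [hj, h4, h2, hi])
        rw [h4, h5]
        exact rfl
      · by_cases h2 : g⁻¹ = gen j
        · rw [h2, gen_mul_self, fst_one]; simp
        · rw [fst_mul_gen j _ h1 h2]; exact hg'
  obtain ⟨g, hg, hg'⟩ := key v hr
  rw [hi] at hg
  have := shift_free u.2 hg
  rw [← this, gen_inv, fst_gen] at hg'
  exact hg' rfl

end Pool.Agent.Lib.P43c499
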