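import Pool.Agent.Lib.P43c499.Words

/-!
Combinatorics of the Cayley tree of the free product.
-/

namespace Pool.Agent.Lib.P43c499

open NoHom

theorem fst_one : fst 1 = none := by
  unfold fst wd
  rfl

theorem eq_one_of_fst {g : Gam} (h : fst g = none) : g = 1 := by
  unfold fst at h
  have h1 : (wd g).toList = [] := by
    unfold Monoid.CoprodI.Word.fstIdx at h
    simpa using h
  have h2 : wd g = Monoid.CoprodI.Word.empty := Monoid.CoprodI.Word.ext h1
  have h3 : Monoid.CoprodI.Word.equiv g = Monoid.CoprodI.Word.equiv (M := Mf) 1 := by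
    change wd g = wd 1
    rw [h2]; rfl
  exact Monoid.CoprodI.Word.equiv.injective h3

theorem red_ind {P : Gam → Prop} (h1 : P 1)
    (h2 : ∀ i g, fst g ≠ some i → P g → P (gen i * g)) : ∀ g, P g := by
  have key : ∀ n g, len g = n → P g := by
    intro n
    induction n using Nat.strong_induction_on with
    | _ n ih =>
      intro g hg
      cases h : fst g with
      | none => rw [eq_one_of_fst h]; exact h1
      | some i =>
        obtain ⟨h3, h4⟩ := fst_eq_case i g h
        have h5 := h2 i (gen i * g) h4 (ih _ (by omega) _ rfl)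
        rwa [gen_mul_gen_mul] at h5
  exact fun g => key _ g rfl

theorem fst_gen (i : Fin 3) : fst (gen i) = some i := by
  have := (fst_ne_case i 1 (by rw [fst_one]; simp)).2
  rwa [mul_one] at this

/-- Crossing edges: the first letter changes along a right multiplication only near `1`. -/
theorem fst_mul_gen (j : Fin 3) : ∀ g : Gam, g ≠ 1 → g ≠ gen j → fst (g * gen j) = fst g := by
  apply red_ind
  · intro h; exact absurd rfl h
  · intro i g hg ih _ h2
    rw [(fst_ne_case i g hg).2, mul_assoc]
    by_cases h3 : g = 1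
    · subst h3
      rw [mul_one] at h2
      rw [one_mul]
      apply (fst_ne_case i (gen j) _).2
      rw [fst_gen]
      intro h4
      simp only [Option.some.injEq] at h4
      exact h2 (by rw [h4])
    · by_cases h4 : g = gen j
      · rw [h4, gen_mul_self, mul_one, fst_gen]
      · apply (fst_ne_case i _ _).2
        rw [ih h3 h4]; exact hg

/-- The side behind the generator `2`. -/
def B2 : Set Gam := {g | fst g = some 2}

theorem one_notMem_B2 : (1 : Gam) ∉ B2 := by
  intro h
  have : fst 1 = some 2 := h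
  rw [fst_one] at this
  simp at this

theorem gen_mul_mem_B2 (g : Gam) : gen 2 * g ∈ B2 ↔ g ∉ B2 := by
  constructor
  · intro h h1
    exact (fst_eq_case 2 g h1).2 h
  · intro h
    exact (fst_ne_case 2 g h).2

theorem cross_out {g : Gam} {j : Fin 3} (h : g ∉ B2) (h1 : g * gen j ∈ B2) : g = 1 ∧ j = 2 := by
  have h2 : g = 1 := by
    by_contra h3
    by_cases h4 : g = gen j
    · rw [h4, gen_mul_self] at h1
      exact one_notMem_B2 h1
    · have : fst (g * gen j) = fst g := fst_mul_gen j g h3 h4
      apply h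
      change fst g = some 2
      rw [← this]; exact h1
  subst h2
  refine ⟨rfl, ?_⟩
  rw [one_mul] at h1
  have : fst (gen j) = some 2 := h1
  rw [fst_gen] at this
  simpa using this

/-- Right connectedness. -/
theorem all_of_closed {S : Set Gam} (h1 : (1 : Gam) ∈ S) (h2 : ∀ g ∈ S, ∀ j, g * gen j ∈ S) :
    ∀ g, g ∈ S := by
  have : ∀ g : Gam, ∀ h ∈ S, h * g ∈ S := by
    apply red_ind
    · intro h hh; rwa [mul_one]
    · intro i g _ ih h hh
      rw [← mul_assoc]
      exact ih _ (h2 h hh i)
  intro g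
  have := this g 1 h1
  rwa [one_mul] at this

/-- The subgroup generated by the first two generators. -/
def KK : Subgroup Gam := Subgroup.closure {gen 0, gen 1}

theorem gen_mem_KK {i : Fin 3} (h : i ≠ 2) : gen i ∈ KK := by
  apply Subgroup.subset_closure
  fin_cases i
  · left; rfl
  · right; rfl
  · exact absurd rfl h

theorem KK_ind {P : Gam → Prop} (h1 : P 1)
    (h2 : ∀ i, i ≠ 2 → ∀ g, fst g ≠ some i → g ∈ KK → P g → P (gen i * g)) : ∀ g ∈ KK, P g := by
  -- reduced words in the first two letters
  let Q : Gam → Prop := fun g => g ∈ KK ∧ ∀ P' : Gam → Prop, P' 1 →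
    (∀ i, i ≠ 2 → ∀ g, fst g ≠ some i → g ∈ KK → P' g → P' (gen i * g)) → P' g
  have hQ1 : Q 1 := ⟨KK.one_mem, fun P' h _ => h⟩
  have hQ2 : ∀ i, i ≠ 2 → ∀ g, fst g ≠ some i → Q g → Q (gen i * g) := by
    rintro i hi g hg ⟨h3, h4⟩
    exact ⟨KK.mul_mem (gen_mem_KK hi) h3, fun P' h5 h6 => h6 i hi g hg h3 (h4 P' h5 h6)⟩
  -- each such word is `1` or has a first letter among the first two with tail again such
  have hQ3 : ∀ g, Q g → Q g ∧ (g = 1 ∨ ∃ i, i ≠ 2 ∧ ∃ g', fst g' ≠ some i ∧ g = gen i * g' ∧
      Q g') := by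
    intro g hg
    apply hg.2 (fun g => Q g ∧ (g = 1 ∨ ∃ i, i ≠ 2 ∧ ∃ g', fst g' ≠ some i ∧ g = gen i * g' ∧
      Q g'))
    · exact ⟨hQ1, Or.inl rfl⟩
    · intro i hi g hgi _ ih
      exact ⟨hQ2 i hi g hgi ih.1, Or.inr ⟨i, hi, g, hgi, rfl, ih.1⟩⟩
  have hQ4 : ∀ i, i ≠ 2 → ∀ g, Q g → Q (gen i * g) := by
    intro i hi g hg
    by_cases h : fst g = some i
    · rcases (hQ3 g hg).2 with h3 | ⟨j, hj, g', h4, h5, h6⟩
      · rw [h3, fst_one] at h; simp at h
      · have h7 : fst g = some j := by rw [h5]; exact (fst_ne_case j g' h4).2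
        rw [h] at h7
        simp only [Option.some.injEq] at h7
        subst h7
        rw [h5, gen_mul_gen_mul]; exact h6
    · exact hQ2 i hi g h hg
  have hQ5 : ∀ g ∈ KK, Q g := by
    intro g hg
    induction hg using Subgroup.closure_induction_left with
    | one => exact hQ1
    | mul_left x hx y hy ih =>
      rcases hx with rfl | hx
      · exact hQ4 0 (by decide) y ih
      · rw [Set.mem_singleton_iff] at hx; subst hx; exact hQ4 1 (by decide) y ih
    | inv_mul_cancel x hx y hy ih =>
      rcases hx with rfl | hx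
      · rw [gen_inv]; exact hQ4 0 (by decide) y ih
      · rw [Set.mem_singleton_iff] at hx; subst hx; rw [gen_inv]; exact hQ4 1 (by decide) y ih
  exact fun g hg => (hQ5 g hg).2 P h1 h2

theorem fst_KK_mul : ∀ k ∈ KK, fst k ≠ some 2 ∧ ∀ w ∈ B2, k ≠ 1 → fst (k * w) = fst k := by
  apply KK_ind
  · refine ⟨?_, fun w _ h => absurd rfl h⟩
    rw [fst_one]; simp
  · intro i hi g hg _ ih
    have h1 := (fst_ne_case i g hg).2
    refine ⟨?_, fun w hw _ => ?_⟩
    · rw [h1]
      intro h2
      simp only [Option.some.injEq] at h2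
      exact hi h2
    · rw [h1, mul_assoc]
      apply (fst_ne_case i _ _).2
      by_cases h3 : g = 1
      · rw [h3, one_mul]
        have : fst w = some 2 := hw
        rw [this]
        intro h4
        simp only [Option.some.injEq] at h4
        exact hi h4.symm
      · rw [ih.2 w hw h3]; exact hg

theorem KK_notMem_B2 {k : Gam} (hk : k ∈ KK) : k ∉ B2 := (fst_KK_mul k hk).1

/-- Sides are disjoint. -/
theorem side_disj {k : Gam} (hk : k ∈ KK) {w : Gam} (hw : w ∈ B2) (h : k * w ∈ B2) : k = 1 := by
  by_contra h1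
  have h2 := (fst_KK_mul k hk).2 w hw h1
  have h3 : fst (k * w) = some 2 := h
  rw [h3] at h2
  exact (fst_KK_mul k hk).1 h2.symm

/-- Every element lies on `K` or on one of its sides. -/
theorem exists_side (g : Gam) : g ∈ KK ∨ ∃ f ∈ KK, f⁻¹ * g ∈ B2 := by
  revert g
  apply red_ind
  · left; exact KK.one_mem
  · intro i g hg ih
    by_cases hi : i = 2
    · right
      subst hi
      refine ⟨1, KK.one_mem, ?_⟩
      rw [inv_one, one_mul, gen_mul_mem_B2]
      exact hg
    · rcases ih with h | ⟨f, hf, h⟩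
      · left; exact KK.mul_mem (gen_mem_KK hi) h
      · right
        refine ⟨gen i * f, KK.mul_mem (gen_mem_KK hi) hf, ?_⟩
        rw [mul_inv_rev, mul_assoc, inv_mul_cancel_left]
        exact h

/-- Odd elements of `K`. -/
def tt (n : ℕ) : Gam := (gen 0 * gen 1) ^ n * gen 0

theorem tt_mem (n : ℕ) : tt n ∈ KK :=
  KK.mul_mem (KK.pow_mem (KK.mul_mem (gen_mem_KK (by decide)) (gen_mem_KK (by decide))) n)
    (gen_mem_KK (by decide))

theorem tt_len (n : ℕ) : fst (tt n) = some 0 ∧ len (tt n) = 2 * n + 1 := by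
  induction n with
  | zero =>
    unfold tt
    rw [pow_zero, one_mul]
    refine ⟨fst_gen 0, ?_⟩
    have := (fst_ne_case 0 1 (by rw [fst_one]; simp)).1
    rw [mul_one] at this
    rw [this]
    rfl
  | succ n ih =>
    have h : tt (n + 1) = gen 0 * (gen 1 * tt n) := by
      unfold tt
      rw [pow_succ']
      simp only [mul_assoc]
    have h1 := fst_ne_case 1 (tt n) (by rw [ih.1]; simp)
    have h2 := fst_ne_case 0 (gen 1 * tt n) (by rw [h1.2]; simp)
    rw [h]
    exact ⟨h2.2, by omega⟩

theorem exists_tt_notMem {E : Set Gam} (hE : E.Finite) : ∃ n, tt n ∉ E := by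
  by_contra h
  push Not at h
  have h1 : Function.Injective tt := by
    intro n m hnm
    have h2 := (tt_len n).2
    have h3 := (tt_len m).2
    rw [hnm] at h2
    omega
  exact Set.infinite_of_injective_forall_mem h1 h hE

/-- A two valued function flipping along the generators of `K` flips at the odd elements. -/
theorem flip_tt {φ : Gam → Prop} (h : ∀ g ∈ KK, ∀ i, i ≠ 2 → (φ (g * gen i) ↔ ¬ φ g)) (n : ℕ) :
    φ (tt n) ↔ ¬ φ 1 := by
  induction n with
  | zero =>
    have := h 1 KK.one_mem 0 (by decide)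
    unfold tt
    simpa using this
  | succ n ih =>
    have h1 : tt (n + 1) = tt n * gen 1 * gen 0 := by
      unfold tt
      rw [pow_succ]
      simp only [mul_assoc]
    rw [h1, h _ (KK.mul_mem (tt_mem n) (gen_mem_KK (by decide))) 0 (by decide),
      h _ (tt_mem n) 1 (by decide), ih]
    tauto

end Pool.Agent.Lib.P43c499
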