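import Pool.Agent.Lib.P43c499.Graph

/-!
The connectedness relation of the graph is hyperfinite.
-/

namespace Pool.Agent.Lib.P43c499

open NoHom

/-- The relations of the approximating sequence. -/
def FF (n : ℕ) (u v : XX) : Prop :=
  (∃ g, v.1 = shift g u.1) ∧ (∀ m, n ≤ m → u.1 1 m = v.1 1 m) ∧
    ∀ m, m < n → u.1 1 m = v.1 1 m ∨ (u.1 1 m < n ∧ v.1 1 m < n)

theorem FF_equiv (n : ℕ) : Equivalence (FF n) where
  refl u := ⟨⟨1, by rw [shift_one]⟩, fun _ _ => rfl, fun _ _ => Or.inl rfl⟩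
  symm := by
    rintro u v ⟨⟨g, hg⟩, h1, h2⟩
    refine ⟨⟨g⁻¹, by rw [hg, ← shift_mul, inv_mul_cancel, shift_one]⟩,
      fun m hm => (h1 m hm).symm, fun m hm => ?_⟩
    rcases h2 m hm with h | h
    · exact Or.inl h.symm
    · exact Or.inr ⟨h.2, h.1⟩
  trans := by
    rintro u v w ⟨⟨g, hg⟩, h1, h2⟩ ⟨⟨g', hg'⟩, h1', h2'⟩
    refine ⟨⟨g' * g, by rw [hg', hg, shift_mul]⟩, fun m hm => (h1 m hm).trans (h1' m hm),
      fun m hm => ?_⟩
    rcases h2 m hm with h | h <;> rcases h2' m hm with h' | h'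
    · exact Or.inl (h.trans h')
    · exact Or.inr ⟨by rw [h]; exact h'.1, h'.2⟩
    · exact Or.inr ⟨h.1, by rw [← h']; exact h.2⟩
    · exact Or.inr ⟨h.1, h'.2⟩

theorem FF_meas (n : ℕ) : MeasurableSet {p : XX × XX | FF n p.1 p.2} := by
  have h1 : ∀ (g : Gam) (m : ℕ), Measurable (fun u : Gam → ℕ → ℕ => u g m) := fun g m =>
    (measurable_pi_apply m).comp (measurable_pi_apply g)
  have hf : ∀ (g : Gam) (m : ℕ), Measurable (fun p : XX × XX => p.1.1 g m) := fun g m =>
    (h1 g m).comp (measurable_subtype_coe.comp measurable_fst)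
  have hs : ∀ (g : Gam) (m : ℕ), Measurable (fun p : XX × XX => p.2.1 g m) := fun g m =>
    (h1 g m).comp (measurable_subtype_coe.comp measurable_snd)
  have h2 : {p : XX × XX | FF n p.1 p.2} =
      (⋃ g : Gam, ⋂ δ : Gam, ⋂ m : ℕ, {p : XX × XX | p.2.1 δ m = p.1.1 (g⁻¹ * δ) m}) ∩
      ((⋂ m ∈ Set.Ici n, {p : XX × XX | p.1.1 1 m = p.2.1 1 m}) ∩
      ⋂ m ∈ Set.Iio n, ({p : XX × XX | p.1.1 1 m = p.2.1 1 m} ∪
        ({p : XX × XX | p.1.1 1 m < n} ∩ {p : XX × XX | p.2.1 1 m < n}))) := by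
    ext p
    simp only [FF, Set.mem_ofPred_eq, Set.mem_inter_iff, Set.mem_iUnion, Set.mem_iInter,
      Set.mem_union, Set.mem_Ici, Set.mem_Iio, funext_iff, shift_apply]
  rw [h2]
  refine MeasurableSet.inter (MeasurableSet.iUnion fun g => MeasurableSet.iInter fun δ =>
    MeasurableSet.iInter fun m => measurableSet_eq_fun (hs _ _) (hf _ _))
    (MeasurableSet.inter (MeasurableSet.biInter (Set.to_countable _) fun m _ =>
      measurableSet_eq_fun (hf _ _) (hs _ _))
      (MeasurableSet.biInter (Set.to_countable _) fun m _ => MeasurableSet.union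
        (measurableSet_eq_fun (hf _ _) (hs _ _)) (MeasurableSet.inter
          (measurableSet_lt (hf _ _) measurable_const)
          (measurableSet_lt (hs _ _) measurable_const))))

theorem FF_finite (n : ℕ) (u : XX) : {v | FF n u v}.Finite := by
  classical
  let code : XX → Fin n → ℕ := fun v m => v.1 1 m
  have hfin : (Set.univ.pi fun m : Fin n => (insert (u.1 1 m) (Set.Iio n) : Set ℕ)).Finite :=
    Set.Finite.pi fun m => (Set.finite_Iio n).insert _
  refine Set.Finite.of_finite_image (f := code) (hfin.subset ?_) ?_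
  · rintro _ ⟨v, ⟨-, -, h2⟩, rfl⟩
    intro m _
    rcases h2 m m.2 with h | h
    · exact Set.mem_insert_iff.mpr (Or.inl h.symm)
    · exact Set.mem_insert_iff.mpr (Or.inr h.2)
  · rintro v ⟨⟨g, hg⟩, h1, -⟩ w ⟨⟨g', hg'⟩, h1', -⟩ hvw
    have h3 : v.1 1 = w.1 1 := by
      funext m
      by_cases hm : m < n
      · exact congrFun hvw ⟨m, hm⟩
      · push Not at hm
        rw [← h1 m hm, ← h1' m hm]
    rw [hg, hg', shift_apply, shift_apply, mul_one, mul_one] at h3
    have h4 := inv_injective (u.2.1 h3)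
    exact Subtype.ext (by rw [hg, hg', h4])

theorem FF_mono (n : ℕ) (u v : XX) (h : FF n u v) : FF (n + 1) u v := by
  obtain ⟨h0, h1, h2⟩ := h
  refine ⟨h0, fun m hm => h1 m (by omega), fun m hm => ?_⟩
  rcases Nat.lt_succ_iff_lt_or_eq.mp hm with h | h
  · rcases h2 m h with h' | h'
    · exact Or.inl h'
    · exact Or.inr ⟨by omega, by omega⟩
  · exact Or.inl (h1 m (by omega))

theorem reach_iff (u v : XX) : GG.Reachable u v ↔ ∃ g, v.1 = shift g u.1 := by
  constructor
  · intro hr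
    rw [SimpleGraph.reachable_iff_reflTransGen] at hr
    induction hr with
    | refl => exact ⟨1, by rw [shift_one]⟩
    | tail _ hyz ih =>
      obtain ⟨g, hg⟩ := ih
      obtain ⟨j, hj⟩ := hyz
      exact ⟨gen j * g, by rw [hj, hg, shift_mul]⟩
  · rintro ⟨g, hg⟩
    have key : ∀ g : Gam, ∀ v : XX, v.1 = shift g u.1 → GG.Reachable u v := by
      apply red_ind
      · intro v hv
        rw [shift_one] at hv
        rw [Subtype.ext hv]
      · intro i g _ ih v hv
        let w : XX := ⟨shift g u.1, EZ_shift u.2 _⟩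
        have h1 : GG.Adj w v := ⟨i, by rw [hv, shift_mul]⟩
        exact (ih w rfl).trans h1.reachable
    exact key g v hg

theorem FF_union (u v : XX) : GG.Reachable u v ↔ ∃ n, FF n u v := by
  rw [reach_iff]
  constructor
  · rintro ⟨g, hg⟩
    obtain ⟨N, hN⟩ := u.2.2 1 g⁻¹
    have h1 : ∀ m, N ≤ m → u.1 1 m = v.1 1 m := by
      intro m hm
      rw [hg, shift_apply, mul_one]
      exact hN m hm
    refine ⟨N + ∑ m ∈ Finset.range N, (u.1 1 m + v.1 1 m + 1), ⟨g, hg⟩,
      fun m hm => h1 m (by omega), fun m hm => ?_⟩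
    by_cases hmN : N ≤ m
    · exact Or.inl (h1 m hmN)
    · have h2 : u.1 1 m + v.1 1 m + 1 ≤ ∑ m ∈ Finset.range N, (u.1 1 m + v.1 1 m + 1) :=
        Finset.single_le_sum (f := fun m => u.1 1 m + v.1 1 m + 1) (fun _ _ => Nat.zero_le _)
          (Finset.mem_range.mpr (by omega))
      exact Or.inr ⟨by omega, by omega⟩
  · rintro ⟨n, h, -⟩
    exact h

end Pool.Agent.Lib.P43c499
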