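import Pool.Agent.Lib.P43c499.Open2

/-!
Inverse limits of coverings.
-/

namespace Pool.Agent.Lib.P43c499

universe u

/-- Threads through a point of level `i`. -/
theorem exists_thread (i : ℕ) : ∀ {A : ℕ → Type u} (f : ∀ j, A (j + 1) → A j)
    (P Q : ∀ j, A j → Prop) (_ : ∀ j x, P j x → Q j x)
    (_ : ∀ j y, Q (j + 1) y → Q j (f j y))
    (_ : ∀ j, i ≤ j → ∀ x, P j x → ∃ y, P (j + 1) y ∧ f j y = x)
    (x : A i) (_ : P i x), ∃ X : ∀ j, A j, X i = x ∧ (∀ j, i ≤ j → P j (X j)) ∧
      (∀ j, Q j (X j)) ∧ ∀ j, f j (X (j + 1)) = X j := by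
  induction i with
  | zero =>
    intro A f P Q hPQ hQ hup x hx
    have hup' : ∀ j, ∀ x : {x : A j // P j x}, ∃ y : {y : A (j + 1) // P (j + 1) y},
        f j y.1 = x.1 := by
      intro j x
      obtain ⟨y, hy, hyx⟩ := hup j (Nat.zero_le j) x.1 x.2
      exact ⟨⟨y, hy⟩, hyx⟩
    choose nx hnx using hup'
    let X : ∀ j, {x : A j // P j x} := fun j => Nat.rec ⟨x, hx⟩ (fun j y => nx j y) j
    refine ⟨fun j => (X j).1, rfl, fun j _ => (X j).2, fun j => hPQ j _ (X j).2, fun j => ?_⟩
    exact hnx j (X j)
  | succ i ih =>
    intro A f P Q hPQ hQ hup x hx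
    obtain ⟨X, h1, h2, h3, h4⟩ := ih (A := fun j => A (j + 1)) (fun j => f (j + 1))
      (fun j => P (j + 1)) (fun j => Q (j + 1)) (fun j => hPQ (j + 1)) (fun j => hQ (j + 1))
      (fun j hj => hup (j + 1) (by omega)) x hx
    refine ⟨fun j => Nat.casesOn j (f 0 (X 0)) X, h1, ?_, ?_, ?_⟩
    · intro j hj
      cases j with
      | zero => omega
      | succ j => exact h2 j (by omega)
    · intro j
      cases j with
      | zero => exact hQ 0 _ (h3 0)
      | succ j => exact h3 j
    · intro j
      cases j with
      | zero => rfl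
      | succ j => exact h4 j

variable {A : ℕ → Type u} {T : ∀ i, GT (A i)} {k : ℕ}

/-- Threads. -/
def Thr (c : ∀ i, Cov (T i) (T (i + 1)) (k + i)) : Type u :=
  {t : ∀ i, A i // ∀ i, (c i).f (t (i + 1)) = t i}

variable (c : ∀ i, Cov (T i) (T (i + 1)) (k + i))

/-- Coordinate of a thread. -/
def cor (i : ℕ) (t : Thr c) : A i := t.1 i

theorem cor_step (i : ℕ) (t : Thr c) : (c i).f (cor c (i + 1) t) = cor c i t := t.2 i

theorem thr_ext {t t' : Thr c} (h : ∀ i, cor c i t = cor c i t') : t = t' :=
  Subtype.ext (funext h)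

theorem list_ext {l l' : List (Thr c)} (h : ∀ i, l.map (cor c i) = l'.map (cor c i)) :
    l = l' := by
  induction l generalizing l' with
  | nil =>
    have := h 0
    simp only [List.map_nil] at this
    exact (List.map_eq_nil_iff.mp this.symm).symm
  | cons a l ih =>
    cases l' with
    | nil => have := h 0; simp at this
    | cons a' l' =>
      have h1 : ∀ i, cor c i a = cor c i a' := fun i => by
        have := h i
        simp only [List.map_cons, List.cons.injEq] at this
        exact this.1
      have h2 : l = l' := ih (fun i => by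
        have := h i
        simp only [List.map_cons, List.cons.injEq] at this
        exact this.2)
      rw [thr_ext c h1, h2]

theorem zip_thr (n : ℕ) : ∀ L : ∀ j, List (A j), (L 0).length = n →
    (∀ j, (L (j + 1)).map (c j).f = L j) → ∃ l : List (Thr c), ∀ j, l.map (cor c j) = L j := by
  induction n with
  | zero =>
    intro L h0 h
    have h1 : ∀ j, (L j).length = 0 := by
      intro j
      induction j with
      | zero => exact h0
      | succ j ih => rw [← ih, ← h j]; simp
    exact ⟨[], fun j => by simp [List.length_eq_zero_iff.mp (h1 j)]⟩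
  | succ n ih =>
    intro L h0 h
    have h1 : ∀ j, (L j).length = n + 1 := by
      intro j
      induction j with
      | zero => exact h0
      | succ j ih => rw [← ih, ← h j]; simp
    have h2 : ∀ j, ∃ a l, L j = a :: l := by
      intro j
      have h3 := h1 j
      cases h : L j with
      | nil => rw [h] at h3; simp at h3
      | cons a l => exact ⟨a, l, rfl⟩
    choose a L' hL using h2
    have h3 : ∀ j, (c j).f (a (j + 1)) = a j ∧ (L' (j + 1)).map (c j).f = L' j := by
      intro j
      have h4 := h j
      rw [hL j, hL (j + 1)] at h4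
      simpa using h4
    obtain ⟨l, hl⟩ := ih L' (by
      have h4 := h1 0
      rw [hL 0] at h4
      simpa using h4) (fun j => (h3 j).2)
    let t : Thr c := ⟨a, fun j => (h3 j).1⟩
    refine ⟨t :: l, fun j => ?_⟩
    rw [hL j, List.map_cons, hl j]
    rfl

/-- Every short position of level `i` extends to a coherent family. -/
theorem lim_surj (i : ℕ) (l : List (A i)) (hl : l ∈ (T i).S) (hk : l.length ≤ k + i) :
    ∃ l' : List (Thr c), (∀ j, l'.map (cor c j) ∈ (T j).S) ∧ l'.map (cor c i) = l := by
  obtain ⟨L, h1, -, h3, h4⟩ := exists_thread i (A := fun j => List (A j))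
    (fun j => List.map (c j).f) (fun j l => l ∈ (T j).S ∧ l.length ≤ k + i)
    (fun j l => l ∈ (T j).S) (fun j l h => h.1) (fun j l h => (c j).mem l h)
    (by
      rintro j hj l ⟨h1, h2⟩
      obtain ⟨l', h3, h4⟩ := (c j).surj l h1 (by omega)
      refine ⟨l', ⟨h3, ?_⟩, h4⟩
      rw [← h4] at h2; simpa using h2) l ⟨hl, hk⟩
  obtain ⟨l', hl'⟩ := zip_thr c _ L rfl h4
  refine ⟨l', fun j => ?_, ?_⟩
  · rw [hl' j]; exact h3 j
  · rw [hl' i]; exact h1

theorem lim_uniq (i : ℕ) {l l' : List (Thr c)} (hl : ∀ j, l.map (cor c j) ∈ (T j).S)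
    (hl' : ∀ j, l'.map (cor c j) ∈ (T j).S) (hk : l.length ≤ k + i)
    (h : l.map (cor c i) = l'.map (cor c i)) : l = l' := by
  apply list_ext
  have hstep : ∀ j (l : List (Thr c)), (l.map (cor c (j + 1))).map (c j).f = l.map (cor c j) := by
    intro j l
    rw [List.map_map]
    apply List.map_congr_left
    intro t _
    exact cor_step c j t
  have hup : ∀ j, i ≤ j → l.map (cor c j) = l'.map (cor c j) := by
    intro j hj
    induction j, hj using Nat.le_induction with
    | base => exact h
    | succ j hj ih =>
      apply (c j).uniq _ (hl (j + 1)) _ (hl' (j + 1)) (by simp only [List.length_map]; omega)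
      rw [hstep, hstep, ih]
  have hdown : ∀ d j, j + d = i → l.map (cor c j) = l'.map (cor c j) := by
    intro d
    induction d with
    | zero => intro j hj; exact hup j (by omega)
    | succ d ih =>
      intro j hj
      rw [← hstep j l, ← hstep j l', ih (j + 1) (by omega)]
  intro j
  rcases Nat.le_total i j with h1 | h1
  · exact hup j h1
  · exact hdown (i - j) j (by omega)

/-- The limit tree. -/
def LT : GT (Thr c) where
  S := {l | ∀ j, l.map (cor c j) ∈ (T j).S}
  nil := fun j => (T j).nil
  tl := fun a l h j => (T j).tl _ _ (h j)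
  ext := by
    intro l hl
    obtain ⟨a, ha⟩ := (T (l.length + 1)).ext _ (hl (l.length + 1))
    obtain ⟨l', h1, h2⟩ := lim_surj c (l.length + 1) _ ha (by
      simp only [List.length_cons, List.length_map]; omega)
    cases l' with
    | nil => simp at h2
    | cons a' l' =>
      simp only [List.map_cons, List.cons.injEq] at h2
      have h3 : l' = l := lim_uniq c (l.length + 1) (fun j => (T j).tl _ _ (h1 j)) hl (by
        have := congrArg List.length h2.2
        simp only [List.length_map] at this
        omega) h2.2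
      subst h3
      exact ⟨a', h1⟩

open Classical in
/-- The trace of a strategy of the limit tree on short positions of level `i`. -/
noncomputable def bas (s : List (Thr c) → Thr c) (i : ℕ) (l : List (A i)) : A i :=
  if h : ∃ l', l' ∈ (LT c).S ∧ l'.map (cor c i) = l ∧ l.length ≤ k + i then
    cor c i (s h.choose) else (T i).child l

theorem bas_eq (s : List (Thr c) → Thr c) (i : ℕ) {l' : List (Thr c)} (h : l' ∈ (LT c).S)
    (hk : l'.length ≤ k + i) : bas c s i (l'.map (cor c i)) = cor c i (s l') := by
  have h' : ∃ l'', l'' ∈ (LT c).S ∧ l''.map (cor c i) = l'.map (cor c i) ∧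
      (l'.map (cor c i)).length ≤ k + i := ⟨l', h, rfl, by simpa using hk⟩
  have key : ∀ z : List (Thr c), z ∈ (LT c).S ∧ z.map (cor c i) = l'.map (cor c i) ∧
      (l'.map (cor c i)).length ≤ k + i → z = l' := by
    rintro z ⟨h1, h2, h3⟩
    refine lim_uniq c i h1 h ?_ h2
    rw [List.length_map] at h3
    have := congrArg List.length h2
    simp only [List.length_map] at this
    omega
  unfold bas
  rw [dif_pos h', key _ h'.choose_spec]

theorem bas_St {s : List (Thr c) → Thr c} (hs : (LT c).St s) (i : ℕ) : (T i).St (bas c s i) := by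
  intro l hl
  unfold bas
  split_ifs with h
  · obtain ⟨h1, h2, h3⟩ := h.choose_spec
    have h4 := hs _ h1 i
    rw [List.map_cons, h2] at h4
    exact h4
  · exact (T i).child_mem hl

/-- Finite stage strategies. -/
noncomputable def stg (b : ℕ) (s : List (Thr c) → Thr c) : ∀ _ : ℕ, ∀ i, List (A i) → A i
  | 0, i => bas c s i
  | m + 1, i => (c i).φ b (stg b s m (i + 1))

theorem stg_St {s : List (Thr c) → Thr c} (hs : (LT c).St s) (b m : ℕ) :
    ∀ i, (T i).St (stg c b s m i) := by
  induction m with
  | zero => intro i; exact bas_St c hs i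
  | succ m ih => intro i; exact (c i).st b _ (ih (i + 1))

theorem stg_succ {s : List (Thr c) → Thr c} (hs : (LT c).St s) (b m : ℕ) :
    ∀ i, ∀ l ∈ (T i).S, l.length + 1 ≤ k + i + m → stg c b s (m + 1) i l = stg c b s m i l := by
  induction m with
  | zero =>
    intro i l hl hk
    obtain ⟨l', h1, h2⟩ := lim_surj c i l hl (by omega)
    have h3 : l'.length = l.length := by rw [← h2]; simp
    have h4 := (c i).stab b (bas c s (i + 1)) (bas_St c hs (i + 1)) (l'.map (cor c (i + 1)))
      (h1 (i + 1)) (by simp only [List.length_map]; omega)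
    rw [List.map_map] at h4
    have h5 : l'.map ((c i).f ∘ cor c (i + 1)) = l := by
      rw [← h2]
      apply List.map_congr_left
      intro t _
      exact cor_step c i t
    rw [h5, bas_eq c s (i + 1) h1 (by omega), cor_step] at h4
    change (c i).φ b (bas c s (i + 1)) l = bas c s i l
    rw [h4, ← h2, bas_eq c s i h1 (by omega)]
  | succ m ih =>
    intro i l hl hk
    change (c i).φ b (stg c b s (m + 1) (i + 1)) l = (c i).φ b (stg c b s m (i + 1)) l
    apply (c i).loc b l.length _ _ _ l hl le_rfl
    intro l' hl' hk'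
    exact ih (i + 1) l' hl' (by omega)

theorem stg_eq {s : List (Thr c) → Thr c} (hs : (LT c).St s) (b i : ℕ) {l : List (A i)}
    (hl : l ∈ (T i).S) {m m' : ℕ} (hm : l.length + 1 ≤ k + i + m)
    (hm' : l.length + 1 ≤ k + i + m') : stg c b s m i l = stg c b s m' i l := by
  have key : ∀ m m', l.length + 1 ≤ k + i + m → m ≤ m' → stg c b s m' i l = stg c b s m i l := by
    intro m m' h1 h2
    induction m', h2 using Nat.le_induction with
    | base => rfl
    | succ m' h2 ih => rw [stg_succ c hs b m' i l hl (by omega), ih]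
  rcases Nat.le_total m m' with h | h
  · exact (key m m' hm h).symm
  · exact key m' m hm' h

/-- The limit strategy on level `i`. -/
noncomputable def lst (b : ℕ) (s : List (Thr c) → Thr c) (i : ℕ) (l : List (A i)) : A i :=
  stg c b s (l.length + 1) i l

theorem lst_St {s : List (Thr c) → Thr c} (hs : (LT c).St s) (b i : ℕ) :
    (T i).St (lst c b s i) := fun l hl => stg_St c hs b _ i l hl

theorem lst_step {s : List (Thr c) → Thr c} (hs : (LT c).St s) (b i : ℕ) {l : List (A i)}
    (hl : l ∈ (T i).S) : (c i).φ b (lst c b s (i + 1)) l = lst c b s i l := by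
  have h1 : (c i).φ b (lst c b s (i + 1)) l = (c i).φ b (stg c b s (l.length + 1) (i + 1)) l := by
    apply (c i).loc b l.length _ _ _ l hl le_rfl
    intro l' hl' hk'
    exact stg_eq c hs b (i + 1) hl' (by omega) (by omega)
  rw [h1]
  change stg c b s (l.length + 2) i l = _
  exact stg_eq c hs b i hl (by omega) (by omega)

theorem lst_short {s : List (Thr c) → Thr c} (hs : (LT c).St s) (b i : ℕ) {l : List (Thr c)}
    (hl : l ∈ (LT c).S) (hk : l.length < k + i) :
    lst c b s i (l.map (cor c i)) = cor c i (s l) := by
  unfold lst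
  rw [stg_eq c hs b i (m' := 0) (hl i) (by simp only [List.length_map]; omega)
    (by simp only [List.length_map]; omega)]
  exact bas_eq c s i hl hk.le

theorem stg_loc (b n : ℕ) {s s' : List (Thr c) → Thr c}
    (h : ∀ l ∈ (LT c).S, l.length ≤ n → s l = s' l) (m : ℕ) :
    ∀ i, ∀ l ∈ (T i).S, l.length ≤ n → stg c b s m i l = stg c b s' m i l := by
  induction m with
  | zero =>
    intro i l hl hn
    change bas c s i l = bas c s' i l
    unfold bas
    split_ifs with h1
    · obtain ⟨h2, h3, h4⟩ := h1.choose_spec
      rw [h _ h2 (by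
        have := congrArg List.length h3
        simp only [List.length_map] at this
        omega)]
    · rfl
  | succ m ih =>
    intro i l hl hn
    exact (c i).loc b n _ _ (ih (i + 1)) l hl hn

/-- The limit covering of level `i`. -/
noncomputable def LC (i : ℕ) : Cov (T i) (LT c) (k + i) where
  f := cor c i
  mem := fun l hl => hl i
  φ := fun b s => lst c b s i
  st := fun b s hs => lst_St c hs b i
  loc := by
    intro b n s s' h l hl hn
    exact stg_loc c b n h _ i l hl hn
  lift := by
    intro b hb s hs x hx hc
    obtain ⟨X, h1, h2, h3, h4⟩ := exists_thread i (A := fun j => ℕ → A j)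
      (fun j y n => (c j).f (y n)) (fun j y => (T j).Br y ∧ Con b (lst c b s j) y)
      (fun j y => (T j).Br y) (fun j y h => h.1) (fun j y h => (c j).br h)
      (by
        rintro j hj x ⟨h1, h2⟩
        obtain ⟨y, h3, h4, h5⟩ := (c j).lift b hb (lst c b s (j + 1)) (lst_St c hs b (j + 1)) x h1
          (fun n hn => by rw [lst_step c hs b j (h1 n)]; exact h2 n hn)
        exact ⟨y, ⟨h3, h4⟩, funext h5⟩) x ⟨hx, hc⟩
    have h4' : ∀ j n, (c j).f (X (j + 1) n) = X j n := fun j n => congrFun (h4 j) n
    let y : ℕ → Thr c := fun n => ⟨fun j => X j n, fun j => h4' j n⟩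
    have hy : ∀ j n, (ini y n).map (cor c j) = ini (X j) n := by
      intro j n; rw [ini_map]; rfl
    have hyS : (LT c).Br y := by
      intro n j
      rw [hy]; exact h3 j n
    refine ⟨y, hyS, ?_, ?_⟩
    · intro n hn
      apply thr_ext
      have hbig : ∀ j, i ≤ j → n < j → cor c j (y n) = cor c j (s (ini y n)) := by
        intro j hj hnj
        have h5 := (h2 j hj).2 n hn
        rw [← hy, lst_short c hs b j (hyS n) (by simp only [ini_length]; omega)] at h5
        exact h5
      have hdown : ∀ d j, i ≤ j + d → n < j + d → cor c j (y n) = cor c j (s (ini y n)) := by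
        intro d
        induction d with
        | zero => intro j h5 h6; exact hbig j h5 h6
        | succ d ih =>
          intro j h5 h6
          rw [← cor_step c j (y n), ← cor_step c j (s (ini y n)), ih (j + 1) (by omega) (by omega)]
      intro j
      exact hdown (i + n + 1) j (by omega) (by omega)
    · intro n
      change X i n = x n
      rw [h1]
  uniq := fun l hl l' hl' hk h => lim_uniq c i hl hl' hk h
  surj := by
    intro l hl hk
    obtain ⟨l', h1, h2⟩ := lim_surj c i l hl hk
    exact ⟨l', h1, h2⟩
  stab := fun b s hs l hl hk => lst_short c hs b i hl hk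

theorem LC_f (i : ℕ) : (LC c i).f = cor c i := rfl

end Pool.Agent.Lib.P43c499
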