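import Pool.Agent.Lib.P43c499.Pos

/-!
Limit points of plays, and quasi-Borel payoffs.
-/

namespace Pool.Agent.Lib.P43c499

open NoHom
open scoped MeasureTheory

/-! ### The quasi-Borel sets as a sigma-algebra -/

/-- The sigma-algebra of quasi-Borel sets. -/
@[reducible] def qbm (A : Type) : MeasurableSpace (ℕ → A) where
  MeasurableSet' := QB
  measurableSet_empty := by
    have := QB.basic (A := A) 0 ∅
    simpa using this
  measurableSet_compl := fun U h => QB.compl U h
  measurableSet_iUnion := fun U h => QB.iUnion U h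

theorem qb_coord {A : Type} (p : A → Prop) (n : ℕ) : MeasurableSet[qbm A] {x | p (x n)} := by
  have : {x : ℕ → A | p (x n)} = {x | ini x (n + 1) ∈ {l | ∃ a l', l = a :: l' ∧ p a}} := by
    ext x
    simp only [Set.mem_ofPred_eq, ini_succ, List.cons.injEq]
    constructor
    · intro h; exact ⟨x n, _, ⟨rfl, rfl⟩, h⟩
    · rintro ⟨a, l', ⟨rfl, _⟩, h⟩; exact h
  rw [this]
  exact QB.basic _ _

theorem QB.comap {A B : Type} (f : B → A) {U : Set (ℕ → A)} (h : QB U) :
    QB {x : ℕ → B | (fun n => f (x n)) ∈ U} := by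
  induction h with
  | basic n D =>
    have : {x : ℕ → B | (fun n => f (x n)) ∈ {x | ini x n ∈ D}} =
        {x | ini x n ∈ {l | l.map f ∈ D}} := by
      ext x
      simp only [Set.mem_ofPred_eq, ini_map]
    rw [this]
    exact QB.basic _ _
  | compl U _ ih => exact QB.compl _ ih
  | iUnion U _ ih =>
    have : {x : ℕ → B | (fun n => f (x n)) ∈ ⋃ i, U i} =
        ⋃ i, {x : ℕ → B | (fun n => f (x n)) ∈ U i} := by
      ext x
      simp only [Set.mem_ofPred_eq, Set.mem_iUnion]
    rw [this]
    exact QB.iUnion _ ih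
  | sep n U _ ih =>
    have : {x : ℕ → B | (fun n => f (x n)) ∈ {x | x ∈ U (ini x n)}} =
        {x | x ∈ (fun l : List B => {x : ℕ → B | (fun n => f (x n)) ∈ U (l.map f)}) (ini x n)} := by
      ext x
      simp only [Set.mem_ofPred_eq, ini_map]
    rw [this]
    exact QB.sep n _ (fun p => ih _)

/-! ### Limits -/

/-- The element and digit are defined at time `n`. -/
def Kn (g : Gam) (m : ℕ) (q : Pos) : Prop := g ∈ q.C ∧ m < q.L

open Classical in
/-- The limit labelling. -/
noncomputable def limu (x : ℕ → Pos) : Gam → ℕ → ℕ := fun g m =>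
  if h : ∃ n, Kn g m (x n) then (x (Nat.find h)).lab g m else 0

/-- The limit set of reals. -/
def limR (x : ℕ → Pos) : Set ℝ := ⋃ n, (x n).R

/-- Increasing sequences. -/
def Inc (x : ℕ → Pos) : Prop := ∀ n, Pos.Le (x n) (x (n + 1))

theorem Inc.le {x : ℕ → Pos} (h : Inc x) {n m : ℕ} (hnm : n ≤ m) : Pos.Le (x n) (x m) := by
  induction m, hnm using Nat.le_induction with
  | base => exact Pos.Le.refl _
  | succ m _ ih => exact ih.trans (h m)

theorem limu_eq {x : ℕ → Pos} (h : Inc x) {n : ℕ} {g : Gam} (hg : g ∈ (x n).C) {m : ℕ}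
    (hm : m < (x n).L) : limu x g m = (x n).lab g m := by
  classical
  have hex : ∃ n, Kn g m (x n) := ⟨n, hg, hm⟩
  unfold limu
  rw [dif_pos hex]
  obtain ⟨h1, h2⟩ := Nat.find_spec hex
  have h3 : Nat.find hex ≤ n := Nat.find_min' hex ⟨hg, hm⟩
  exact ((h.le h3).lab g h1 m h2).symm

/-- Everything is eventually defined. -/
structure Full (x : ℕ → Pos) : Prop where
  inc : Inc x
  all : ∀ g, ∃ n, g ∈ (x n).C
  unb : ∀ m, ∃ n, m < (x n).L

theorem Full.both {x : ℕ → Pos} (h : Full x) (g : Gam) (m : ℕ) : ∃ n, g ∈ (x n).C ∧ m < (x n).L := by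
  obtain ⟨n, hn⟩ := h.all g
  obtain ⟨n', hn'⟩ := h.unb m
  exact ⟨max n n', (h.inc.le (le_max_left n n')).C hn,
    lt_of_lt_of_le hn' (h.inc.le (le_max_right n n')).L⟩

theorem Full.uniq {x : ℕ → Pos} (h : Full x) {u : Gam → ℕ → ℕ}
    (hu : ∀ n, ∀ g ∈ (x n).C, ∀ m < (x n).L, u g m = (x n).lab g m) : u = limu x := by
  funext g m
  obtain ⟨n, h1, h2⟩ := h.both g m
  rw [hu n g h1 m h2, limu_eq h.inc h1 h2]

theorem Full.EZ {x : ℕ → Pos} (h : Full x) : EZ (limu x) := by
  refine ⟨?_, ?_⟩
  · intro g g' hgg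
    obtain ⟨n, hn⟩ := h.all g
    obtain ⟨n', hn'⟩ := h.all g'
    have h1 := (h.inc.le (le_max_left n n')).C hn
    have h2 := (h.inc.le (le_max_right n n')).C hn'
    apply (x (max n n')).inj g h1 g' h2
    intro m hm
    rw [← limu_eq h.inc h1 hm, ← limu_eq h.inc h2 hm, hgg]
  · intro g g'
    obtain ⟨n, hn⟩ := h.all g
    obtain ⟨n', hn'⟩ := h.all g'
    have h1 := (h.inc.le (le_max_left n n')).C hn
    have h2 := (h.inc.le (le_max_right n n')).C hn'
    refine ⟨(x (max n n')).L, fun m hm => ?_⟩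
    obtain ⟨k, hk⟩ := h.unb m
    have h3 := h.inc.le (le_max_left (max n n') k)
    have h4 : m < (x (max (max n n') k)).L :=
      lt_of_lt_of_le hk (h.inc.le (le_max_right (max n n') k)).L
    rw [limu_eq h.inc (h3.C h1) h4, limu_eq h.inc (h3.C h2) h4]
    exact h3.com g h1 g' h2 m hm h4

/-! ### Measurability -/

theorem limu_meas_coord (g : Gam) (m v : ℕ) :
    MeasurableSet[qbm Pos] {x | limu x g m = v} := by
  classical
  have hk : ∀ n, MeasurableSet[qbm Pos] {x : ℕ → Pos | Kn g m (x n)} := fun n => qb_coord _ n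
  have hl : ∀ n, MeasurableSet[qbm Pos] {x : ℕ → Pos | (x n).lab g m = v} := fun n =>
    qb_coord (fun q : Pos => q.lab g m = v) n
  have : {x : ℕ → Pos | limu x g m = v} =
      (⋃ n, ({x | Kn g m (x n)} ∩ {x | (x n).lab g m = v} ∩
        ⋂ k ∈ Set.Iio n, {x | Kn g m (x k)}ᶜ)) ∪
      ((⋂ n, {x | Kn g m (x n)}ᶜ) ∩ {_x | v = 0}) := by
    ext x
    simp only [Set.mem_ofPred_eq, Set.mem_union, Set.mem_iUnion, Set.mem_inter_iff,
      Set.mem_iInter, Set.mem_compl_iff, Set.mem_Iio]
    constructor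
    · intro h
      unfold limu at h
      split_ifs at h with h1
      · left
        exact ⟨Nat.find h1, ⟨Nat.find_spec h1, h⟩, fun k hk => Nat.find_min h1 hk⟩
      · right
        exact ⟨fun n hn => h1 ⟨n, hn⟩, h.symm⟩
    · rintro (⟨n, ⟨h1, h2⟩, h3⟩ | ⟨h1, h2⟩)
      · have hex : ∃ n, Kn g m (x n) := ⟨n, h1⟩
        unfold limu
        rw [dif_pos hex]
        have : Nat.find hex = n := by
          apply le_antisymm (Nat.find_min' hex h1)
          by_contra h4
          exact h3 _ (by omega) (Nat.find_spec hex)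
        rw [this]; exact h2
      · unfold limu
        rw [dif_neg (fun ⟨n, hn⟩ => h1 n hn), h2]
  rw [this]
  refine MeasurableSet.union (MeasurableSet.iUnion fun n => ?_) ?_
  · exact ((hk n).inter (hl n)).inter
      (MeasurableSet.biInter (Set.to_countable _) fun k _ => (hk k).compl)
  · refine (MeasurableSet.iInter fun n => (hk n).compl).inter ?_
    by_cases hv : v = 0
    · simp [hv]
    · simp [hv]

theorem limu_meas : @Measurable (ℕ → Pos) (Gam → ℕ → ℕ) (qbm Pos) _ limu := by
  let _ := qbm Pos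
  refine measurable_pi_iff.mpr fun g => measurable_pi_iff.mpr fun m => ?_
  exact measurable_to_countable' fun v => limu_meas_coord g m v

section

variable (f : (Gam → ℕ → ℕ) → ℝ) (c : ℝ → (Gam → ℕ → ℕ) → Fin 3)

open Classical in
/-- The colour. -/
noncomputable def col (u : Gam → ℕ → ℕ) (R : Set ℝ) : Option (Fin 3) :=
  if f u ∈ R then some (c (f u) u) else none

/-- Auxiliary family for the colour payoff. -/
def ucol (j : Fin 3) : List Pos → Set (ℕ → Pos)
  | [] => ∅
  | q :: _ => ⋃ r ∈ q.R, {x | f (limu x) = r ∧ c r (limu x) = j}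

variable {f c}

theorem col_meas (hf : Measurable f) (hc : ∀ r, Measurable (c r)) (j : Fin 3) :
    MeasurableSet[qbm Pos] {x | col f c (limu x) (limR x) = some j} := by
  have h1 : ∀ r, MeasurableSet[qbm Pos] {x | f (limu x) = r ∧ c r (limu x) = j} := by
    intro r
    have h2 : MeasurableSet {u | f u = r ∧ c r u = j} :=
      (hf (measurableSet_singleton r)).inter (hc r (measurableSet_singleton j))
    exact limu_meas h2
  have h3 : ∀ q : Pos, MeasurableSet[qbm Pos]
      (⋃ r ∈ q.R, {x | f (limu x) = r ∧ c r (limu x) = j}) := by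
    intro q
    exact MeasurableSet.biUnion q.cnt fun r _ => h1 r
  have h4 : {x | col f c (limu x) (limR x) = some j} =
      ⋃ n, {x | x ∈ ucol f c j (ini x (n + 1))} := by
    ext x
    simp only [Set.mem_ofPred_eq, Set.mem_iUnion, ini_succ, col, ucol, exists_prop]
    constructor
    · intro h
      split_ifs at h with h5
      obtain ⟨n, hn⟩ := Set.mem_iUnion.mp h5
      simp only [Option.some.injEq] at h
      exact ⟨n, f (limu x), hn, rfl, h⟩
    · rintro ⟨n, r, hr, h5, h6⟩
      subst h5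
      have h7 : f (limu x) ∈ limR x := Set.mem_iUnion.mpr ⟨n, hr⟩
      rw [if_pos h7, h6]
  rw [h4]
  refine MeasurableSet.iUnion fun n => ?_
  refine QB.sep (n + 1) (ucol f c j) (fun l => ?_)
  cases l with
  | nil => exact (qbm Pos).measurableSet_empty
  | cons q l => exact h3 q

open Classical in
/-- The bits of a real. -/
noncomputable def bit (k : ℕ) (r : ℝ) : Bool :=
  if ∃ q : ℚ, Encodable.decode (α := ℚ) k = some q ∧ r < q then true else false

theorem bit_iff {k : ℕ} {r : ℝ} :
    bit k r = true ↔ ∃ q : ℚ, Encodable.decode (α := ℚ) k = some q ∧ r < q := by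
  unfold bit
  split_ifs with h
  · simp only [true_iff]; exact h
  · simp only [false_iff]; exact h

theorem bit_ext {r r' : ℝ} (h : ∀ k, bit k r = bit k r') : r = r' := by
  by_contra hne
  wlog hlt : r < r' generalizing r r'
  · exact this (fun k => (h k).symm) (Ne.symm hne) (lt_of_le_of_ne (not_lt.mp hlt) (Ne.symm hne))
  obtain ⟨q, h1, h2⟩ := exists_rat_btwn hlt
  have h3 : bit (Encodable.encode q) r = true := bit_iff.mpr ⟨q, Encodable.encodek q, h1⟩
  rw [h, bit_iff] at h3
  obtain ⟨q', h4, h5⟩ := h3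
  rw [Encodable.encodek] at h4
  simp only [Option.some.injEq] at h4
  subst h4
  exact absurd h5 (not_lt.mpr h2.le)

theorem bit_meas (k : ℕ) (b : Bool) : MeasurableSet {r : ℝ | bit k r = b} := by
  have h1 : MeasurableSet {r : ℝ | bit k r = true} := by
    have : {r : ℝ | bit k r = true} = ⋃ q : ℚ, {r : ℝ | Encodable.decode (α := ℚ) k = some q ∧
        r < q} := by
      ext r
      simp only [Set.mem_ofPred_eq, Set.mem_iUnion, bit_iff]
    rw [this]
    refine MeasurableSet.iUnion fun q => ?_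
    by_cases h : Encodable.decode (α := ℚ) k = some q
    · simp only [h, true_and]; exact measurableSet_Iio
    · simp only [h, false_and]; simp
  cases b with
  | true => exact h1
  | false =>
    have : {r : ℝ | bit k r = false} = {r : ℝ | bit k r = true}ᶜ := by
      ext r; simp
    rw [this]; exact h1.compl

variable (f c)

/-- The payoff. -/
def WW (k : ℕ) (b : Bool) (u : Gam → ℕ → ℕ) (R : Set ℝ) : Prop :=
  (∃ j, j ≠ 2 ∧ col f c u R = some j) ∨ (col f c u R = none ∧ bit k (f u) = b)

variable {f c}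

theorem WW_meas (hf : Measurable f) (hc : ∀ r, Measurable (c r)) (k : ℕ) (b : Bool) :
    QB {x | WW f c k b (limu x) (limR x)} := by
  have h1 := col_meas hf hc
  have h2 : {x | WW f c k b (limu x) (limR x)} =
      (⋃ j ∈ ({j | j ≠ 2} : Set (Fin 3)), {x | col f c (limu x) (limR x) = some j}) ∪
      ((⋃ j, {x | col f c (limu x) (limR x) = some j})ᶜ ∩ {x | bit k (f (limu x)) = b}) := by
    ext x
    simp only [WW, Set.mem_ofPred_eq, Set.mem_union, Set.mem_iUnion, Set.mem_inter_iff,
      Set.mem_compl_iff, exists_prop, not_exists]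
    rw [Option.eq_none_iff_forall_ne_some]
  rw [h2]
  have h3 : MeasurableSet[qbm Pos] {x | bit k (f (limu x)) = b} :=
    limu_meas (hf (bit_meas k b))
  exact MeasurableSet.union (MeasurableSet.biUnion (Set.to_countable _) fun j _ => h1 j)
    (((MeasurableSet.iUnion h1).compl).inter h3)

end

end Pool.Agent.Lib.P43c499
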