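import Pool.Agent.Lib.P43c499.Comb

/-!
The auxiliary tree making an open set clopen.
-/

namespace Pool.Agent.Lib.P43c499

universe u

variable {A : Type u}

/-- Decorations of moves. -/
inductive Dec (A : Type u)
  | no : Dec A
  | qs (Q : Set (List A)) : Dec A
  | op (v : List A) : Dec A
  | cl (Q : Set (List A)) : Dec A

/-- The decoration of the move at index `n`. -/
def dec (K : ℕ) (D : Set (List A) × Dec A) (n : ℕ) : Dec A :=
  if n = K then Dec.qs D.1 else if n = K + 1 then D.2 else Dec.no

/-- Decorated positions. -/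
def zd (K : ℕ) (D : Set (List A) × Dec A) : List A → List (A × Dec A)
  | [] => []
  | a :: l => (a, dec K D l.length) :: zd K D l

@[simp] theorem zd_nil (K : ℕ) (D : Set (List A) × Dec A) : zd K D ([] : List A) = [] := rfl

theorem zd_cons (K : ℕ) (D : Set (List A) × Dec A) (a : A) (l : List A) :
    zd K D (a :: l) = (a, dec K D l.length) :: zd K D l := rfl

@[simp] theorem zd_length (K : ℕ) (D : Set (List A) × Dec A) (l : List A) :
    (zd K D l).length = l.length := by
  induction l with
  | nil => rfl
  | cons a l ih => simp [zd_cons, ih]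

@[simp] theorem zd_fst (K : ℕ) (D : Set (List A) × Dec A) (l : List A) :
    (zd K D l).map Prod.fst = l := by
  induction l with
  | nil => rfl
  | cons a l ih => simp [zd_cons, ih]

theorem zd_congr {K : ℕ} {D D' : Set (List A) × Dec A} {l : List A}
    (h1 : K + 1 ≤ l.length → D.1 = D'.1) (h2 : K + 2 ≤ l.length → D.2 = D'.2) :
    zd K D l = zd K D' l := by
  induction l with
  | nil => rfl
  | cons a l ih =>
    rw [zd_cons, zd_cons, ih (fun h => h1 (by simp only [List.length_cons]; omega))
      (fun h => h2 (by simp only [List.length_cons]; omega))]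
    congr 2
    unfold dec
    split_ifs with h3 h4
    · rw [h1 (by simp only [List.length_cons]; omega)]
    · rw [h2 (by simp only [List.length_cons]; omega)]
    · rfl

theorem zd_inj {K : ℕ} {D D' : Set (List A) × Dec A} {l l' : List A}
    (h : zd K D l = zd K D' l') :
    l = l' ∧ (K + 1 ≤ l.length → D.1 = D'.1) ∧ (K + 2 ≤ l.length → D.2 = D'.2) := by
  induction l generalizing l' with
  | nil =>
    cases l' with
    | nil => simp
    | cons a l' => simp [zd_cons] at h
  | cons a l ih =>
    cases l' with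
    | nil => simp [zd_cons] at h
    | cons a' l' =>
      simp only [zd_cons, List.cons.injEq, Prod.mk.injEq] at h
      obtain ⟨⟨ha, hd⟩, hl⟩ := h
      obtain ⟨h1, h2, h3⟩ := ih hl
      subst ha h1
      refine ⟨rfl, fun h4 => ?_, fun h4 => ?_⟩
      · by_cases h5 : K + 1 ≤ l.length
        · exact h2 h5
        · have h6 : l.length = K := by simp only [List.length_cons] at h4; omega
          simpa [dec, h6] using hd
      · by_cases h5 : K + 2 ≤ l.length
        · exact h3 h5
        · have h6 : l.length = K + 1 := by simp only [List.length_cons] at h4; omega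
          simpa [dec, h6] using hd

theorem zd_ini (K : ℕ) (D : Set (List A) × Dec A) (x : ℕ → A) (n : ℕ) :
    zd K D (ini x n) = ini (fun n => (x n, dec K D n)) n := by
  induction n with
  | zero => rfl
  | succ n ih => rw [ini_succ, zd_cons, ih, ini_succ, ini_length]

/-- Valid decorated positions. -/
structure Valid (T : GT A) (R : Set (List A)) (K : ℕ) (D : Set (List A) × Dec A) (l : List A) :
    Prop where
  mem : l ∈ T.S
  one : K + 1 ≤ l.length → QS 0 T.S (anc (K + 1) l) D.1
  two : K + 2 ≤ l.length →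
    (∃ v, D.2 = Dec.op v ∧ v ∈ D.1 ∧ v ∈ R ∧ anc (K + 2) l <:+ v ∧ (v <:+ l ∨ l <:+ v)) ∨
    (∃ Q, D.2 = Dec.cl Q ∧ QS 1 D.1 (anc (K + 2) l) Q ∧ (∀ v ∈ Q, v ∉ R) ∧ l ∈ Q)

theorem Valid.tl {T : GT A} {R : Set (List A)} {K : ℕ} {D : Set (List A) × Dec A} {a : A}
    {l : List A} (h : Valid T R K D (a :: l)) : Valid T R K D l where
  mem := T.tl a l h.mem
  one := by
    intro h1
    have := h.one (by simp only [List.length_cons]; omega)
    rwa [anc_cons_of_le h1] at this
  two := by
    intro h1
    have := h.two (by simp only [List.length_cons]; omega)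
    rw [anc_cons_of_le h1] at this
    rcases this with ⟨v, h2, h3, h4, h5, h6⟩ | ⟨Q, h2, h3, h4, h5⟩
    · left
      refine ⟨v, h2, h3, h4, h5, ?_⟩
      rcases h6 with h6 | h6
      · rcases List.suffix_cons_iff.mp h6 with h7 | h7
        · right; rw [h7]; exact List.suffix_cons a l
        · left; exact h7
      · right; exact (List.suffix_cons a l).trans h6
    · right
      refine ⟨Q, h2, h3, h4, h3.tl a l h5 ?_⟩
      rw [anc_length h1]; exact h1

theorem Valid.congr {T : GT A} {R : Set (List A)} {K : ℕ} {D D' : Set (List A) × Dec A}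
    {l : List A} (h : Valid T R K D l) (h1 : K + 1 ≤ l.length → D.1 = D'.1)
    (h2 : K + 2 ≤ l.length → D.2 = D'.2) : Valid T R K D' l where
  mem := h.mem
  one := fun h3 => by rw [← h1 h3]; exact h.one h3
  two := fun h3 => by rw [← h1 (by omega), ← h2 h3]; exact h.two h3

theorem QS_all (T : GT A) {w : List A} (hw : w ∈ T.S) :
    QS 0 T.S w {l | l ∈ T.S ∧ w <:+ l} where
  sub := fun l h => h.1
  root := ⟨hw, List.suffix_rfl⟩
  above := fun l h => h.2
  tl := by
    intro a l h h1
    refine ⟨T.tl a l h.1, ?_⟩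
    rcases List.suffix_cons_iff.mp h.2 with h4 | h4
    · rw [h4] at h1; simp at h1
    · exact h4
  own := by
    intro l h _
    obtain ⟨a, ha⟩ := T.ext l h.1
    exact ⟨a, ha, h.2.trans (List.suffix_cons a l)⟩
  opp := fun l h _ a ha => ⟨ha, h.2.trans (List.suffix_cons a l)⟩

theorem QS.ext {S : Set (List A)} {w : List A} {Q : Set (List A)} {b : ℕ}
    (hS : ∀ l ∈ S, ∃ a, a :: l ∈ S) (h : QS b S w Q) : ∀ l ∈ Q, ∃ a, a :: l ∈ Q := by
  intro l hl
  by_cases h1 : l.length % 2 = b
  · exact h.own l hl h1
  · obtain ⟨a, ha⟩ := hS l (h.sub hl)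
    exact ⟨a, h.opp l hl h1 a ha⟩

/-- Next step in a valid position. -/
theorem Valid.ext {T : GT A} {R : Set (List A)} {K : ℕ} (hK : K % 2 = 0)
    {D : Set (List A) × Dec A} {l : List A} (h : Valid T R K D l) :
    ∃ a D', Valid T R K D' (a :: l) ∧ (K + 1 ≤ l.length → D.1 = D'.1) ∧
      (K + 2 ≤ l.length → D.2 = D'.2) := by
  rcases Nat.lt_trichotomy l.length K with h1 | h1 | h1
  · obtain ⟨a, ha⟩ := T.ext l h.mem
    refine ⟨a, D, ⟨ha, ?_, ?_⟩, fun _ => rfl, fun _ => rfl⟩
    · intro h2; simp only [List.length_cons] at h2; omega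
    · intro h2; simp only [List.length_cons] at h2; omega
  · obtain ⟨a, ha⟩ := T.ext l h.mem
    refine ⟨a, ({v | v ∈ T.S ∧ a :: l <:+ v}, D.2), ⟨ha, ?_, ?_⟩, ?_, ?_⟩
    · intro h2
      rw [anc_of_le (by simp only [List.length_cons]; omega)]
      exact QS_all T ha
    · intro h2; simp only [List.length_cons] at h2; omega
    · intro h2; omega
    · intro h2; omega
  · have hQ := h.one (by omega)
    have hQext := hQ.ext T.ext
    by_cases h2 : l.length = K + 1
    · rw [anc_of_le (by omega)] at hQ
      obtain ⟨a, ha⟩ := hQext l hQ.root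
      by_cases hW : Wn 0 D.1 R (a :: l)
      · obtain ⟨v, hv1, hv2, hv3⟩ := hW.exists_mem ha hQext
        refine ⟨a, (D.1, Dec.op v), ⟨hQ.sub ha, ?_, ?_⟩, ?_, ?_⟩
        · intro _
          rw [anc_cons_of_le (by omega), anc_of_le (by omega)]; exact hQ
        · intro _
          left
          refine ⟨v, rfl, hv1, hv2, ?_, Or.inr hv3⟩
          rw [anc_of_le (by simp only [List.length_cons]; omega)]; exact hv3
        · intro _; rfl
        · intro h3; omega
      · have hc := Wc_QS (b := 0) (by norm_num) ha (fun a' l' h3 h4 => hQ.tl a' l' h3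
          (by simp only [List.length_cons] at h4; omega)) hW
        refine ⟨a, (D.1, Dec.cl (Wc 0 D.1 R (a :: l))), ⟨hQ.sub ha, ?_, ?_⟩, ?_, ?_⟩
        · intro _
          rw [anc_cons_of_le (by omega), anc_of_le (by omega)]; exact hQ
        · intro _
          right
          refine ⟨_, rfl, ?_, fun v hv => Wc_disj hv, hc.root⟩
          rw [anc_of_le (by simp only [List.length_cons]; omega)]; exact hc
        · intro _; rfl
        · intro h3; omega
    · have h3 : K + 2 ≤ l.length := by omega
      rcases h.two h3 with ⟨v, h4, h5, h6, h7, h8⟩ | ⟨Q, h4, h5, h6, h7⟩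
      · have : ∃ a, a :: l ∈ T.S ∧ (v <:+ a :: l ∨ a :: l <:+ v) := by
          by_cases h9 : v <:+ l
          · obtain ⟨a, ha⟩ := T.ext l h.mem
            exact ⟨a, ha, Or.inl (h9.trans (List.suffix_cons a l))⟩
          · have h10 : l <:+ v := h8.resolve_left h9
            have h11 : l.length < v.length := by
              rcases Nat.lt_or_ge l.length v.length with h12 | h12
              · exact h12
              · exfalso; apply h9
                rw [h10.eq_of_length_le h12]
            have h12 : anc (l.length + 1) v <:+ v := anc_suffix _ _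
            have h13 : (anc (l.length + 1) v).length = l.length + 1 := anc_length (by omega)
            cases h14 : anc (l.length + 1) v with
            | nil => rw [h14] at h13; simp at h13
            | cons a l' =>
              have h15 : l' = l := by
                have h16 := eq_anc_of_suffix h10
                rw [← anc_anc (Nat.le_succ l.length) v, Nat.succ_eq_add_one, h14,
                  anc_cons_of_le (by rw [h14] at h13; simp at h13; omega), anc_of_le (by
                  rw [h14] at h13; simp at h13; omega)] at h16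
                exact h16.symm
              subst h15
              refine ⟨a, ?_, Or.inr (by rw [← h14]; exact h12)⟩
              rw [← h14]; exact T.suffix h12 (hQ.sub h5)
        obtain ⟨a, ha1, ha2⟩ := this
        refine ⟨a, D, ⟨ha1, ?_, ?_⟩, fun _ => rfl, fun _ => rfl⟩
        · intro _; rw [anc_cons_of_le (by omega)]; exact hQ
        · intro _; left
          rw [anc_cons_of_le h3]
          exact ⟨v, h4, h5, h6, h7, ha2⟩
      · obtain ⟨a, ha⟩ := h5.ext hQext l h7
        refine ⟨a, D, ⟨hQ.sub (h5.sub ha), ?_, ?_⟩, fun _ => rfl, fun _ => rfl⟩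
        · intro _; rw [anc_cons_of_le (by omega)]; exact hQ
        · intro _; right
          rw [anc_cons_of_le h3]
          exact ⟨Q, h4, h5, h6, ha⟩

/-- The auxiliary tree. -/
def OT (T : GT A) (R : Set (List A)) (K : ℕ) (hK : K % 2 = 0) : GT (A × Dec A) where
  S := {z | ∃ D l, Valid T R K D l ∧ z = zd K D l}
  nil := ⟨(∅, Dec.no), [], ⟨T.nil, by intro h; simp at h, by intro h; simp at h⟩, rfl⟩
  tl := by
    rintro a z ⟨D, l, h, hz⟩
    cases l with
    | nil => simp at hz
    | cons b l =>
      rw [zd_cons, List.cons.injEq] at hz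
      exact ⟨D, l, h.tl, hz.2⟩
  ext := by
    rintro z ⟨D, l, h, rfl⟩
    obtain ⟨a, D', h1, h2, h3⟩ := h.ext hK
    refine ⟨(a, dec K D' l.length), D', a :: l, h1, ?_⟩
    rw [zd_cons, zd_congr h2 h3]

theorem OT_mem {T : GT A} {R : Set (List A)} {K : ℕ} {hK : K % 2 = 0}
    {D : Set (List A) × Dec A} {l : List A} : zd K D l ∈ (OT T R K hK).S ↔ Valid T R K D l := by
  constructor
  · rintro ⟨D', l', h, hz⟩
    obtain ⟨h1, h2, h3⟩ := zd_inj hz
    subst h1
    exact h.congr (fun h4 => (h2 h4).symm) (fun h4 => (h3 h4).symm)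
  · intro h; exact ⟨D, l, h, rfl⟩

/-- The answer of a legal strategy at a valid position. -/
theorem OT_step {T : GT A} {R : Set (List A)} {K : ℕ} {hK : K % 2 = 0}
    {s : List (A × Dec A) → A × Dec A} (hs : (OT T R K hK).St s)
    {D : Set (List A) × Dec A} {l : List A} (h : Valid T R K D l) :
    ∃ D', Valid T R K D' ((s (zd K D l)).1 :: l) ∧ (s (zd K D l)).2 = dec K D' l.length ∧
      (K + 1 ≤ l.length → D.1 = D'.1) ∧ (K + 2 ≤ l.length → D.2 = D'.2) := by
  obtain ⟨D', l', h1, h2⟩ := hs _ (OT_mem.mpr h)
  cases l' with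
  | nil => simp at h2
  | cons a l' =>
    rw [zd_cons, List.cons.injEq] at h2
    obtain ⟨h3, h4⟩ := h2
    obtain ⟨h5, h6, h7⟩ := zd_inj h4
    subst h5
    rw [h3]
    exact ⟨D', h1, rfl, h6, h7⟩

theorem OT_step' {T : GT A} {R : Set (List A)} {K : ℕ} {hK : K % 2 = 0}
    {s : List (A × Dec A) → A × Dec A} (hs : (OT T R K hK).St s)
    {D : Set (List A) × Dec A} {l : List A} (h : Valid T R K D l) (h1 : K + 2 ≤ l.length) :
    Valid T R K D ((s (zd K D l)).1 :: l) ∧ (s (zd K D l)).2 = Dec.no := by
  obtain ⟨D', h2, h3, h4, h5⟩ := OT_step hs h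
  have h6 : D = D' := Prod.ext (h4 (by omega)) (h5 h1)
  subst h6
  refine ⟨h2, ?_⟩
  rw [h3]
  unfold dec
  rw [if_neg (by omega), if_neg (by omega)]

end Pool.Agent.Lib.P43c499
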