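import Pool.Agent.Lib.P43c499.Open1

/-!
The covering making an open set clopen.
-/

namespace Pool.Agent.Lib.P43c499

universe u

variable {A : Type u}

open Classical in
/-- Restrict a strategy to short positions. -/
noncomputable def trn {B : Type u} (T : GT B) (n : ℕ) (s : List B → B) (l : List B) : B :=
  if l ∈ T.S ∧ l.length ≤ n then s l else T.child []

theorem trn_of_mem {B : Type u} {T : GT B} {n : ℕ} {s : List B → B} {l : List B}
    (h : l ∈ T.S) (hn : l.length ≤ n) : trn T n s l = s l := by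
  unfold trn; rw [if_pos ⟨h, hn⟩]

theorem trn_trn {B : Type u} {T : GT B} {n m : ℕ} {s : List B → B} {l : List B}
    (hn : l.length ≤ n) (hm : l.length ≤ m) : trn T n s l = trn T m s l := by
  by_cases h : l ∈ T.S
  · rw [trn_of_mem h hn, trn_of_mem h hm]
  · unfold trn
    rw [if_neg (fun h' => h h'.1), if_neg (fun h' => h h'.1)]

theorem trn_congr {B : Type u} {T : GT B} {n m : ℕ} {s s' : List B → B}
    (h : ∀ l ∈ T.S, l.length ≤ n → s l = s' l) (hm : m ≤ n) : trn T m s = trn T m s' := by
  funext l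
  unfold trn
  split_ifs with h1
  · exact h l h1.1 (h1.2.trans hm)
  · rfl

/-- Default decoration. -/
def d0 : Set (List A) × Dec A := (∅, Dec.no)

/-- The set in a decoration. -/
def getQ : Dec A → Set (List A)
  | Dec.qs Q => Q
  | _ => ∅

open Classical in
/-- Strategy for player 0. -/
noncomputable def psi0 [Nonempty A] (R : Set (List A)) (K : ℕ)
    (s : List (A × Dec A) → A × Dec A) (l : List A) : A :=
  if l.length ≤ K then (s (zd K d0 l)).1 else
    comb 0 (getQ (s (zd K d0 (anc K l))).2)
      {v | v ∈ R ∧ v ∈ getQ (s (zd K d0 (anc K l))).2} (K + 2) l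
      (fun v => (s (zd K (getQ (s (zd K d0 (anc K l))).2, Dec.op v) l)).1)
      (s (zd K (getQ (s (zd K d0 (anc K l))).2,
        Dec.cl (Wc 0 (getQ (s (zd K d0 (anc K l))).2)
          {v | v ∈ R ∧ v ∈ getQ (s (zd K d0 (anc K l))).2} (anc (K + 2) l))) l)).1

/-- Targets for player 1. -/
def V1 (T : GT A) (w : List A) (r : Set (List A) → Dec A) : Set (List A) :=
  {v | ∃ Q, QS 0 T.S w Q ∧ r Q = Dec.op v}

open Classical in
/-- Chosen quasi-strategy for a target. -/
noncomputable def Q1 (T : GT A) (w : List A) (r : Set (List A) → Dec A) (v : List A) :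
    Set (List A) :=
  if h : ∃ Q, QS 0 T.S w Q ∧ r Q = Dec.op v then h.choose else ∅

theorem Q1_spec {T : GT A} {w : List A} {r : Set (List A) → Dec A} {v : List A}
    (h : v ∈ V1 T w r) : QS 0 T.S w (Q1 T w r v) ∧ r (Q1 T w r v) = Dec.op v := by
  have h' : ∃ Q, QS 0 T.S w Q ∧ r Q = Dec.op v := h
  unfold Q1
  rw [dif_pos h']
  exact h'.choose_spec

/-- The avoiding quasi-strategy for player 0. -/
def Qc (T : GT A) (w : List A) (r : Set (List A) → Dec A) : Set (List A) :=
  Wc 1 T.S (V1 T w r) w

open Classical in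
/-- Strategy for player 1. -/
noncomputable def psi1 [Nonempty A] (T : GT A) (K : ℕ)
    (s : List (A × Dec A) → A × Dec A) (l : List A) : A :=
  if l.length ≤ K then (s (zd K d0 l)).1 else
    comb 1 T.S (V1 T (anc (K + 1) l) (fun Q => (s (zd K (Q, Dec.no) (anc (K + 1) l))).2)) (K + 1) l
      (fun v => (s (zd K (Q1 T (anc (K + 1) l)
        (fun Q => (s (zd K (Q, Dec.no) (anc (K + 1) l))).2) v, Dec.op v) l)).1)
      (s (zd K (Qc T (anc (K + 1) l) (fun Q => (s (zd K (Q, Dec.no) (anc (K + 1) l))).2),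
        (s (zd K (Qc T (anc (K + 1) l) (fun Q => (s (zd K (Q, Dec.no) (anc (K + 1) l))).2),
          Dec.no) (anc (K + 1) l))).2) l)).1

open Classical in
/-- Make a move legal. -/
noncomputable def gd (T : GT A) (l : List A) (a : A) : A := if a :: l ∈ T.S then a else T.child l

theorem gd_mem {T : GT A} {l : List A} (hl : l ∈ T.S) (a : A) : gd T l a :: l ∈ T.S := by
  unfold gd
  split_ifs with h
  · exact h
  · exact T.child_mem hl

theorem gd_of_mem {T : GT A} {l : List A} {a : A} (h : a :: l ∈ T.S) : gd T l a = a := by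
  unfold gd; rw [if_pos h]

/-- Strategy translation. -/
noncomputable def phi [Nonempty A] (T : GT A) (R : Set (List A)) (K : ℕ) (hK : K % 2 = 0)
    (b : ℕ) (s : List (A × Dec A) → A × Dec A) (l : List A) : A :=
  gd T l (if b = 0 then psi0 R K (trn (OT T R K hK) l.length s) l
    else psi1 T K (trn (OT T R K hK) l.length s) l)

section

variable {T : GT A} {R : Set (List A)} {K : ℕ} {hK : K % 2 = 0}
  {s : List (A × Dec A) → A × Dec A}

theorem valid_short {D : Set (List A) × Dec A} {l : List A} (h : l ∈ T.S) (hl : l.length ≤ K) :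
    Valid T R K D l := ⟨h, by intro h; omega, by intro h; omega⟩

theorem phi_short [Nonempty A] (hs : (OT T R K hK).St s) (b : ℕ) (D : Set (List A) × Dec A) {l : List A}
    (h : l ∈ T.S) (hl : l.length ≤ K) : phi T R K hK b s l = (s (zd K D l)).1 := by
  have h1 : zd K D l = zd K d0 l := zd_congr (by intro h; omega) (by intro h; omega)
  have h2 : Valid T R K d0 l := valid_short h hl
  obtain ⟨D', h3, -, -⟩ := OT_step hs h2
  have h4 : trn (OT T R K hK) l.length s (zd K d0 l) = s (zd K d0 l) :=
    trn_of_mem (OT_mem.mpr h2) (by simp)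
  unfold phi
  have h5 : (if b = 0 then psi0 R K (trn (OT T R K hK) l.length s) l
    else psi1 T K (trn (OT T R K hK) l.length s) l) = (s (zd K d0 l)).1 := by
    split_ifs
    · unfold psi0; rw [if_pos hl, h4]
    · unfold psi1; rw [if_pos hl, h4]
  rw [h5, gd_of_mem h3.mem, h1]

/-- Recognising a lifted play. -/
theorem lift_of (D : Set (List A) × Dec A) (x : ℕ → A)
    (hv : ∀ n, Valid T R K D (ini x n)) (b : ℕ)
    (hc : ∀ n, n % 2 = b → (x n, dec K D n) = s (zd K D (ini x n))) :
    ∃ y, (OT T R K hK).Br y ∧ Con b s y ∧ ∀ n, (y n).1 = x n := by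
  refine ⟨fun n => (x n, dec K D n), ?_, ?_, fun _ => rfl⟩
  · intro n
    rw [← zd_ini]
    exact OT_mem.mpr (hv n)
  · intro n hn
    rw [← zd_ini]
    exact hc n hn

/-- Validity along a play in the `op` case. -/
theorem valid_op {x : ℕ → A} (hx : T.Br x) {Q : Set (List A)} {n : ℕ}
    (hQ : QS 0 T.S (ini x (K + 1)) Q) (h1 : ini x n ∈ Q) (h2 : ini x n ∈ R) (hn : K + 2 ≤ n)
    (m : ℕ) : Valid T R K (Q, Dec.op (ini x n)) (ini x m) where
  mem := hx m
  one := by
    intro h3
    simp only [ini_length] at h3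
    rw [anc_ini x h3]; exact hQ
  two := by
    intro h3
    simp only [ini_length] at h3
    left
    refine ⟨_, rfl, h1, h2, ?_, ?_⟩
    · rw [anc_ini x h3]; exact ini_suffix x hn
    · rcases Nat.le_total n m with h4 | h4
      · left; exact ini_suffix x h4
      · right; exact ini_suffix x h4

/-- Validity along a play in the `cl` case. -/
theorem valid_cl {x : ℕ → A} (hx : T.Br x) {Q Q' : Set (List A)}
    (hQ : QS 0 T.S (ini x (K + 1)) Q) (hQ' : QS 1 Q (ini x (K + 2)) Q')
    (hR : ∀ v ∈ Q', v ∉ R) (h : ∀ m, K + 2 ≤ m → ini x m ∈ Q')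
    (m : ℕ) : Valid T R K (Q, Dec.cl Q') (ini x m) where
  mem := hx m
  one := by
    intro h3
    simp only [ini_length] at h3
    rw [anc_ini x h3]; exact hQ
  two := by
    intro h3
    simp only [ini_length] at h3
    right
    refine ⟨_, rfl, ?_, hR, h m h3⟩
    rw [anc_ini x h3]; exact hQ'

/-- In the `op` case, before the target the strategy follows the target. -/
theorem op_follow (hs : (OT T R K hK).St s) {x : ℕ → A} {Q : Set (List A)} {n m : ℕ}
    (hv : Valid T R K (Q, Dec.op (ini x n)) (ini x m)) (h1 : K + 2 ≤ m) (h2 : m < n) :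
    (x m, dec K (Q, Dec.op (ini x n)) m) = s (zd K (Q, Dec.op (ini x n)) (ini x m)) := by
  obtain ⟨h3, h4⟩ := OT_step' hs hv (by simpa using h1)
  have h5 : dec K (Q, Dec.op (ini x n)) m = Dec.no := by
    unfold dec; rw [if_neg (by omega), if_neg (by omega)]
  apply Prod.ext
  · rcases h3.two (by simp only [List.length_cons, ini_length]; omega) with
      ⟨v, h6, h7, h8, h9, h10⟩ | ⟨Q', h6, -⟩
    · simp only [Dec.op.injEq] at h6
      subst h6
      have h11 : (s (zd K (Q, Dec.op (ini x n)) (ini x m))).1 :: ini x m <:+ ini x n := by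
        rcases h10 with h11 | h11
        · have h12 : (s (zd K (Q, Dec.op (ini x n)) (ini x m))).1 :: ini x m = ini x n := by
            symm
            apply h11.eq_of_length
            have := h11.length_le
            simp only [List.length_cons, ini_length] at this ⊢
            omega
          rw [h12]
        · exact h11
      have h12 := eq_ini_of_suffix h11
      simp only [List.length_cons, ini_length, ini_succ, List.cons.injEq, and_true] at h12
      exact h12.symm
    · simp at h6
  · rw [h5, h4]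

theorem cl_follow {Q Q' : Set (List A)} (hs : (OT T R K hK).St s) {l : List A}
    (hv : Valid T R K (Q, Dec.cl Q') l) (h1 : K + 2 ≤ l.length) :
    (s (zd K (Q, Dec.cl Q') l)).1 :: l ∈ Q' ∧ (s (zd K (Q, Dec.cl Q') l)).2 = Dec.no := by
  obtain ⟨h3, h4⟩ := OT_step' hs hv h1
  refine ⟨?_, h4⟩
  rcases h3.two (by simp only [List.length_cons]; omega) with ⟨v, h6, -⟩ | ⟨Q'', h6, -, -, h7⟩
  · simp at h6
  · simp only [Dec.cl.injEq] at h6
    subst h6
    exact h7

theorem dec_late (D : Set (List A) × Dec A) {n : ℕ} (h : K + 2 ≤ n) : dec K D n = Dec.no := by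
  unfold dec; rw [if_neg (by omega), if_neg (by omega)]

theorem dec_early (D : Set (List A) × Dec A) {n : ℕ} (h : n < K) : dec K D n = Dec.no := by
  unfold dec; rw [if_neg (by omega), if_neg (by omega)]

theorem lift0 [Nonempty A] (hs : (OT T R K hK).St s) {x : ℕ → A} (hx : T.Br x)
    (hc : Con 0 (phi T R K hK 0 s) x) :
    ∃ y, (OT T R K hK).Br y ∧ Con 0 s y ∧ ∀ n, (y n).1 = x n := by
  have ha : ∀ n, n ≤ K → n % 2 = 0 → ∀ D, x n = (s (zd K D (ini x n))).1 := by
    intro n hn h2 D
    rw [hc n h2, phi_short hs 0 D (hx n) (by simpa using hn)]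
  obtain ⟨D₁, h1, h2, -⟩ := OT_step hs (D := d0) (l := ini x K)
    (valid_short (hx K) (by simp))
  rw [← ha K le_rfl hK] at h1
  have h3 : (s (zd K d0 (ini x K))).2 = Dec.qs D₁.1 := by rw [h2]; simp [dec]
  obtain ⟨Q, D₂⟩ := D₁
  simp only at h3
  have hQ : QS 0 T.S (ini x (K + 1)) Q := by
    have := h1.one (by simp)
    rw [anc_of_le (by simp)] at this
    exact this
  have hw : ini x (K + 2) ∈ Q := by
    have := hQ.opp _ hQ.root (by simp only [ini_length]; omega) (x (K + 1)) (hx (K + 2))
    exact this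
  set V : Set (List A) := {v | v ∈ R ∧ v ∈ Q} with hV
  set Z := Wc 0 Q V (ini x (K + 2)) with hZ
  have htr : ∀ n, K ≤ n → getQ (trn (OT T R K hK) n s (zd K d0 (ini x K))).2 = Q := by
    intro n hn
    rw [trn_of_mem (OT_mem.mpr (valid_short (hx K) (by simp))) (by simpa using hn), h3]
    rfl
  have hphi : ∀ n, K + 2 ≤ n → phi T R K hK 0 s (ini x n) = gd T (ini x n)
      (comb 0 Q V (K + 2) (ini x n)
        (fun v => (trn (OT T R K hK) n s (zd K (Q, Dec.op v) (ini x n))).1)
        (trn (OT T R K hK) n s (zd K (Q, Dec.cl Z) (ini x n))).1) := by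
    intro n hn
    unfold phi
    rw [if_pos rfl]
    unfold psi0
    rw [if_neg (by simp only [ini_length]; omega)]
    simp only [ini_length, anc_ini x (show K ≤ n by omega), anc_ini x hn, htr n (by omega)]
    rfl
  have hQS : ¬ Wn 0 Q V (ini x (K + 2)) → QS 1 Q (ini x (K + 2)) Z := fun hnw =>
    Wc_QS (b := 0) (by norm_num) hw (fun a' l' h3 h4 => hQ.tl a' l' h3 (by
      simp only [ini_length] at h4 ⊢; omega)) hnw
  have hvalid : ¬ Wn 0 Q V (ini x (K + 2)) → ∀ l ∈ Z, Valid T R K (Q, Dec.cl Z) l := by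
    intro hnw l hl
    have hl1 : ini x (K + 2) <:+ l := hl.2.1
    have hl2 : K + 2 ≤ l.length := by simpa using hl1.length_le
    have hl3 := eq_anc_of_suffix hl1
    simp only [ini_length] at hl3
    have hl4 := eq_anc_of_suffix ((ini_suffix x (Nat.le_succ (K + 1))).trans hl1)
    simp only [ini_length] at hl4
    refine ⟨hQ.sub hl.1, fun _ => ?_, fun _ => ?_⟩
    · rw [← hl4]; exact hQ
    · right
      refine ⟨_, rfl, ?_, ?_, hl⟩
      · rw [← hl3]; exact hQS hnw
      · intro v hv hvR
        exact Wc_disj hv ⟨hvR, hv.1⟩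
  have hcs := comb_spec (b := 0) (S := Q) (V := V) (w := ini x (K + 2)) x
    (fun v l => (trn (OT T R K hK) l.length s (zd K (Q, Dec.op v) l)).1)
    (fun l => (trn (OT T R K hK) l.length s (zd K (Q, Dec.cl Z) l)).1)
    (by simp) hw
    (by
      intro n hn hnb hnQ
      exact hQ.opp _ hnQ (by simpa using hnb) (x n) (hx (n + 1)))
    T.S hQ.sub
    (by
      intro n hn hnb hmem
      simp only [ini_length] at hn hmem ⊢
      rw [hc n hnb, hphi n hn, gd_of_mem hmem])
    Z
    (by
      intro hnw
      refine ⟨(hQS hnw).root, ?_, ?_, ?_⟩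
      · intro l hl _
        have hl2 : K + 2 ≤ l.length := by simpa using hl.2.1.length_le
        have h5 := hvalid hnw l hl
        rw [trn_of_mem (OT_mem.mpr h5) (by simp)]
        exact (cl_follow hs h5 hl2).1
      · intro l hl _ a ha hna
        exact Wc_cons hl ha hna
      · intro l hl; exact hl.1)
  simp only [ini_length] at hcs
  rcases hcs with ⟨n, hn, hnV, hfol⟩ | ⟨hnw, hfol⟩
  · have hv := valid_op hx hQ hnV.2 hnV.1 hn
    refine lift_of (Q, Dec.op (ini x n)) x hv 0 ?_
    intro m hm
    rcases Nat.lt_trichotomy m K with h5 | h5 | h5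
    · apply Prod.ext
      · exact ha m (by omega) hm _
      · obtain ⟨D', -, h6, -⟩ := OT_step hs (hv m)
        rw [h6]
        simp only [ini_length]
        rw [dec_early _ h5, dec_early _ h5]
    · apply Prod.ext
      · exact ha m (by omega) hm _
      · rw [h5, zd_congr (D := (Q, Dec.op (ini x n))) (D' := d0) (l := ini x K)
          (by intro h6; simp only [ini_length] at h6; omega)
          (by intro h6; simp only [ini_length] at h6; omega), h3]
        simp [dec]
    · have h6 : K + 2 ≤ m := by omega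
      by_cases h7 : m < n
      · exact op_follow hs (hv m) h6 h7
      · have h8 := hfol m (by omega) hm
        have h9 : trn (OT T R K hK) m s (zd K (Q, Dec.op (ini x n)) (ini x m)) =
            s (zd K (Q, Dec.op (ini x n)) (ini x m)) :=
          trn_of_mem (OT_mem.mpr (hv m)) (by simp)
        rw [h9] at h8
        obtain ⟨h10, h11⟩ := OT_step' hs (hv m) (by simpa using h6)
        apply Prod.ext
        · exact h8 h10.mem
        · simp only
          rw [h11, dec_late _ h6]
  · have hv := valid_cl (R := R) hx hQ (hQS hnw) (fun v hv hvR => Wc_disj hv ⟨hvR, hv.1⟩)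
      (fun m hm => (hfol m hm).1)
    refine lift_of (Q, Dec.cl Z) x hv 0 ?_
    intro m hm
    rcases Nat.lt_trichotomy m K with h5 | h5 | h5
    · apply Prod.ext
      · exact ha m (by omega) hm _
      · obtain ⟨D', -, h6, -⟩ := OT_step hs (hv m)
        rw [h6]
        simp only [ini_length]
        rw [dec_early _ h5, dec_early _ h5]
    · apply Prod.ext
      · exact ha m (by omega) hm _
      · rw [h5, zd_congr (D := (Q, Dec.cl Z)) (D' := d0) (l := ini x K)
          (by intro h6; simp only [ini_length] at h6; omega)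
          (by intro h6; simp only [ini_length] at h6; omega), h3]
        simp [dec]
    · have h6 : K + 2 ≤ m := by omega
      have h8 := (hfol m h6).2 hm
      have h9 : trn (OT T R K hK) m s (zd K (Q, Dec.cl Z) (ini x m)) =
          s (zd K (Q, Dec.cl Z) (ini x m)) :=
        trn_of_mem (OT_mem.mpr (hv m)) (by simp)
      rw [h9] at h8
      obtain ⟨h10, h11⟩ := OT_step' hs (hv m) (by simpa using h6)
      apply Prod.ext
      · exact h8
      · simp only
        rw [h11, dec_late _ h6]

theorem lift1 [Nonempty A] (hs : (OT T R K hK).St s) {x : ℕ → A} (hx : T.Br x)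
    (hc : Con 1 (phi T R K hK 1 s) x) :
    ∃ y, (OT T R K hK).Br y ∧ Con 1 s y ∧ ∀ n, (y n).1 = x n := by
  have ha : ∀ n, n ≤ K → n % 2 = 1 → ∀ D, x n = (s (zd K D (ini x n))).1 := by
    intro n hn h2 D
    rw [hc n h2, phi_short hs 1 D (hx n) (by simpa using hn)]
  set w := ini x (K + 1) with hwdef
  have hwS : w ∈ T.S := hx (K + 1)
  have hwl : w.length = K + 1 := by simp [hwdef]
  set r : Set (List A) → Dec A :=
    fun Q => (trn (OT T R K hK) (K + 1) s (zd K (Q, Dec.no) w)).2 with hr
  have hrn : ∀ n, K + 1 ≤ n →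
      (fun Q => (trn (OT T R K hK) n s (zd K (Q, Dec.no) w)).2) = r := by
    intro n hn
    funext Q
    rw [hr]
    simp only
    rw [trn_trn (n := n) (m := K + 1) (by simp [hwl]; exact hn) (by simp [hwl])]
  have hvw : ∀ Q, QS 0 T.S w Q → ∀ c, Valid T R K (Q, c) w := by
    intro Q hQ c
    refine ⟨hwS, fun _ => ?_, fun h => ?_⟩
    · rw [anc_of_le (by rw [hwl])]; exact hQ
    · rw [hwl] at h; omega
  have hrQ : ∀ Q, QS 0 T.S w Q → r Q = (s (zd K (Q, Dec.no) w)).2 := by
    intro Q hQ
    rw [hr]
    simp only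
    rw [trn_of_mem (OT_mem.mpr (hvw Q hQ Dec.no)) (by simp [hwl])]
  have hphi : ∀ n, K + 1 ≤ n → phi T R K hK 1 s (ini x n) = gd T (ini x n)
      (comb 1 T.S (V1 T w r) (K + 1) (ini x n)
        (fun v => (trn (OT T R K hK) n s (zd K (Q1 T w r v, Dec.op v) (ini x n))).1)
        (trn (OT T R K hK) n s (zd K (Qc T w r, r (Qc T w r)) (ini x n))).1) := by
    intro n hn
    unfold phi
    rw [if_neg (by norm_num)]
    unfold psi1
    rw [if_neg (by simp only [ini_length]; omega)]
    simp only [ini_length, anc_ini x hn, ← hwdef]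
    have h6 := hrn n hn
    have h7 : (trn (OT T R K hK) n s (zd K (Qc T w r, Dec.no) w)).2 = r (Qc T w r) := by
      rw [← h6]
    simp only [h6]
    rw [h7]
  -- the closing case
  have hclose : ¬ Wn 1 T.S (V1 T w r) w → ∃ Q', r (Qc T w r) = Dec.cl Q' ∧
      QS 0 T.S w (Qc T w r) ∧
      QS 1 (Qc T w r) ((s (zd K (Qc T w r, Dec.no) w)).1 :: w) Q' ∧ (∀ v ∈ Q', v ∉ R) := by
    intro hnw
    have hQS : QS 0 T.S w (Qc T w r) := Wc_QS (b := 1) (by norm_num) hwS
      (fun a' l' h3 _ => T.tl a' l' h3) hnw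
    obtain ⟨D', h1, h2, h3, -⟩ := OT_step hs (hvw _ hQS Dec.no)
    rw [hwl] at h2
    have h4 : (s (zd K (Qc T w r, Dec.no) w)).2 = D'.2 := by rw [h2]; simp [dec]
    have h5 : D'.1 = Qc T w r := (h3 (by rw [hwl])).symm
    rcases h1.two (by simp [hwl]) with ⟨v, h6, h7, h8, h9, h10⟩ | ⟨Q', h6, h7, h8, h9⟩
    · exfalso
      have h11 : v ∈ V1 T w r := ⟨Qc T w r, hQS, by rw [hrQ _ hQS, h4, h6]⟩
      rw [h5] at h7
      exact Wc_disj h7 h11
    · rw [h5, anc_of_le (by simp [hwl])] at h7
      exact ⟨Q', by rw [hrQ _ hQS, h4, h6], hQS, h7, h8⟩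
  have hA : (∃ n, K + 1 ≤ n ∧ ini x n ∈ V1 T w r ∧ ∀ m, n ≤ m → m % 2 = 1 →
      (trn (OT T R K hK) m s
        (zd K (Q1 T w r (ini x n), Dec.op (ini x n)) (ini x m))).1 :: ini x m ∈ T.S →
      x m = (trn (OT T R K hK) m s
        (zd K (Q1 T w r (ini x n), Dec.op (ini x n)) (ini x m))).1) →
      ∃ y, (OT T R K hK).Br y ∧ Con 1 s y ∧ ∀ n, (y n).1 = x n := by
    rintro ⟨n, hn, hnV, hfol⟩
    obtain ⟨hQ, hrv⟩ := Q1_spec hnV
    set Q := Q1 T w r (ini x n) with hQdef
    rw [hrQ Q hQ] at hrv
    obtain ⟨D', h1, h2, h3, -⟩ := OT_step hs (hvw _ hQ Dec.no)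
    rw [hwl] at h2
    have h4 : D'.2 = Dec.op (ini x n) := by rw [← hrv, h2]; simp [dec]
    have h5 : D'.1 = Q := (h3 (by rw [hwl])).symm
    have h6 : ini x n ∈ Q ∧ ini x n ∈ R ∧ (s (zd K (Q, Dec.no) w)).1 :: w <:+ ini x n := by
      rcases h1.two (by simp [hwl]) with ⟨v, h6, h7, h8, h9, h10⟩ | ⟨Q', h6, -⟩
      · rw [h4] at h6
        simp only [Dec.op.injEq] at h6
        subst h6
        rw [h5] at h7
        rw [anc_of_le (by simp [hwl])] at h9
        exact ⟨h7, h8, h9⟩
      · rw [h4] at h6; simp at h6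
    obtain ⟨h7, h8, h9⟩ := h6
    have hn2 : K + 2 ≤ n := by
      have := h9.length_le
      simp only [List.length_cons, hwl, ini_length] at this
      omega
    have hxw : x (K + 1) = (s (zd K (Q, Dec.no) w)).1 := by
      have := eq_ini_of_suffix h9
      simp only [List.length_cons, hwl, ini_succ, List.cons.injEq] at this
      exact this.1.symm
    have hv := valid_op hx hQ h7 h8 hn2
    refine lift_of (Q, Dec.op (ini x n)) x hv 1 ?_
    intro m hm
    rcases Nat.lt_trichotomy m (K + 1) with h10 | h10 | h10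
    · apply Prod.ext
      · exact ha m (by omega) hm _
      · obtain ⟨D', -, h11, -⟩ := OT_step hs (hv m)
        rw [h11]
        simp only [ini_length]
        rw [dec_early _ (by omega), dec_early _ (by omega)]
    · subst h10
      have h11 : zd K (Q, Dec.op (ini x n)) (ini x (K + 1)) = zd K (Q, Dec.no) w :=
        zd_congr (fun _ => rfl) (by intro h; simp only [ini_length] at h; omega)
      rw [h11]
      apply Prod.ext
      · exact hxw
      · rw [hrv]; simp [dec]
    · have h12 : K + 2 ≤ m := by omega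
      by_cases h13 : m < n
      · exact op_follow hs (hv m) h12 h13
      · have h14 := hfol m (by omega) hm
        have h15 : trn (OT T R K hK) m s (zd K (Q, Dec.op (ini x n)) (ini x m)) =
            s (zd K (Q, Dec.op (ini x n)) (ini x m)) :=
          trn_of_mem (OT_mem.mpr (hv m)) (by simp)
        rw [h15] at h14
        obtain ⟨h16, h17⟩ := OT_step' hs (hv m) (by simpa using h12)
        apply Prod.ext
        · exact h14 h16.mem
        · simp only
          rw [h17, dec_late _ h12]
  have hown : ∀ n, w.length ≤ n → n % 2 = 1 →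
      comb 1 T.S (V1 T w r) w.length (ini x n)
        (fun v => (trn (OT T R K hK) (ini x n).length s
          (zd K (Q1 T w r v, Dec.op v) (ini x n))).1)
        (trn (OT T R K hK) (ini x n).length s
          (zd K (Qc T w r, r (Qc T w r)) (ini x n))).1 :: ini x n ∈ T.S →
      x n = comb 1 T.S (V1 T w r) w.length (ini x n)
        (fun v => (trn (OT T R K hK) (ini x n).length s
          (zd K (Q1 T w r v, Dec.op v) (ini x n))).1)
        (trn (OT T R K hK) (ini x n).length s
          (zd K (Qc T w r, r (Qc T w r)) (ini x n))).1 := by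
    intro n hn hnb hmem
    rw [hwl] at hn
    simp only [ini_length, hwl] at hmem ⊢
    rw [hc n hnb, hphi n hn, gd_of_mem hmem]
  by_cases hnw : Wn 1 T.S (V1 T w r) w
  · have hcs := comb_spec (b := 1) (S := T.S) (V := V1 T w r) (w := w) x
      (fun v l => (trn (OT T R K hK) l.length s (zd K (Q1 T w r v, Dec.op v) l)).1)
      (fun l => (trn (OT T R K hK) l.length s (zd K (Qc T w r, r (Qc T w r)) l)).1)
      (by simp [hwdef]) hwS (fun n _ _ _ => hx (n + 1)) T.S (fun _ h => h) hown
      ∅ (fun h => absurd hnw h)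
    simp only [ini_length] at hcs
    rw [hwl] at hcs
    rcases hcs with h | ⟨h, -⟩
    · exact hA h
    · exact absurd hnw h
  · obtain ⟨Q', hQ1, hQ2, hQ3, hQ4⟩ := hclose hnw
    have hzd : zd K (Qc T w r, r (Qc T w r)) w = zd K (Qc T w r, Dec.no) w :=
      zd_congr (fun _ => rfl) (by intro h; rw [hwl] at h; omega)
    have hQ'l : ∀ l ∈ Q', K + 2 ≤ l.length := by
      intro l hl
      have := (hQ3.above l hl).length_le
      simp only [List.length_cons, hwl] at this
      omega
    have hvalid : ∀ l ∈ Q', Valid T R K (Qc T w r, Dec.cl Q') l := by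
      intro l hl
      have h1 := hQ3.above l hl
      have h2 := eq_anc_of_suffix h1
      simp only [List.length_cons, hwl] at h2
      have h3 := eq_anc_of_suffix ((List.suffix_cons _ w).trans h1)
      rw [hwl] at h3
      refine ⟨hQ2.sub (hQ3.sub hl), fun _ => ?_, fun _ => ?_⟩
      · rw [← h3]; exact hQ2
      · right
        refine ⟨_, rfl, ?_, hQ4, hl⟩
        rw [← h2]; exact hQ3
    have hfollow : ∀ l ∈ Q', (trn (OT T R K hK) l.length s
        (zd K (Qc T w r, r (Qc T w r)) l)).1 :: l ∈ Q' ∧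
        trn (OT T R K hK) l.length s (zd K (Qc T w r, r (Qc T w r)) l) =
          s (zd K (Qc T w r, Dec.cl Q') l) ∧
        (s (zd K (Qc T w r, Dec.cl Q') l)).2 = Dec.no := by
      intro l hl
      rw [hQ1, trn_of_mem (OT_mem.mpr (hvalid l hl)) (by simp)]
      obtain ⟨h1, h2⟩ := cl_follow hs (hvalid l hl) (hQ'l l hl)
      exact ⟨h1, rfl, h2⟩
    have hcs := comb_spec (b := 1) (S := T.S) (V := V1 T w r) (w := w) x
      (fun v l => (trn (OT T R K hK) l.length s (zd K (Q1 T w r v, Dec.op v) l)).1)
      (fun l => (trn (OT T R K hK) l.length s (zd K (Qc T w r, r (Qc T w r)) l)).1)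
      (by simp [hwdef]) hwS (fun n _ _ _ => hx (n + 1)) T.S (fun _ h => h) hown
      ({w} ∪ Q') (by
        intro _
        refine ⟨Or.inl rfl, ?_, ?_, ?_⟩
        · rintro l (hl | hl) hlb
          · right
            rw [Set.mem_singleton_iff] at hl
            subst hl
            rw [hzd, trn_of_mem (OT_mem.mpr (hvw _ hQ2 Dec.no)) (by simp)]
            exact hQ3.root
          · right; exact (hfollow l hl).1
        · rintro l (hl | hl) hlb a ha hna
          · exfalso
            rw [Set.mem_singleton_iff] at hl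
            rw [hl, hwl] at hlb; omega
          · right
            exact hQ3.opp l hl hlb a (Wc_cons (hQ3.sub hl) ha hna)
        · rintro l (hl | hl)
          · rw [Set.mem_singleton_iff] at hl; rw [hl]; exact hwS
          · exact hQ2.sub (hQ3.sub hl))
    simp only [ini_length] at hcs
    rw [hwl] at hcs
    rcases hcs with h | ⟨-, h⟩
    · exact hA h
    · have hxw : x (K + 1) = (s (zd K (Qc T w r, Dec.no) w)).1 := by
        have h1 := (h (K + 1) le_rfl).2 (by omega)
        rw [← hwdef, hzd, trn_of_mem (OT_mem.mpr (hvw _ hQ2 Dec.no)) (by simp [hwl])] at h1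
        exact h1
      have hinQ : ∀ m, K + 2 ≤ m → ini x m ∈ Q' := by
        intro m hm
        rcases (h m (by omega)).1 with h1 | h1
        · exfalso
          rw [Set.mem_singleton_iff] at h1
          have := congrArg List.length h1
          rw [hwl, ini_length] at this; omega
        · exact h1
      have hv := valid_cl (R := R) (Q := Qc T w r) (Q' := Q') hx hQ2
        (by rw [ini_succ, ← hwdef, hxw]; exact hQ3) hQ4 hinQ
      refine lift_of (Qc T w r, Dec.cl Q') x hv 1 ?_
      intro m hm
      rcases Nat.lt_trichotomy m (K + 1) with h10 | h10 | h10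
      · apply Prod.ext
        · exact ha m (by omega) hm _
        · obtain ⟨D', -, h11, -⟩ := OT_step hs (hv m)
          rw [h11]
          simp only [ini_length]
          rw [dec_early _ (by omega), dec_early _ (by omega)]
      · subst h10
        have h11 : zd K (Qc T w r, Dec.cl Q') (ini x (K + 1)) = zd K (Qc T w r, Dec.no) w :=
          zd_congr (fun _ => rfl) (by intro h; simp only [ini_length] at h; omega)
        rw [h11]
        apply Prod.ext
        · exact hxw
        · rw [← hrQ _ hQ2, hQ1]; simp [dec]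
      · have h12 : K + 2 ≤ m := by omega
        have h14 := (h m (by omega)).2 hm
        obtain ⟨h15, h16, h17⟩ := hfollow _ (hinQ m h12)
        rw [ini_length] at h16
        rw [h16] at h14
        apply Prod.ext
        · exact h14
        · simp only
          rw [h17, dec_late _ h12]

/-- Structure of plays of the auxiliary tree. -/
theorem OT_br {y : ℕ → A × Dec A} (hy : (OT T R K hK).Br y) :
    ∃ D, ∀ n, Valid T R K D (ini (fun n => (y n).1) n) ∧
      ini y n = zd K D (ini (fun n => (y n).1) n) := by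
  obtain ⟨D, l, h1, h2⟩ := hy (K + 2)
  have h3 : l = ini (fun n => (y n).1) (K + 2) := by
    rw [← ini_map, h2, zd_fst]
  subst h3
  have h4 : ∀ m, y m = ((y m).1, dec K D m) := by
    intro m
    rcases Nat.lt_or_ge m (K + 2) with h5 | h5
    · rw [zd_ini] at h2
      exact ini_inj h2 m h5
    · obtain ⟨D', l', h6, h7⟩ := hy (m + 1)
      have h8 : l' = ini (fun n => (y n).1) (m + 1) := by
        rw [← ini_map, h7, zd_fst]
      subst h8
      rw [zd_ini] at h7
      have h9 := ini_inj h7 m (Nat.lt_succ_self m)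
      rw [dec_late _ h5] at h9
      rw [dec_late _ h5]
      exact h9
  have h5 : ∀ n, ini y n = zd K D (ini (fun n => (y n).1) n) := by
    intro n
    rw [zd_ini]
    exact ini_congr (fun m _ => h4 m)
  refine ⟨D, fun n => ⟨?_, h5 n⟩⟩
  apply OT_mem.mp
  rw [← h5 n]
  exact hy n

theorem OT_clop {U : Set (ℕ → A)} (hU : ∀ x, T.Br x → (x ∈ U ↔ ∃ n, ini x n ∈ R)) :
    Clop (OT T R K hK) {y | (fun n => (y n).1) ∈ U} := by
  have key : ∀ y : ℕ → A × Dec A, (OT T R K hK).Br y → ((fun n => (y n).1) ∈ U ↔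
      ∃ D, ini y (K + 2) = zd K D (ini (fun n => (y n).1) (K + 2)) ∧
        ((∃ m ≤ K + 2, ini (fun n => (y n).1) m ∈ R) ∨ ∃ v, D.2 = Dec.op v)) := by
    intro y hy
    obtain ⟨D, hD⟩ := OT_br hy
    have hx : T.Br (fun n => (y n).1) := fun n => (hD n).1.mem
    rw [hU _ hx]
    constructor
    · rintro ⟨n, hn⟩
      refine ⟨D, (hD (K + 2)).2, ?_⟩
      by_cases hnK : n ≤ K + 2
      · left; exact ⟨n, hnK, hn⟩
      · right
        rcases (hD n).1.two (by simp only [ini_length]; omega) with ⟨v, h1, -⟩ | ⟨Q, -, -, h2, h3⟩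
        · exact ⟨v, h1⟩
        · exact absurd hn (h2 _ h3)
    · rintro ⟨D', h1, h2⟩
      rcases h2 with ⟨m, _, hm⟩ | ⟨v, hv⟩
      · exact ⟨m, hm⟩
      · have h3 := zd_inj (h1.symm.trans (hD (K + 2)).2)
        have h4 := h3.2.2 (by simp)
        rw [h4] at hv
        rcases (hD (max (K + 2) v.length)).1.two (by simp) with
          ⟨v', h5, h6, h7, h8, h9⟩ | ⟨Q, h5, -⟩
        · rw [hv] at h5
          simp only [Dec.op.injEq] at h5
          subst h5
          refine ⟨v.length, ?_⟩
          have h10 : v <:+ ini (fun n => (y n).1) (max (K + 2) v.length) := by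
            rcases h9 with h9 | h9
            · exact h9
            · rw [h9.eq_of_length_le (by simp)]
          rw [← eq_ini_of_suffix h10]; exact h7
        · rw [hv] at h5; simp at h5
  constructor
  · refine ⟨{z | z.length = K + 2 ∧ ∃ D, z = zd K D (z.map Prod.fst) ∧
        ((∃ m ≤ K + 2, anc m (z.map Prod.fst) ∈ R) ∨ ∃ v, D.2 = Dec.op v)}, fun y hy => ?_⟩
    rw [Set.mem_ofPred_eq, key y hy]
    constructor
    · rintro ⟨D, h1, h2⟩
      refine ⟨K + 2, by simp, D, ?_, ?_⟩
      · rw [ini_map]; exact h1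
      · rw [ini_map]
        rcases h2 with ⟨m, h2, h3⟩ | h2
        · left; exact ⟨m, h2, by rw [anc_ini _ h2]; exact h3⟩
        · right; exact h2
    · rintro ⟨n, h1, D, h2, h3⟩
      simp only [ini_length] at h1
      subst h1
      rw [ini_map] at h2 h3
      refine ⟨D, h2, ?_⟩
      rcases h3 with ⟨m, h4, h5⟩ | h3
      · left; exact ⟨m, h4, by rw [anc_ini _ h4] at h5; exact h5⟩
      · right; exact h3
  · refine ⟨{z | z.length = K + 2 ∧ ¬ ∃ D, z = zd K D (z.map Prod.fst) ∧
        ((∃ m ≤ K + 2, anc m (z.map Prod.fst) ∈ R) ∨ ∃ v, D.2 = Dec.op v)}, fun y hy => ?_⟩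
    rw [Set.mem_compl_iff, Set.mem_ofPred_eq, key y hy]
    constructor
    · intro h0
      refine ⟨K + 2, by simp, ?_⟩
      rintro ⟨D, h1, h2⟩
      apply h0
      rw [ini_map] at h1 h2
      refine ⟨D, h1, ?_⟩
      rcases h2 with ⟨m, h2, h3⟩ | h2
      · left; exact ⟨m, h2, by rw [anc_ini _ h2] at h3; exact h3⟩
      · right; exact h2
    · rintro ⟨n, h1, h2⟩ ⟨D, h3, h4⟩
      simp only [ini_length] at h1
      subst h1
      apply h2
      rw [ini_map]
      refine ⟨D, h3, ?_⟩
      rcases h4 with ⟨m, h5, h6⟩ | h4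
      · left; exact ⟨m, h5, by rw [anc_ini _ h5]; exact h6⟩
      · right; exact h4

end

/-- The covering. -/
noncomputable def OC [Nonempty A] (T : GT A) (R : Set (List A)) (K : ℕ) (hK : K % 2 = 0) :
    Cov T (OT T R K hK) K where
  f := Prod.fst
  mem := by
    rintro z ⟨D, l, h, rfl⟩
    rw [zd_fst]; exact h.mem
  φ := phi T R K hK
  st := by
    intro b s _ l hl
    exact gd_mem hl _
  loc := by
    intro b n s s' h l _ hn
    unfold phi
    rw [trn_congr h hn]
  lift := by
    intro b hb s hs x hx hc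
    have : b = 0 ∨ b = 1 := by omega
    rcases this with rfl | rfl
    · exact lift0 hs hx hc
    · exact lift1 hs hx hc
  uniq := by
    rintro z ⟨D, l, h, rfl⟩ z' ⟨D', l', h', rfl⟩ hk he
    rw [zd_fst, zd_fst] at he
    subst he
    rw [zd_length] at hk
    exact zd_congr (by intro h; omega) (by intro h; omega)
  surj := by
    intro l hl hk
    exact ⟨zd K d0 l, OT_mem.mpr (valid_short hl hk), zd_fst _ _ _⟩
  stab := by
    rintro b s hs z ⟨D, l, h, rfl⟩ hk
    rw [zd_fst]
    rw [zd_length] at hk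
    exact phi_short hs b D h.mem hk.le

theorem OC_f [Nonempty A] (T : GT A) (R : Set (List A)) (K : ℕ) (hK : K % 2 = 0) :
    (OC T R K hK).f = Prod.fst := rfl

end Pool.Agent.Lib.P43c499
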