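import Pool.Agent.Lib.P43c499.Grp
import Pool.Agent.Lib.P43c499.Det

/-!
Finite positions: finite pieces of labelled Cayley trees.
-/

namespace Pool.Agent.Lib.P43c499

open NoHom

/-- Finite positions. -/
@[ext] structure Pos where
  L : ℕ
  C : Set Gam
  lab : Gam → ℕ → ℕ
  R : Set ℝ
  fin : C.Finite
  cnt : R.Countable
  inj : ∀ g ∈ C, ∀ h ∈ C, (∀ m < L, lab g m = lab h m) → g = h

namespace Pos

/-- Extension of positions. -/
structure Le (q q' : Pos) : Prop where
  L : q.L ≤ q'.L
  C : q.C ⊆ q'.C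
  R : q.R ⊆ q'.R
  lab : ∀ g ∈ q.C, ∀ m < q.L, q'.lab g m = q.lab g m
  com : ∀ g ∈ q.C, ∀ h ∈ q.C, ∀ m, q.L ≤ m → m < q'.L → q'.lab g m = q'.lab h m

theorem Le.refl (q : Pos) : Le q q :=
  ⟨le_rfl, fun _ h => h, fun _ h => h, fun _ _ _ _ => rfl, fun _ _ _ _ m h1 h2 => by omega⟩

theorem Le.trans {q q' q'' : Pos} (h : Le q q') (h' : Le q' q'') : Le q q'' where
  L := h.L.trans h'.L
  C := h.C.trans h'.C
  R := h.R.trans h'.R
  lab := fun g hg m hm => by rw [h'.lab g (h.C hg) m (lt_of_lt_of_le hm h.L), h.lab g hg m hm]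
  com := by
    intro g hg g' hg' m h1 h2
    rcases Nat.lt_or_ge m q'.L with h3 | h3
    · rw [h'.lab g (h.C hg) m h3, h'.lab g' (h.C hg') m h3, h.com g hg g' hg' m h1 h3]
    · exact h'.com g (h.C hg) g' (h.C hg') m h3 h2

/-- Translation. -/
def tr (γ : Gam) (q : Pos) : Pos where
  L := q.L
  C := {g | γ⁻¹ * g ∈ q.C}
  lab := fun g => q.lab (γ⁻¹ * g)
  R := q.R
  fin := q.fin.preimage (fun a _ b _ h => mul_left_cancel h)
  cnt := q.cnt
  inj := by
    intro g hg h hh hm
    exact mul_left_cancel (q.inj _ hg _ hh hm)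

theorem mem_tr {γ g : Gam} {q : Pos} : g ∈ (tr γ q).C ↔ γ⁻¹ * g ∈ q.C := Iff.rfl

@[simp] theorem tr_L (γ : Gam) (q : Pos) : (tr γ q).L = q.L := rfl

@[simp] theorem tr_R (γ : Gam) (q : Pos) : (tr γ q).R = q.R := rfl

theorem tr_tr (γ δ : Gam) (q : Pos) : tr γ (tr δ q) = tr (γ * δ) q := by
  ext
  · rfl
  · simp only [mem_tr, mul_inv_rev, mul_assoc]
  · simp only [tr, mul_inv_rev, mul_assoc]
  · rfl

@[simp] theorem tr_one (q : Pos) : tr 1 q = q := by
  ext
  · rfl
  · simp only [mem_tr, inv_one, one_mul]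
  · simp only [tr, inv_one, one_mul]
  · rfl

theorem tr_inv_tr (γ : Gam) (q : Pos) : tr γ⁻¹ (tr γ q) = q := by
  rw [tr_tr, inv_mul_cancel, tr_one]

theorem tr_tr_inv (γ : Gam) (q : Pos) : tr γ (tr γ⁻¹ q) = q := by
  rw [tr_tr, mul_inv_cancel, tr_one]

theorem Le.tr {q q' : Pos} (h : Le q q') (γ : Gam) : Le (tr γ q) (tr γ q') where
  L := h.L
  C := fun _ hg => h.C hg
  R := h.R
  lab := fun _ hg m hm => h.lab _ hg m hm
  com := fun _ hg _ hg' m h1 h2 => h.com _ hg _ hg' m h1 h2

theorem Le.of_tr {q q' : Pos} {γ : Gam} (h : Le (Pos.tr γ q) q') : Le q (Pos.tr γ⁻¹ q') := by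
  have := h.tr γ⁻¹
  rwa [tr_inv_tr] at this

theorem Le.of_tr_inv {q q' : Pos} {γ : Gam} (h : Le q (Pos.tr γ⁻¹ q')) : Le (Pos.tr γ q) q' := by
  have := h.tr γ
  rwa [tr_tr_inv] at this

/-- A move adding elements of `D` only, covering the neighbours in `D`. -/
structure Step (D : Set Gam) (q q' : Pos) : Prop where
  le : Le q q'
  lt : q.L < q'.L
  new : ∀ g ∈ q'.C, g ∉ q.C → g ∈ D
  cov : ∀ g ∈ q.C, ∀ j, g * gen j ∈ D → g * gen j ∈ q'.C

theorem Step.tr {D : Set Gam} {q q' : Pos} (h : Step D q q') (γ : Gam) :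
    Step {g | γ⁻¹ * g ∈ D} (tr γ q) (tr γ q') where
  le := h.le.tr γ
  lt := h.lt
  new := fun g hg hg' => h.new _ hg hg'
  cov := by
    intro g hg j hj
    change γ⁻¹ * (g * gen j) ∈ q'.C
    have hj' : γ⁻¹ * (g * gen j) ∈ D := hj
    rw [← mul_assoc] at hj' ⊢
    exact h.cov _ hg j hj'

/-- A coding of the group. -/
noncomputable def enc : Gam → ℕ := (exists_injective_nat Gam).choose

theorem enc_inj : Function.Injective enc := (exists_injective_nat Gam).choose_spec

open Classical in
/-- Adding elements and reals. -/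
noncomputable def add (q : Pos) (E : Set Gam) (hE : E.Finite) (R' : Set ℝ)
    (hR' : R'.Countable) : Pos where
  L := q.L + 1
  C := q.C ∪ E
  lab := fun g m => if g ∈ q.C then (if m < q.L then q.lab g m else 0) else enc g + 1
  R := q.R ∪ R'
  fin := q.fin.union hE
  cnt := q.cnt.union hR'
  inj := by
    intro g hg h hh hm
    by_cases h1 : g ∈ q.C <;> by_cases h2 : h ∈ q.C
    · apply q.inj g h1 h h2
      intro m hmq
      have := hm m (by omega)
      simpa [h1, h2, hmq] using this
    · have := hm q.L (by omega)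
      simp [h1, h2] at this
    · have := hm q.L (by omega)
      simp [h1, h2] at this
    · have := hm 0 (by omega)
      simp only [h1, h2, if_false] at this
      exact enc_inj (by omega)

theorem le_add (q : Pos) (E : Set Gam) (hE : E.Finite) (R' : Set ℝ) (hR' : R'.Countable) :
    Le q (q.add E hE R' hR') where
  L := by simp [add]
  C := Set.subset_union_left
  R := Set.subset_union_left
  lab := by
    intro g hg m hm
    simp [add, hg, hm]
  com := by
    intro g hg h hh m h1 _
    have : ¬ m < q.L := by omega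
    simp [add, hg, hh, this]

/-- Right neighbours of a set. -/
def nb (C : Set Gam) : Set Gam := {g | ∃ h ∈ C, ∃ j, g = h * gen j}

theorem nb_finite {C : Set Gam} (h : C.Finite) : (nb C).Finite := by
  have : nb C = ⋃ j : Fin 3, (fun g => g * gen j) '' C := by
    ext g
    simp only [nb, Set.mem_ofPred_eq, Set.mem_iUnion, Set.mem_image]
    constructor
    · rintro ⟨h, hh, j, rfl⟩; exact ⟨j, h, hh, rfl⟩
    · rintro ⟨j, h, hh, rfl⟩; exact ⟨h, hh, j, rfl⟩
  rw [this]
  exact Set.finite_iUnion (fun j => h.image _)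

theorem exists_step (D : Set Gam) (q : Pos) : ∃ q', Step D q q' := by
  have hE : (nb q.C ∩ D).Finite := (nb_finite q.fin).inter_of_left D
  refine ⟨q.add (nb q.C ∩ D) hE ∅ Set.countable_empty, le_add _ _ _ _ _, ?_, ?_, ?_⟩
  · simp [add]
  · rintro g (hg | hg) hg'
    · exact absurd hg hg'
    · exact hg.2
  · intro g hg j hj
    right
    exact ⟨⟨g, hg, j, rfl⟩, hj⟩

open Classical in
/-- Merging two disjoint positions. -/
noncomputable def mrg (q q' : Pos) (_ : ∀ g ∈ q.C, g ∉ q'.C) : Pos where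
  L := max q.L q'.L + 1
  C := q.C ∪ q'.C
  lab := fun g m => if g ∈ q.C then (if m < q.L then q.lab g m else 0) else
    (if m < q'.L then q'.lab g m else if m = max q.L q'.L then 1 else 0)
  R := q.R ∪ q'.R
  fin := q.fin.union q'.fin
  cnt := q.cnt.union q'.cnt
  inj := by
    have h3 : ¬ max q.L q'.L < q.L := by omega
    have h4 : ¬ max q.L q'.L < q'.L := by omega
    intro g hg h hh hm
    by_cases h1 : g ∈ q.C <;> by_cases h2 : h ∈ q.C
    · apply q.inj g h1 h h2
      intro m hmq
      have := hm m (by omega)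
      simpa [h1, h2, hmq] using this
    · have := hm (max q.L q'.L) (by omega)
      rw [if_pos h1, if_neg h2, if_neg h3, if_neg h4, if_pos rfl] at this
      omega
    · have := hm (max q.L q'.L) (by omega)
      rw [if_pos h2, if_neg h1, if_neg h3, if_neg h4, if_pos rfl] at this
      omega
    · apply q'.inj g (hg.resolve_left h1) h (hh.resolve_left h2)
      intro m hmq
      have := hm m (by omega)
      simpa [h1, h2, hmq] using this

theorem le_mrg_left (q q' : Pos) (hd : ∀ g ∈ q.C, g ∉ q'.C) : Le q (mrg q q' hd) where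
  L := by simp only [mrg]; omega
  C := Set.subset_union_left
  R := Set.subset_union_left
  lab := by
    intro g hg m hm
    simp [mrg, hg, hm]
  com := by
    intro g hg h hh m h1 _
    have : ¬ m < q.L := by omega
    simp [mrg, hg, hh, this]

theorem le_mrg_right (q q' : Pos) (hd : ∀ g ∈ q.C, g ∉ q'.C) : Le q' (mrg q q' hd) where
  L := by simp only [mrg]; omega
  C := Set.subset_union_right
  R := Set.subset_union_right
  lab := by
    intro g hg m hm
    have : g ∉ q.C := fun h => hd g h hg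
    simp [mrg, this, hm]
  com := by
    intro g hg h hh m h1 _
    have h2 : ¬ m < q'.L := by omega
    have h3 : g ∉ q.C := fun h => hd g h hg
    have h4 : h ∉ q.C := fun h' => hd h h' hh
    simp [mrg, h2, h3, h4]

end Pos

universe u

variable {A : Type u}

/-- The current state. -/
def lastp (a0 : A) : List A → A
  | [] => a0
  | a :: _ => a

/-- Legal sequences for a relation depending on the parity. -/
def chn (r : ℕ → A → A → Prop) (a0 : A) : List A → Prop
  | [] => True
  | a :: l => r (l.length % 2) (lastp a0 l) a ∧ chn r a0 l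

/-- The tree of legal sequences. -/
def CT (r : ℕ → A → A → Prop) (hr : ∀ b a, ∃ a', r b a a') (a0 : A) : GT A where
  S := {l | chn r a0 l}
  nil := trivial
  tl := fun _ _ h => h.2
  ext := fun l h => by
    obtain ⟨a, ha⟩ := hr (l.length % 2) (lastp a0 l)
    exact ⟨a, ha, h⟩

theorem CT_cons {r : ℕ → A → A → Prop} {hr : ∀ b a, ∃ a', r b a a'} {a0 a : A} {l : List A} :
    a :: l ∈ (CT r hr a0).S ↔ r (l.length % 2) (lastp a0 l) a ∧ l ∈ (CT r hr a0).S := Iff.rfl

theorem CT_br_zero {r : ℕ → A → A → Prop} {hr : ∀ b a, ∃ a', r b a a'} {a0 : A} {x : ℕ → A}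
    (h : (CT r hr a0).Br x) : r 0 a0 (x 0) := (h 1).1

theorem CT_br_succ {r : ℕ → A → A → Prop} {hr : ∀ b a, ∃ a', r b a a'} {a0 : A} {x : ℕ → A}
    (h : (CT r hr a0).Br x) (n : ℕ) : r ((n + 1) % 2) (x n) (x (n + 1)) := by
  have := (h (n + 2)).1
  rw [ini_length] at this
  exact this

theorem CT_br_of {r : ℕ → A → A → Prop} {hr : ∀ b a, ∃ a', r b a a'} {a0 : A} {x : ℕ → A}
    (h0 : r 0 a0 (x 0)) (h : ∀ n, r ((n + 1) % 2) (x n) (x (n + 1))) : (CT r hr a0).Br x := by
  intro n
  induction n with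
  | zero => trivial
  | succ n ih =>
    refine ⟨?_, ih⟩
    rw [ini_length]
    cases n with
    | zero => exact h0
    | succ n => exact h n

/-- Interleaving two strategies for the second player. -/
theorem interleave {r : ℕ → A → A → Prop} {hr : ∀ b a, ∃ a', r b a a'} {a0 a0' M : A}
    (t t' : A → A) (ht : ∀ a, t (t' a) = a) (ht' : ∀ a, t' (t a) = a)
    (h1 : ∀ a a', r 1 a a' → r 0 (t' a) (t' a')) (h2 : ∀ a a', r 1 a a' → r 0 (t a) (t a'))
    (hM : r 0 a0 M) (hM' : ∀ y, r 1 M y → r 0 a0' (t' y)) {σ1 σ2 : List A → A}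
    (hσ1 : (CT r hr a0).St σ1) (hσ2 : (CT r hr a0').St σ2) :
    ∃ Z : ℕ → A, (CT r hr a0).Br Z ∧ Con 1 σ1 Z ∧
      (CT r hr a0').Br (fun n => t' (Z (n + 1))) ∧ Con 1 σ2 (fun n => t' (Z (n + 1))) := by
  classical
  let step : List A → A := fun l => if l = [] then M else if l.length % 2 = 1 then σ1 l else
    t (σ2 ((l.dropLast).map t'))
  obtain ⟨Z, hZ⟩ := exists_ini (fun n => Nat.rec [] (fun _ l => step l :: l) n) rfl
    (fun n => ⟨_, rfl⟩)
  have hstep : ∀ n, Z n = step (ini Z n) := by
    intro n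
    have h3 := hZ (n + 1)
    have h4 := hZ n
    simp only at h3 h4
    rw [ini_succ, ← h4, List.cons.injEq] at h3
    exact h3.1
  have hdrop : ∀ n, (ini Z (n + 1)).dropLast = ini (fun m => Z (m + 1)) n := by
    intro n
    induction n with
    | zero => rfl
    | succ n ih =>
      rw [ini_succ Z (n + 1), ini_succ (fun m => Z (m + 1)) n, ← ih, ini_succ Z n,
        List.dropLast_cons_cons]
  have hx2 : ∀ n, ((ini Z (n + 1)).dropLast).map t' = ini (fun n => t' (Z (n + 1))) n := by
    intro n; rw [hdrop, ini_map]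
  have hZ0 : Z 0 = M := by rw [hstep 0]; simp [step]
  have hodd : ∀ n, n % 2 = 1 → Z n = σ1 (ini Z n) := by
    intro n hn
    rw [hstep n]
    have h3 : ini Z n ≠ [] := by
      intro h
      have := congrArg List.length h
      simp only [ini_length, List.length_nil] at this
      omega
    simp only [step, if_neg h3, ini_length, if_pos hn]
  have heven : ∀ n, n % 2 = 1 → t' (Z (n + 1)) = σ2 (ini (fun n => t' (Z (n + 1))) n) := by
    intro n hn
    have h3 : ini Z (n + 1) ≠ [] := by
      intro h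
      have := congrArg List.length h
      simp at this
    have h5 : ¬ (n + 1) % 2 = 1 := by omega
    have h4 : Z (n + 1) = t (σ2 (ini (fun n => t' (Z (n + 1))) n)) := by
      rw [hstep (n + 1)]
      simp only [step, if_neg h3, ini_length, if_neg h5]
      rw [hx2]
    rw [h4, ht']
  have key : ∀ n, ini Z (n + 1) ∈ (CT r hr a0).S ∧
      ini (fun n => t' (Z (n + 1))) n ∈ (CT r hr a0').S := by
    intro n
    induction n with
    | zero =>
      refine ⟨⟨?_, trivial⟩, trivial⟩
      change r 0 a0 (Z 0)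
      rw [hZ0]; exact hM
    | succ n ih =>
      by_cases hn : n % 2 = 1
      · have h3 : ini (fun n => t' (Z (n + 1))) (n + 1) ∈ (CT r hr a0').S := by
          rw [ini_succ]
          have := hσ2 _ ih.2
          rw [← heven n hn] at this
          exact this
        refine ⟨?_, h3⟩
        rw [ini_succ Z (n + 1), CT_cons]
        refine ⟨?_, ih.1⟩
        obtain ⟨n', rfl⟩ : ∃ n', n = n' + 1 := ⟨n - 1, by omega⟩
        have h4 := h3.1
        rw [ini_length, hn] at h4
        have h5 := h2 _ _ h4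
        rw [ini_length]
        have h6 : (n' + 1 + 1) % 2 = 0 := by omega
        rw [h6]
        change r 0 (Z (n' + 1)) (Z (n' + 1 + 1))
        change r 0 (t (t' (Z (n' + 1)))) (t (t' (Z (n' + 1 + 1)))) at h5
        rwa [ht, ht] at h5
      · have hn1 : (n + 1) % 2 = 1 := by omega
        have h3 : ini Z (n + 2) ∈ (CT r hr a0).S := by
          rw [ini_succ]
          have := hσ1 _ ih.1
          rw [← hodd (n + 1) hn1] at this
          exact this
        refine ⟨h3, ?_⟩
        rw [ini_succ (fun n => t' (Z (n + 1))) n, CT_cons]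
        refine ⟨?_, ih.2⟩
        have h4 := h3.1
        rw [ini_length, hn1] at h4
        change r 1 (Z n) (Z (n + 1)) at h4
        rw [ini_length]
        have h6 : n % 2 = 0 := by omega
        rw [h6]
        cases n with
        | zero =>
          rw [hZ0] at h4
          exact hM' _ h4
        | succ n => exact h1 _ _ h4
  refine ⟨Z, fun n => ?_, hodd, fun n => (key n).2, fun n hn => heven n hn⟩
  cases n with
  | zero => trivial
  | succ n => exact (key n).1

end Pool.Agent.Lib.P43c499
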