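import Pool.Agent.Lib.P43c499.Core

/-!
From colourings on the subtype to the standing hypotheses.
-/

namespace Pool.Agent.Lib.P43c499

open NoHom

theorem EZ_meas : MeasurableSet {u : Gam → ℕ → ℕ | EZ u} := by
  have hm : ∀ (g : Gam) (m : ℕ), Measurable (fun u : Gam → ℕ → ℕ => u g m) := fun g m =>
    (measurable_pi_apply m).comp (measurable_pi_apply g)
  have h1 : ∀ g h (m : ℕ), MeasurableSet {u : Gam → ℕ → ℕ | u g m = u h m} := fun g h m =>
    measurableSet_eq_fun (hm g m) (hm h m)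
  have h2 : ∀ g h, MeasurableSet {u : Gam → ℕ → ℕ | u g = u h} := by
    intro g h
    have : {u : Gam → ℕ → ℕ | u g = u h} = ⋂ m, {u : Gam → ℕ → ℕ | u g m = u h m} := by
      ext u
      simp only [Set.mem_ofPred_eq, Set.mem_iInter, funext_iff]
    rw [this]
    exact MeasurableSet.iInter fun m => h1 g h m
  have h3 : {u : Gam → ℕ → ℕ | EZ u} =
      (⋂ g, ⋂ h, {u : Gam → ℕ → ℕ | u g = u h → g = h}) ∩
      (⋂ g, ⋂ h, ⋃ n : ℕ, ⋂ m ∈ Set.Ici n, {u : Gam → ℕ → ℕ | u g m = u h m}) := by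
    ext u
    simp only [EZ, Set.mem_ofPred_eq, Set.mem_inter_iff, Set.mem_iInter, Set.mem_iUnion,
      Set.mem_Ici, Function.Injective]
  rw [h3]
  refine MeasurableSet.inter (MeasurableSet.iInter fun g => MeasurableSet.iInter fun h => ?_)
    (MeasurableSet.iInter fun g => MeasurableSet.iInter fun h => MeasurableSet.iUnion fun n =>
      MeasurableSet.biInter (Set.to_countable _) fun m _ => h1 g h m)
  by_cases hgh : g = h
  · simp [hgh]
  · have : {u : Gam → ℕ → ℕ | u g = u h → g = h} = {u : Gam → ℕ → ℕ | u g = u h}ᶜ := by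
      ext u
      simp [hgh]
    rw [this]
    exact (h2 g h).compl

/-- The vertex set. -/
abbrev XX : Type := {u : Gam → ℕ → ℕ // EZ u}

theorem emb_XX : MeasurableEmbedding (Subtype.val : XX → (Gam → ℕ → ℕ)) :=
  MeasurableEmbedding.subtype_coe EZ_meas

theorem ext_val {β : Type} (a : XX → β) (b : (Gam → ℕ → ℕ) → β) {u : Gam → ℕ → ℕ} (hu : EZ u) :
    Function.extend Subtype.val a b u = a ⟨u, hu⟩ :=
  Subtype.val_injective.extend_apply a b ⟨u, hu⟩

theorem red {f : XX → ℝ} (hf : Measurable f)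
    (hinv : ∀ u v : XX, (∃ i, v.1 = shift (gen i) u.1) → f u = f v)
    (hcol : ∀ x0 : XX, ∃ c : XX → Fin 3, Measurable c ∧ ∀ x y, f x0 = f x → f x0 = f y →
      (∃ i, y.1 = shift (gen i) x.1) → c x ≠ c y) : False := by
  classical
  choose c hc1 hc2 using hcol
  let f' : (Gam → ℕ → ℕ) → ℝ := Function.extend Subtype.val f (fun _ => 0)
  have hf' : Measurable f' := emb_XX.measurable_extend hf measurable_const
  let c' : ℝ → (Gam → ℕ → ℕ) → Fin 3 := fun r =>
    if h : ∃ x0, f x0 = r then Function.extend Subtype.val (c h.choose) (fun _ => 0)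
    else fun _ => 0
  have hc' : ∀ r, Measurable (c' r) := by
    intro r
    by_cases h : ∃ x0, f x0 = r
    · have : c' r = Function.extend Subtype.val (c h.choose) (fun _ => 0) := dif_pos h
      rw [this]
      exact emb_XX.measurable_extend (hc1 _) measurable_const
    · have : c' r = fun _ => 0 := dif_neg h
      rw [this]
      exact measurable_const
  have hfv : ∀ u (hu : EZ u), f' u = f ⟨u, hu⟩ := fun u hu => ext_val f _ hu
  apply core_false (f := f') (c := c')
  refine ⟨hf', hc', ?_, ?_⟩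
  · intro u hu i
    rw [hfv _ (EZ_shift hu _), hfv _ hu]
    exact (hinv ⟨u, hu⟩ ⟨_, EZ_shift hu (gen i)⟩ ⟨i, rfl⟩).symm
  · intro u hu i
    have h : ∃ x0, f x0 = f' u := ⟨⟨u, hu⟩, (hfv u hu).symm⟩
    have h1 : c' (f' u) = Function.extend Subtype.val (c h.choose) (fun _ => 0) := dif_pos h
    rw [h1, ext_val _ _ hu, ext_val _ _ (EZ_shift hu (gen i))]
    have h2 := h.choose_spec
    apply hc2 h.choose
    · rw [h2, hfv u hu]
    · rw [h2, hfv u hu]
      exact hinv ⟨u, hu⟩ ⟨_, EZ_shift hu (gen i)⟩ ⟨i, rfl⟩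
    · exact ⟨i, rfl⟩

end Pool.Agent.Lib.P43c499
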