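import Pool.Agent.Lib.P43c499.Lims

/-!
The games and the two root lemma.
-/

namespace Pool.Agent.Lib.P43c499

open NoHom

theorem shift_apply {β : Type} (γ δ : Gam) (x : Gam → β) : shift γ x δ = x (γ⁻¹ * δ) := rfl

theorem shift_mul {β : Type} (γ δ : Gam) (x : Gam → β) :
    shift (γ * δ) x = shift γ (shift δ x) := by
  funext g
  simp only [shift_apply, mul_inv_rev, mul_assoc]

theorem shift_one {β : Type} (x : Gam → β) : shift 1 x = x := by
  funext g
  simp only [shift_apply, inv_one, one_mul]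

theorem EZ_shift {u : Gam → ℕ → ℕ} (h : EZ u) (γ : Gam) : EZ (shift γ u) := by
  refine ⟨fun g g' hgg => ?_, fun g g' => h.2 _ _⟩
  exact mul_left_cancel (h.1 hgg)

/-- The relation of the game. -/
def rJ (b : ℕ) (q q' : Pos) : Prop := Pos.Step (if b = 0 then B2 else B2ᶜ) q q'

theorem rJ_ex : ∀ b a, ∃ a', rJ b a a' := fun _ a => Pos.exists_step _ a

/-- The game tree. -/
def JT (p : Pos) : GT Pos := CT rJ rJ_ex p

/-- Good starting positions. -/
def Gd (p : Pos) : Prop := (1 : Gam) ∈ p.C ∧ ∀ g ∈ p.C, g ∉ B2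

theorem JT_inc {p : Pos} {x : ℕ → Pos} (hx : (JT p).Br x) : Inc x :=
  fun n => (CT_br_succ hx n).le

theorem JT_zero {p : Pos} {x : ℕ → Pos} (hx : (JT p).Br x) : Pos.Le p (x 0) :=
  (CT_br_zero hx).le

theorem JT_full {p : Pos} (hp : (1 : Gam) ∈ p.C) {x : ℕ → Pos} (hx : (JT p).Br x) : Full x where
  inc := JT_inc hx
  all := by
    apply all_of_closed (S := {g | ∃ n, g ∈ (x n).C})
    · exact ⟨0, (JT_zero hx).C hp⟩
    · rintro g ⟨n, hn⟩ j
      by_cases hB : g * gen j ∈ B2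
      · have h1 := CT_br_succ hx (2 * n + 1)
        have h2 : (2 * n + 1 + 1) % 2 = 0 := by omega
        rw [h2] at h1
        have h3 := h1.cov g (((JT_inc hx).le (show n ≤ 2 * n + 1 by omega)).C hn) j (by
          rw [if_pos rfl]; exact hB)
        exact ⟨_, h3⟩
      · have h1 := CT_br_succ hx (2 * n)
        have h2 : (2 * n + 1) % 2 = 1 := by omega
        rw [h2] at h1
        have h3 := h1.cov g (((JT_inc hx).le (show n ≤ 2 * n by omega)).C hn) j (by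
          rw [if_neg (by norm_num)]; exact hB)
        exact ⟨_, h3⟩
  unb := by
    have h : ∀ n, n < (x n).L := by
      intro n
      induction n with
      | zero =>
        have := (CT_br_zero hx).lt
        omega
      | succ n ih =>
        have := (CT_br_succ hx n).lt
        omega
    exact fun m => ⟨m, h m⟩

/-- Limits and translations. -/
theorem limu_tr {x y : ℕ → Pos} (hx : Full x) (hy : Full y) (γ : Gam)
    (h : ∀ n, ∃ m, Pos.Le (Pos.tr γ (y n)) (x m)) : limu y = shift γ⁻¹ (limu x) := by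
  symm
  apply hy.uniq
  intro n g hg m hm
  obtain ⟨m', hm'⟩ := h n
  have h1 : γ * g ∈ (Pos.tr γ (y n)).C := by
    rw [Pos.mem_tr, inv_mul_cancel_left]; exact hg
  rw [shift_apply, inv_inv, limu_eq hx.inc (hm'.C h1) (lt_of_lt_of_le hm hm'.L),
    hm'.lab _ h1 m hm]
  change (y n).lab (γ⁻¹ * (γ * g)) m = _
  rw [inv_mul_cancel_left]

theorem limR_tr {x y : ℕ → Pos} (γ : Gam)
    (h : ∀ n, ∃ m, Pos.Le (Pos.tr γ (y n)) (x m))
    (h' : ∀ n, ∃ m, Pos.Le (x n) (Pos.tr γ (y m))) : limR y = limR x := by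
  apply Set.Subset.antisymm
  · intro r hr
    obtain ⟨n, hn⟩ := Set.mem_iUnion.mp hr
    obtain ⟨m, hm⟩ := h n
    exact Set.mem_iUnion.mpr ⟨m, hm.R hn⟩
  · intro r hr
    obtain ⟨n, hn⟩ := Set.mem_iUnion.mp hr
    obtain ⟨m, hm⟩ := h' n
    exact Set.mem_iUnion.mpr ⟨m, hm.R hn⟩

/-- The standing hypotheses. -/
structure Hyp (f : (Gam → ℕ → ℕ) → ℝ) (c : ℝ → (Gam → ℕ → ℕ) → Fin 3) : Prop where
  hf : Measurable f
  hc : ∀ r, Measurable (c r)
  inv : ∀ u, EZ u → ∀ i, f (shift (gen i) u) = f u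
  pro : ∀ u, EZ u → ∀ i, c (f u) u ≠ c (f u) (shift (gen i) u)

variable {f : (Gam → ℕ → ℕ) → ℝ} {c : ℝ → (Gam → ℕ → ℕ) → Fin 3}

theorem Hyp.inv_all (H : Hyp f c) {u : Gam → ℕ → ℕ} (hu : EZ u) (γ : Gam) :
    f (shift γ u) = f u := by
  revert γ
  apply red_ind
  · rw [shift_one]
  · intro i g _ ih
    rw [shift_mul, H.inv _ (EZ_shift hu g) i, ih]

theorem tr2_tr2 (q : Pos) : Pos.tr (gen 2) (Pos.tr (gen 2) q) = q := by
  rw [Pos.tr_tr, gen_mul_self, Pos.tr_one]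

theorem rJ_flip {a a' : Pos} (h : rJ 1 a a') : rJ 0 (Pos.tr (gen 2) a) (Pos.tr (gen 2) a') := by
  have h1 : Pos.Step B2ᶜ a a' := by
    have : rJ 1 a a' = Pos.Step (if 1 = 0 then B2 else B2ᶜ) a a' := rfl
    rw [this, if_neg (by norm_num)] at h
    exact h
  have h2 := h1.tr (gen 2)
  have h3 : {g | (gen 2)⁻¹ * g ∈ B2ᶜ} = B2 := by
    ext g
    rw [Set.mem_ofPred_eq, gen_inv, Set.mem_compl_iff, ← gen_mul_mem_B2, gen_mul_gen_mul]
  rw [h3] at h2
  exact h2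

theorem two_root_aux (H : Hyp f c) (k : ℕ) {p p' : Pos} (hp : Gd p) (hp' : Gd p')
    {b b' : Bool} (hbb : b ≠ b') {σ σ' : List Pos → Pos}
    (hσ : (JT p).St σ) (hσ' : (JT p').St σ')
    (h : ∀ x, (JT p).Br x → Con 1 σ x → ¬ WW f c k b (limu x) (limR x))
    (h' : ∀ x, (JT p').Br x → Con 1 σ' x → ¬ WW f c k b' (limu x) (limR x)) : False := by
  have hd : ∀ g ∈ p.C, g ∉ (Pos.tr (gen 2) p').C := by
    intro g hg hg'
    rw [Pos.mem_tr, gen_inv] at hg'
    have h1 := hp'.2 _ hg'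
    rw [gen_mul_mem_B2, not_not] at h1
    exact hp.2 g hg h1
  set M := Pos.mrg p (Pos.tr (gen 2) p') hd with hMdef
  have hle : Pos.Le p M := Pos.le_mrg_left _ _ _
  have hle' : Pos.Le (Pos.tr (gen 2) p') M := Pos.le_mrg_right _ _ _
  have hMC : ∀ g, g ∈ M.C ↔ g ∈ p.C ∨ gen 2 * g ∈ p'.C := by
    intro g
    have : g ∈ M.C ↔ g ∈ p.C ∨ g ∈ (Pos.tr (gen 2) p').C := Iff.rfl
    rw [this, Pos.mem_tr, gen_inv]
  have hM : rJ 0 p M := by
    refine ⟨hle, ?_, ?_, ?_⟩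
    · change p.L < max p.L (Pos.tr (gen 2) p').L + 1
      omega
    · intro g hg hg'
      rw [if_pos rfl]
      rcases (hMC g).mp hg with h1 | h1
      · exact absurd h1 hg'
      · have h2 := hp'.2 _ h1
        rwa [gen_mul_mem_B2, not_not] at h2
    · intro g hg j hj
      rw [if_pos rfl] at hj
      obtain ⟨rfl, rfl⟩ := cross_out (hp.2 g hg) hj
      rw [hMC, one_mul, gen_mul_self]
      right; exact hp'.1
  have hM' : ∀ y, rJ 1 M y → rJ 0 p' (Pos.tr (gen 2) y) := by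
    intro y hy
    have hy' : Pos.Step B2ᶜ M y := by
      have : rJ 1 M y = Pos.Step (if 1 = 0 then B2 else B2ᶜ) M y := rfl
      rw [this, if_neg (by norm_num)] at hy
      exact hy
    have h1 : Pos.Le p' (Pos.tr (gen 2) y) := by
      have := (hle'.trans hy'.le).tr (gen 2)
      rwa [tr2_tr2] at this
    refine ⟨h1, ?_, ?_, ?_⟩
    · have h2 := hle'.L
      have h3 := hy'.lt
      simp only [Pos.tr_L] at h2 ⊢
      omega
    · intro g hg hg'
      rw [if_pos rfl]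
      rw [Pos.mem_tr, gen_inv] at hg
      have h2 : gen 2 * g ∉ B2 := by
        by_cases h3 : gen 2 * g ∈ M.C
        · rcases (hMC _).mp h3 with h4 | h4
          · exact hp.2 _ h4
          · rw [gen_mul_gen_mul] at h4; exact absurd h4 hg'
        · exact hy'.new _ hg h3
      rwa [gen_mul_mem_B2, not_not] at h2
    · intro g hg j hj
      rw [if_pos rfl] at hj
      obtain ⟨rfl, rfl⟩ := cross_out (hp'.2 g hg) hj
      rw [one_mul, Pos.mem_tr, gen_inv, gen_mul_self]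
      exact hy'.le.C (hle.C hp.1)
  obtain ⟨Z, hZ1, hZ2, hZ3, hZ4⟩ := interleave (r := rJ) (hr := rJ_ex) (a0 := p) (a0' := p')
    (M := M) (Pos.tr (gen 2)) (Pos.tr (gen 2)) tr2_tr2 tr2_tr2
    (fun _ _ => rJ_flip) (fun _ _ => rJ_flip) hM hM' hσ hσ'
  have hF1 : Full Z := JT_full hp.1 hZ1
  have hF2 : Full (fun n => Pos.tr (gen 2) (Z (n + 1))) := JT_full hp'.1 hZ3
  have h1 : ∀ n, ∃ m, Pos.Le (Pos.tr (gen 2) (Pos.tr (gen 2) (Z (n + 1)))) (Z m) := by
    intro n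
    exact ⟨n + 1, by rw [tr2_tr2]; exact Pos.Le.refl _⟩
  have h2 : ∀ n, ∃ m, Pos.Le (Z n) (Pos.tr (gen 2) (Pos.tr (gen 2) (Z (m + 1)))) := by
    intro n
    exact ⟨n, by rw [tr2_tr2]; exact hF1.inc n⟩
  have h3 := limu_tr hF1 hF2 (gen 2) h1
  have h4 := limR_tr (gen 2) h1 h2
  have h5 := h Z hZ1 hZ2
  have h6 := h' _ hZ3 hZ4
  rw [h3, h4, gen_inv] at h6
  have h7 : f (shift (gen 2) (limu Z)) = f (limu Z) := H.inv _ hF1.EZ 2
  unfold WW col at h5 h6
  rw [h7] at h6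
  by_cases hR : f (limu Z) ∈ limR Z
  · rw [if_pos hR] at h5 h6
    have h8 : c (f (limu Z)) (limu Z) = 2 := by
      by_contra h9
      exact h5 (Or.inl ⟨_, h9, rfl⟩)
    have h9 : c (f (limu Z)) (shift (gen 2) (limu Z)) = 2 := by
      by_contra h9
      exact h6 (Or.inl ⟨_, h9, rfl⟩)
    exact H.pro _ hF1.EZ 2 (h8.trans h9.symm)
  · rw [if_neg hR] at h5 h6
    have h8 : bit k (f (limu Z)) ≠ b := fun h9 => h5 (Or.inr ⟨rfl, h9⟩)
    have h9 : bit k (f (limu Z)) ≠ b' := fun h9 => h6 (Or.inr ⟨rfl, h9⟩)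
    cases b <;> cases b' <;> cases hb : bit k (f (limu Z)) <;> simp_all

/-- The two root lemma. -/
theorem two_root (H : Hyp f c) (k : ℕ) : ∃ b : Bool, ∀ p, Gd p → ∃ σ, (JT p).St σ ∧
    ∀ x, (JT p).Br x → Con 0 σ x → WW f c k b (limu x) (limR x) := by
  by_contra hcon
  push Not at hcon
  have key : ∀ b, ∃ p, Gd p ∧ ∃ σ, (JT p).St σ ∧ ∀ x, (JT p).Br x → Con 1 σ x →
      ¬ WW f c k b (limu x) (limR x) := by
    intro b
    obtain ⟨p, hp, h1⟩ := hcon b
    refine ⟨p, hp, ?_⟩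
    rcases (WW_meas H.hf H.hc k b).det (JT p) with ⟨s, hs, h2⟩ | ⟨s, hs, h2⟩
    · obtain ⟨x, hx1, hx2, hx3⟩ := h1 s hs
      exact absurd (h2 x hx1 hx2) hx3
    · exact ⟨s, hs, h2⟩
  obtain ⟨p, hp, σ, hσ, h⟩ := key true
  obtain ⟨p', hp', σ', hσ', h'⟩ := key false
  exact two_root_aux H k hp hp' (by simp) hσ hσ' h h'

end Pool.Agent.Lib.P43c499
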